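import Mathlib

set_option autoImplicit false

namespace Pool.Agent.V8H48.OP

/-- `N` has, for some prime `p`, a Sylow `p`-subgroup of order larger than the cube root of
the order of `N` -/
def CubeSylow (N : Type) [Group N] : Prop :=
  ∃ p : ℕ, p.Prime ∧ ∃ P : Sylow p N, Nat.card N < Nat.card P ^ 3

/-- `X` is isomorphic to an alternating group of degree at least `5` -/
def IsAlt (X : Type) [Group X] : Prop :=
  ∃ n : ℕ, 5 ≤ n ∧ Nonempty (X ≃* alternatingGroup (Fin n))

end Pool.Agent.V8H48.OP
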