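import Mathlib

set_option autoImplicit false

namespace Pool.Agent.V8H48.OP

open Nat

/-- the `p`-part of `t!` is at most `2 ^ (t - 1)` -/
theorem ppart_factorial {p : ℕ} (hp : p.Prime) {t : ℕ} (ht : t ≠ 0) :
    p ^ (t !).factorization p ≤ 2 ^ (t - 1) := by
  have : Fact p.Prime := ⟨hp⟩
  have h := sub_one_mul_padicValNat_factorial_lt_of_ne_zero p ht
  rw [← Nat.factorization_def _ hp] at h
  have h2 : p ≤ 2 ^ (p - 1) := by
    have := Nat.lt_two_pow_self (n := p - 1)
    have := hp.pos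
    omega
  calc p ^ (t !).factorization p ≤ (2 ^ (p - 1)) ^ (t !).factorization p :=
        Nat.pow_le_pow_left h2 _
    _ = 2 ^ ((p - 1) * (t !).factorization p) := by rw [pow_mul]
    _ ≤ 2 ^ (t - 1) := Nat.pow_le_pow_right (by norm_num) (by omega)

/-- the product `(m+1)(m+2)...(m+t)` -/
abbrev A (m t : ℕ) : ℕ := (m + 1).ascFactorial t

theorem A_pos (m t : ℕ) : 0 < A m t := Nat.ascFactorial_pos _ _

theorem fact_mul_A (m t : ℕ) : m ! * A m t = (m + t)! := Nat.factorial_mul_ascFactorial m t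

/-- the `p`-part of `(m+1)...(m+t)` is at most `(m+t) 2^(t-1)` -/
theorem ppart_A {p : ℕ} (hp : p.Prime) (m : ℕ) {t : ℕ} (ht : t ≠ 0) :
    p ^ (A m t).factorization p ≤ (m + t) * 2 ^ (t - 1) := by
  have h1 : A m t = t ! * (m + t).choose t := by
    have h3 := Nat.add_choose_mul_factorial_mul_factorial m t
    have h4 := fact_mul_A m t
    have : m ! * A m t = m ! * (t ! * (m + t).choose t) := by
      rw [h4, ← h3]
      ring
    exact Nat.eq_of_mul_eq_mul_left (Nat.factorial_pos m) this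
  have h5 : (m + t).choose t ≠ 0 := (Nat.choose_pos (by omega)).ne'
  rw [h1, Nat.factorization_mul (Nat.factorial_ne_zero t) h5, Finsupp.add_apply, pow_add, mul_comm]
  exact Nat.mul_le_mul (Nat.pow_factorization_choose_le (by omega)) (ppart_factorial hp ht)

/-- the good pairs -/
def Good (m t : ℕ) : Prop := (m + t) ^ 3 * 8 ^ (t - 1) ≤ A m t

instance (m t : ℕ) : Decidable (Good m t) := by unfold Good; infer_instance

theorem Good.succ_right {m t : ℕ} (ht : 1 ≤ t) (h10 : 10 ≤ m + t) (h : Good m t) :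
    Good m (t + 1) := by
  unfold Good at *
  have e1 : A m (t + 1) = (m + 1 + t) * A m t := Nat.ascFactorial_succ
  rw [e1]
  obtain ⟨s, rfl⟩ : ∃ s, t = s + 1 := ⟨t - 1, by omega⟩
  simp only [Nat.add_sub_cancel] at *
  obtain ⟨x, hx⟩ : ∃ x, x = m + (s + 1) := ⟨_, rfl⟩
  have hx1 : m + 1 + (s + 1) = x + 1 := by omega
  have hx2 : m + (s + 1 + 1) = x + 1 := by omega
  rw [← hx] at h h10
  rw [hx1, hx2, pow_succ 8 s]
  have h2 : 8 * (x + 1) ^ 2 ≤ x ^ 3 := by nlinarith [mul_le_mul h10 h10 (by norm_num) (by omega : 0 ≤ x)]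
  calc (x + 1) ^ 3 * (8 ^ s * 8) = (x + 1) * ((8 * (x + 1) ^ 2) * 8 ^ s) := by ring
    _ ≤ (x + 1) * (x ^ 3 * 8 ^ s) := by gcongr
    _ ≤ (x + 1) * A m (s + 1) := by gcongr

theorem Good.succ_left {m t : ℕ} (ht : 4 ≤ t) (h : Good m t) : Good (m + 1) t := by
  unfold Good at *
  have e1 : (m + 1) * A (m + 1) t = (m + 1 + t) * A m t := by
    unfold A
    exact Nat.succ_ascFactorial (m + 1) t
  have h2 : (m + 1) * (m + 1 + t) ^ 2 ≤ (m + t) ^ 3 := by
    obtain ⟨s, rfl⟩ : ∃ s, t = s + 4 := ⟨t - 4, by omega⟩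
    nlinarith [Nat.zero_le (s ^ 3), Nat.zero_le (m * s ^ 2), Nat.zero_le (m ^ 2 * s),
      Nat.zero_le (m * s), Nat.zero_le (s ^ 2), Nat.zero_le (m ^ 2), Nat.zero_le (m ^ 3)]
  have h3 : (m + 1) * ((m + 1 + t) ^ 3 * 8 ^ (t - 1)) ≤ (m + 1) * A (m + 1) t := by
    rw [e1]
    calc (m + 1) * ((m + 1 + t) ^ 3 * 8 ^ (t - 1))
        = (m + 1 + t) * (((m + 1) * (m + 1 + t) ^ 2) * 8 ^ (t - 1)) := by ring
      _ ≤ (m + 1 + t) * ((m + t) ^ 3 * 8 ^ (t - 1)) := by gcongr
      _ ≤ (m + 1 + t) * A m t := by gcongr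
  exact Nat.le_of_mul_le_mul_left h3 (by omega)

theorem Good.right {m t t' : ℕ} (ht : 1 ≤ t) (h10 : 10 ≤ m + t) (hle : t ≤ t') (h : Good m t) :
    Good m t' := by
  induction t', hle using Nat.le_induction with
  | base => exact h
  | succ n hn ih => exact ih.succ_right (by omega) (by omega)

theorem Good.left {m m' t : ℕ} (ht : 4 ≤ t) (hle : m ≤ m') (h : Good m t) : Good m' t := by
  induction m', hle using Nat.le_induction with
  | base => exact h
  | succ n hn ih => exact ih.succ_left ht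

theorem good1 : Good 5 16 := by decide +kernel
theorem good2 : Good 514 4 := by decide +kernel
theorem good3 : Good 64 5 := by decide +kernel

theorem bad_region {m t : ℕ} (hm : 5 ≤ m) (ht : 4 ≤ t) (h : ¬ Good m t) :
    (t = 4 ∧ m ≤ 513) ∨ (5 ≤ t ∧ t ≤ 15 ∧ m ≤ 63) := by
  have h1 : t ≤ 15 := by
    by_contra hc
    exact h ((good1.left (by norm_num) hm).right (by norm_num) (by omega) (by omega))
  rcases Nat.lt_or_ge t 5 with h5 | h5
  · left
    have : t = 4 := by omega
    subst this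
    refine ⟨rfl, ?_⟩
    by_contra hc
    exact h (good2.left (by norm_num) (by omega))
  · right
    refine ⟨h5, h1, ?_⟩
    by_contra hc
    exact h ((good3.left (by norm_num) (by omega)).right (by norm_num) (by omega) h5)

/-- main inequality: an order with a large `p`-part is not a product of many consecutive
integers -/
theorem main_ineq {m t p : ℕ} (hp : p.Prime) (hm : 5 ≤ m) (ht : 4 ≤ t)
    (h : A m t < (p ^ (A m t).factorization p) ^ 3) :
    (t = 4 ∧ m ≤ 513) ∨ (5 ≤ t ∧ t ≤ 15 ∧ m ≤ 63) := by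
  apply bad_region hm ht
  intro hg
  have h1 := ppart_A hp m (t := t) (by omega)
  have h2 : (p ^ (A m t).factorization p) ^ 3 ≤ ((m + t) * 2 ^ (t - 1)) ^ 3 :=
    Nat.pow_le_pow_left h1 3
  have h3 : ((m + t) * 2 ^ (t - 1)) ^ 3 = (m + t) ^ 3 * 8 ^ (t - 1) := by
    rw [mul_pow, ← pow_mul, mul_comm (t - 1) 3, pow_mul]; norm_num
  rw [h3] at h2
  unfold Good at hg
  omega

/-! ### the finite check -/

def cb : ℕ → ℕ → ℕ → ℕ
  | 0, _, c => c
  | k + 1, D, c => if (c + 2 ^ k) ^ 3 ≤ D then cb k D (c + 2 ^ k) else cb k D c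

/-- `D` is not of the form `q ^ 3 - q`, except possibly with `q = e` -/
def noq (e D : ℕ) : Bool :=
  let c := cb 48 D 0
  decide (c ^ 3 ≤ D) && decide (D < (c + 1) ^ 3) && (decide (c + 1 = e) || decide ((c + 1) ^ 3 ≠ D + (c + 1)))

theorem noq_spec {e D : ℕ} (h : noq e D = true) {q : ℕ} (hq : 1 ≤ q) (hD : D + q = q ^ 3) : q = e := by
  unfold noq at h
  simp only [Bool.and_eq_true, Bool.or_eq_true, decide_eq_true_eq] at h
  obtain ⟨⟨h1, h2⟩, h3⟩ := h
  set c := cb 48 D 0 with hc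
  have h4 : c < q := by
    by_contra hcon
    push Not at hcon
    have : q ^ 3 ≤ c ^ 3 := Nat.pow_le_pow_left hcon 3
    omega
  have h5 : q - 1 < c + 1 := by
    by_contra hcon
    push Not at hcon
    have h6 : (c + 1) ^ 3 ≤ (q - 1) ^ 3 := Nat.pow_le_pow_left hcon 3
    obtain ⟨r, rfl⟩ : ∃ r, q = r + 1 := ⟨q - 1, by omega⟩
    simp only [Nat.add_sub_cancel] at h6
    nlinarith [Nat.zero_le (r ^ 2)]
  have h6 : q = c + 1 := by omega
  rcases h3 with h3 | h3
  · omega
  · exfalso; apply h3; rw [← h6]; omega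

def chk4 : Bool := (List.range 509).all fun i =>
  noq (if i = 13 then 56 else 0) (A (i + 5) 4) && noq 0 (A (i + 5) 4 * 2)

def chk5 : Bool := (List.range 11).all fun j => (List.range 59).all fun i =>
  noq 0 (A (i + 5) (j + 5)) && noq 0 (A (i + 5) (j + 5) * 2)

theorem chk4_ok : chk4 = true := by decide +kernel
theorem chk5_ok : chk5 = true := by decide +kernel

/-- no value `(m+1)...(m+t)` or its double, in the finite region, is `q^3 - q`, except
`19 * 20 * 21 * 22 = 56 ^ 3 - 56` -/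
theorem finite_check {m t q d : ℕ} (hm : 5 ≤ m) (hd : d = 1 ∨ d = 2) (hq : 1 ≤ q)
    (h : (t = 4 ∧ m ≤ 513) ∨ (5 ≤ t ∧ t ≤ 15 ∧ m ≤ 63)) (he : A m t * d + q = q ^ 3) :
    q = 56 := by
  rcases h with ⟨rfl, h1⟩ | ⟨h1, h2, h3⟩
  · have h4 := chk4_ok
    unfold chk4 at h4
    rw [List.all_eq_true] at h4
    have h5 := h4 (m - 5) (List.mem_range.2 (by omega))
    rw [Nat.sub_add_cancel hm, Bool.and_eq_true] at h5
    rcases hd with rfl | rfl
    · rw [mul_one] at he
      have := noq_spec h5.1 hq he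
      split_ifs at this
      · exact this
      · omega
    · have := noq_spec h5.2 hq he
      omega
  · have h4 := chk5_ok
    unfold chk5 at h4
    rw [List.all_eq_true] at h4
    have h5 := h4 (t - 5) (List.mem_range.2 (by omega))
    rw [List.all_eq_true] at h5
    have h6 := h5 (m - 5) (List.mem_range.2 (by omega))
    rw [Nat.sub_add_cancel hm, Nat.sub_add_cancel h1, Bool.and_eq_true] at h6
    rcases hd with rfl | rfl
    · rw [mul_one] at he
      have := noq_spec h6.1 hq he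
      omega
    · have := noq_spec h6.2 hq he
      omega

end Pool.Agent.V8H48.OP
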