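import Mathlib
import Pool.Agent.V8H48.OP.Arith

set_option autoImplicit false

namespace Pool.Agent.V8H48.OP

open Nat

theorem two_fact_bound {n : ℕ} (h : 167 ≤ n) : 2 * 64 ^ (n - 1) ≤ n ! := by
  induction n, h using Nat.le_induction with
  | base => decide +kernel
  | succ k hk ih =>
    obtain ⟨j, rfl⟩ : ∃ j, k = j + 1 := ⟨k - 1, by omega⟩
    simp only [Nat.add_sub_cancel] at *
    rw [Nat.factorial_succ, pow_succ]
    nlinarith

theorem fact_bound1 {n : ℕ} (h : 1 ≤ n) : 8 ^ (n - 1) ≤ 53 * n ! := by
  induction n, h using Nat.le_induction with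
  | base => decide
  | succ k hk ih =>
    rcases Nat.lt_or_ge k 8 with h8 | h8
    · interval_cases k <;> decide
    · obtain ⟨j, rfl⟩ : ∃ j, k = j + 1 := ⟨k - 1, by omega⟩
      simp only [Nat.add_sub_cancel] at *
      rw [Nat.factorial_succ, pow_succ]
      nlinarith

theorem fact_bound2 {n : ℕ} (h : 23 ≤ n) : 212 * 8 ^ (n - 1) ≤ n ! := by
  induction n, h using Nat.le_induction with
  | base => decide +kernel
  | succ k hk ih =>
    obtain ⟨j, rfl⟩ : ∃ j, k = j + 1 := ⟨k - 1, by omega⟩
    simp only [Nat.add_sub_cancel] at *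
    rw [Nat.factorial_succ, pow_succ]
    nlinarith

/-- monotonicity of the `p`-part -/
theorem ppart_le_of_dvd {p a b : ℕ} (hp : p.Prime) (hb : b ≠ 0) (h : a ∣ b) :
    p ^ a.factorization p ≤ p ^ b.factorization p :=
  Nat.pow_le_pow_right hp.pos (((Nat.factorization_le_iff_dvd
    (ne_zero_of_dvd_ne_zero hb h) hb).2 h) p)

/-- two orders with large `p`-parts whose product is `n! / 2` -/
theorem both_large {a b n p r : ℕ} (hp : p.Prime) (hr : r.Prime) (hn : 1 ≤ n)
    (ha : a < (p ^ a.factorization p) ^ 3) (hb : b < (r ^ b.factorization r) ^ 3)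
    (h : 2 * (a * b) = n !) : n ≤ 166 := by
  by_contra hc
  push Not at hc
  have h0 := two_fact_bound (n := n) (by omega)
  have hnf : n ! ≠ 0 := Nat.factorial_ne_zero n
  have h1 : a ∣ n ! := ⟨2 * b, by rw [← h]; ring⟩
  have h2 : b ∣ n ! := ⟨2 * a, by rw [← h]; ring⟩
  have h8 : ∀ (x s : ℕ), s.Prime → x ∣ n ! → x < (s ^ x.factorization s) ^ 3 → x < 8 ^ (n - 1) := by
    intro x s hs hx hlt
    have h3 := (ppart_le_of_dvd hs hnf hx).trans (ppart_factorial hs (t := n) (by omega))
    have h4 : (s ^ x.factorization s) ^ 3 ≤ (2 ^ (n - 1)) ^ 3 := Nat.pow_le_pow_left h3 3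
    have h5 : (2 ^ (n - 1)) ^ 3 = 8 ^ (n - 1) := by
      rw [← pow_mul, mul_comm, pow_mul]; norm_num
    omega
  have ha8 := h8 a p hp h1 ha
  have hb8 := h8 b r hr h2 hb
  have h64 : (64 : ℕ) ^ (n - 1) = 8 ^ (n - 1) * 8 ^ (n - 1) := by
    rw [← mul_pow]; norm_num
  have : a * b < 64 ^ (n - 1) := by
    rw [h64]
    exact Nat.mul_lt_mul'' ha8 hb8
  omega

/-- two factorials and an order with a large `p`-part -/
theorem two_alt {a m n p : ℕ} (hp : p.Prime) (hm : 1 ≤ m) (hn : 1 ≤ n)
    (ha : a < (p ^ a.factorization p) ^ 3) (h : 4 * a = m ! * n !) : m ≤ 22 := by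
  by_contra hc
  push Not at hc
  have h0 := fact_bound2 (n := m) (by omega)
  have h1 := fact_bound1 (n := n) hn
  have hmf : m ! ≠ 0 := Nat.factorial_ne_zero m
  have hnf : n ! ≠ 0 := Nat.factorial_ne_zero n
  have hmn : m ! * n ! ≠ 0 := Nat.mul_ne_zero hmf hnf
  have h2 : a ∣ m ! * n ! := ⟨4, by rw [← h]; ring⟩
  have h3 := ppart_le_of_dvd hp hmn h2
  rw [Nat.factorization_mul hmf hnf, Finsupp.add_apply, pow_add] at h3
  have h4 := h3.trans (Nat.mul_le_mul (ppart_factorial hp (t := m) (by omega))
    (ppart_factorial hp (t := n) (by omega)))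
  have h5 : (p ^ a.factorization p) ^ 3 ≤ (2 ^ (m - 1) * 2 ^ (n - 1)) ^ 3 :=
    Nat.pow_le_pow_left h4 3
  have h6 : (2 ^ (m - 1) * 2 ^ (n - 1)) ^ 3 = 8 ^ (m - 1) * 8 ^ (n - 1) := by
    rw [mul_pow, ← pow_mul, ← pow_mul, mul_comm (m - 1) 3, mul_comm (n - 1) 3, pow_mul, pow_mul]
    norm_num
  have h7 : 4 * (8 ^ (m - 1) * 8 ^ (n - 1)) ≤ m ! * n ! := by
    have h8 : 212 * 8 ^ (m - 1) * 8 ^ (n - 1) ≤ m ! * (53 * n !) := Nat.mul_le_mul h0 h1
    nlinarith
  omega

theorem cop (n : ℕ) : Nat.Coprime n (n + 1) :=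
  (Nat.coprime_self_add_right (m := n) (n := 1)).2 (Nat.coprime_one_right n)

/-- `t = 1, 2, 3` for `PSL(2, q)` -/
theorem small_t {m t q d : ℕ} (hm : 5 ≤ m) (ht : 1 ≤ t) (ht3 : t ≤ 3) (hq : IsPrimePow q)
    (hq4 : 4 ≤ q) (hd : d = Nat.gcd 2 (q - 1)) (h : A m t * d = q * (q - 1) * (q + 1)) :
    t = 1 ∨ (t = 3 ∧ 2 ∣ q ∧ m + 2 = q) := by
  have hd12 : d = 1 ∨ d = 2 := by
    have : d ∣ 2 := hd ▸ Nat.gcd_dvd_left _ _
    exact (Nat.dvd_prime Nat.prime_two).1 this
  have hdq : Nat.Coprime q d := by
    have h1 : d ∣ q - 1 := hd ▸ Nat.gcd_dvd_right _ _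
    have h2 : Nat.Coprime q (q - 1) := by
      have := (cop (q - 1)).symm
      have e : q - 1 + 1 = q := Nat.sub_add_cancel (Nat.le_trans (by norm_num) hq4)
      rwa [e] at this
    exact h2.coprime_dvd_right h1
  have hdvd : q ∣ A m t := by
    apply hdq.dvd_of_dvd_mul_right
    rw [h]
    exact ⟨(q - 1) * (q + 1), by ring⟩
  obtain ⟨r, hr⟩ : ∃ r, q = r + 1 := ⟨q - 1, by omega⟩
  have hr1 : q - 1 = r := by omega
  interval_cases t
  · left; rfl
  · exfalso
    have e2 : A m 2 = (m + 1) * (m + 2) := by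
      simp [A, Nat.ascFactorial]
      ring
    rw [e2] at h hdvd
    have hc : Nat.Coprime (m + 1) (m + 2) := cop (m + 1)
    rcases (hc.isPrimePow_dvd_mul hq).1 hdvd with ⟨a, ha⟩ | ⟨a, ha⟩
    · -- m + 1 = q a
      have h1 : d * a * (q * a + 1) = r * (q + 1) := by
        have : q * (d * a * (q * a + 1)) = q * (r * (q + 1)) := by
          rw [← hr1]
          calc q * (d * a * (q * a + 1)) = (q * a) * (q * a + 1) * d := by ring
            _ = (m + 1) * (m + 2) * d := by rw [← ha]
            _ = q * (q - 1) * (q + 1) := h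
            _ = q * ((q - 1) * (q + 1)) := by ring
        exact Nat.eq_of_mul_eq_mul_left (by omega) this
      have ha1 : 1 ≤ a := by
        rcases Nat.eq_zero_or_pos a with h0 | h0
        · rw [h0] at ha; omega
        · exact h0
      have hdv : q ∣ d * a + 1 := by
        have h2 : r * (q + 1) + 1 = q * q := by rw [hr]; ring
        have h3 : q ∣ d * a * (q * a + 1) + 1 := by rw [h1, h2]; exact ⟨q, rfl⟩
        have h4 : d * a * (q * a + 1) + 1 = q * (d * a * a) + (d * a + 1) := by ring
        rw [h4] at h3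
        exact (Nat.dvd_add_right ⟨_, rfl⟩).1 h3
      have h5 : q ≤ d * a + 1 := Nat.le_of_dvd (by omega) hdv
      have h6 : r ≤ d * a := by omega
      have h7 : r * (q * a + 1) ≤ r * (q + 1) := by
        rw [← h1]; exact Nat.mul_le_mul_right _ h6
      have h8 : q * a + 1 ≤ q + 1 := Nat.le_of_mul_le_mul_left h7 (by omega)
      have h9 : a ≤ 1 := by
        by_contra hcon
        have : q * 2 ≤ q * a := Nat.mul_le_mul_left q (by omega)
        omega
      have h10 : a = 1 := by omega
      rw [h10] at h5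
      omega
    · -- m + 2 = q a
      have ha1 : 1 ≤ a := by
        rcases Nat.eq_zero_or_pos a with h0 | h0
        · rw [h0] at ha; omega
        · exact h0
      obtain ⟨b, hb⟩ : ∃ b, q * a = b + 1 := ⟨q * a - 1, by
        have : 1 ≤ q * a := Nat.mul_pos (by omega) ha1
        omega⟩
      have hm1 : m + 1 = b := by omega
      have h1 : d * a * b = r * (q + 1) := by
        have : q * (d * a * b) = q * (r * (q + 1)) := by
          rw [← hr1]
          calc q * (d * a * b) = b * (q * a) * d := by ring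
            _ = (m + 1) * (m + 2) * d := by rw [← ha, hm1]
            _ = q * (q - 1) * (q + 1) := h
            _ = q * ((q - 1) * (q + 1)) := by ring
        exact Nat.eq_of_mul_eq_mul_left (by omega) this
      have hda : 1 ≤ d * a := by
        rcases hd12 with h | h <;> rw [h] <;> omega
      obtain ⟨c, hc'⟩ : ∃ c, d * a = c + 1 := ⟨d * a - 1, by omega⟩
      have hdv : q ∣ c := by
        -- d a (q a - 1) = q^2 - 1, so d a - 1 = d a * q a - (q^2 - 1) - 1 ...
        have h2 : r * (q + 1) + 1 = q * q := by rw [hr]; ring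
        have h3 : d * a * (q * a) = q * q + c := by
          calc d * a * (q * a) = d * a * (b + 1) := by rw [hb]
            _ = d * a * b + d * a := by ring
            _ = r * (q + 1) + (c + 1) := by rw [h1, hc']
            _ = q * q + c := by omega
        have h4 : q ∣ q * q + c := by rw [← h3]; exact ⟨d * a * a, by ring⟩
        exact (Nat.dvd_add_right ⟨_, rfl⟩).1 h4
      rcases Nat.eq_zero_or_pos c with h0 | h0
      · rw [h0] at hc'
        have hd1 : d = 1 := by
          rcases hd12 with h | h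
          · exact h
          · rw [h] at hc'; omega
        have ha' : a = 1 := by rw [hd1] at hc'; omega
        rw [ha', mul_one] at hb
        rw [hd1, ha'] at h1
        have : b = r := by omega
        rw [this] at h1
        nlinarith
      · have h5 : q ≤ c := Nat.le_of_dvd h0 hdv
        have h6 : (q + 1) * b ≤ (q + 1) * r := by
          calc (q + 1) * b ≤ d * a * b := by rw [hc']; exact Nat.mul_le_mul_right _ (by omega)
            _ = (q + 1) * r := by rw [h1]; ring
        have h7 : b ≤ r := Nat.le_of_mul_le_mul_left h6 (by omega)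
        have h9 : a ≤ 1 := by
          by_contra hcon
          have : q * 2 ≤ q * a := Nat.mul_le_mul_left q (by omega)
          omega
        have h10 : a = 1 := by omega
        rw [h10] at hc'
        omega
  · have e3 : A m 3 = (m + 1) * (m + 2) * (m + 3) := by
      simp [A, Nat.ascFactorial]
      ring
    rw [e3] at h hdvd
    rcases hd12 with h1 | h2
    · right
      refine ⟨rfl, ?_, ?_⟩
      · by_contra hodd
        have h3 : 2 ∣ q - 1 := by omega
        have h4 : 2 ∣ Nat.gcd 2 (q - 1) := Nat.dvd_gcd (dvd_refl 2) h3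
        rw [← hd, h1] at h4
        omega
      · rw [h1, mul_one, hr1] at h
        by_contra hne
        rcases Nat.lt_or_ge (m + 2) q with hlt | hge
        · have h5 : (m + 1) * (m + 2) * (m + 3) < r * q * (q + 1) := by
            have a1 : m + 1 < r := by omega
            have a3 : m + 3 < q + 1 := by omega
            exact Nat.mul_lt_mul'' (Nat.mul_lt_mul'' a1 hlt) a3
          nlinarith
        · have h5 : r * q * (q + 1) < (m + 1) * (m + 2) * (m + 3) := by
            have a1 : r < m + 1 := by omega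
            have a2 : q < m + 2 := by omega
            have a3 : q + 1 < m + 3 := by omega
            exact Nat.mul_lt_mul'' (Nat.mul_lt_mul'' a1 a2) a3
          nlinarith
    · exfalso
      -- q odd
      have hqodd : ¬ 2 ∣ q := by
        intro h2q
        have h4 : 2 ∣ q - 1 := by
          have : Nat.gcd 2 (q - 1) ∣ q - 1 := Nat.gcd_dvd_right _ _
          rw [← hd, h2] at this
          exact this
        omega
      have hle : q ≤ m + 3 := by
        have hc1 : Nat.Coprime (m + 2) (m + 3) := cop (m + 2)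
        have hc2 : Nat.Coprime (m + 2) (m + 1) := (cop (m + 1)).symm
        have h5 : q ∣ (m + 2) * ((m + 1) * (m + 3)) := by
          obtain ⟨z, hz⟩ := hdvd
          exact ⟨z, by rw [← hz]; ring⟩
        rcases ((Nat.Coprime.mul_right hc2 hc1).isPrimePow_dvd_mul hq).1 h5 with h6 | h6
        · exact (Nat.le_of_dvd (by omega) h6).trans (by omega)
        · obtain ⟨p, k, hp, hk, hpk⟩ := (isPrimePow_nat_iff q).1 hq
          have hp2 : ¬ p ∣ 2 := by
            intro h7
            have h8 : p = 2 := (Nat.prime_dvd_prime_iff_eq hp Nat.prime_two).1 h7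
            apply hqodd
            rw [← hpk, h8]
            exact dvd_pow_self 2 (by omega)
          rw [← hpk] at h6 ⊢
          by_cases h9 : p ∣ m + 1
          · have h10 : ¬ p ∣ m + 3 := by
              intro h11
              apply hp2
              have := (Nat.dvd_sub h11 h9)
              have h12 : m + 3 - (m + 1) = 2 := by omega
              rwa [h12] at this
            have h13 : Nat.Coprime (p ^ k) (m + 3) :=
              Nat.Coprime.pow_left k ((Nat.Prime.coprime_iff_not_dvd hp).2 h10)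
            exact (Nat.le_of_dvd (by omega) (h13.dvd_of_dvd_mul_right h6)).trans (by omega)
          · have h13 : Nat.Coprime (p ^ k) (m + 1) :=
              Nat.Coprime.pow_left k ((Nat.Prime.coprime_iff_not_dvd hp).2 h9)
            exact Nat.le_of_dvd (by omega) (h13.dvd_of_dvd_mul_left h6)
      rw [h2, hr1] at h
      have h14 : q * r * (q + 1) ≤ (m + 3) * (m + 2) * (m + 4) := by
        have h20 : r ≤ m + 2 := by omega
        have h21 : q + 1 ≤ m + 4 := by omega
        exact Nat.mul_le_mul (Nat.mul_le_mul hle h20) h21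
      have h15 : (m + 2) * (m + 3) * (2 * (m + 1)) ≤ (m + 2) * (m + 3) * (m + 4) := by
        calc (m + 2) * (m + 3) * (2 * (m + 1)) = (m + 1) * (m + 2) * (m + 3) * 2 := by ring
          _ = q * r * (q + 1) := h
          _ ≤ (m + 3) * (m + 2) * (m + 4) := h14
          _ = (m + 2) * (m + 3) * (m + 4) := by ring
      have h16 := Nat.le_of_mul_le_mul_left h15 (by positivity)
      omega

end Pool.Agent.V8H48.OP
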