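import Mathlib
import Pool.Agent.V8H48.OP.Defs
import Pool.Agent.V8H48.OP.Two
import Pool.Agent.H373SQ.CardPSL

set_option autoImplicit false

namespace Pool.Agent.V8H48.OP

open Nat

theorem two_card_alt {n : ℕ} (hn : 2 ≤ n) :
    2 * Nat.card (alternatingGroup (Fin n)) = n ! := by
  have : Nontrivial (Fin n) := Fin.nontrivial_iff_two_le.2 hn
  rw [two_mul_nat_card_alternatingGroup, Nat.card_perm, Nat.card_fin]

theorem card_alt_small {n : ℕ} (hn : n < 2) : Nat.card (alternatingGroup (Fin n)) = 1 := by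
  have : Subsingleton (Fin n) := Fin.subsingleton_iff_le_one.2 (by omega)
  have : Subsingleton (alternatingGroup (Fin n)) := inferInstance
  exact Nat.card_unique

theorem cubeSylow_iff {N : Type} [Group N] [Finite N] :
    CubeSylow N ↔ ∃ p : ℕ, p.Prime ∧
      Nat.card N < (p ^ (Nat.card N).factorization p) ^ 3 := by
  constructor
  · rintro ⟨p, hp, P, h⟩
    have : Fact p.Prime := ⟨hp⟩
    refine ⟨p, hp, ?_⟩
    rwa [Sylow.card_eq_multiplicity] at h
  · rintro ⟨p, hp, h⟩
    have : Fact p.Prime := ⟨hp⟩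
    refine ⟨p, hp, default, ?_⟩
    rwa [Sylow.card_eq_multiplicity]

/-- the equation `|A_m| |N| = |A_n|` in terms of consecutive integers -/
theorem alt_eq {m n a : ℕ} (hm : 5 ≤ m) (ha : 1 ≤ a)
    (h : Nat.card (alternatingGroup (Fin m)) * a = Nat.card (alternatingGroup (Fin n))) :
    ∃ t, n = m + t ∧ A m t = a := by
  have h2 := two_card_alt (n := m) (by omega)
  have hn : 2 ≤ n := by
    by_contra hc
    rw [card_alt_small (n := n) (by omega)] at h
    have h3 : Nat.card (alternatingGroup (Fin m)) = 1 := Nat.eq_one_of_mul_eq_one_right h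
    rw [h3] at h2
    have : 5 ! ≤ m ! := Nat.factorial_le hm
    have h5 : 5 ! = 120 := rfl
    omega
  have h3 := two_card_alt hn
  have h4 : m ! * a = n ! := by
    rw [← h2, ← h3, ← h]; ring
  have hmn : m ≤ n := by
    by_contra hc
    push Not at hc
    have h5 : n ! < m ! := (Nat.factorial_lt (by omega)).2 hc
    have h6 : m ! * 1 ≤ m ! * a := Nat.mul_le_mul_left _ ha
    omega
  obtain ⟨t, rfl⟩ := Nat.exists_eq_add_of_le hmn
  refine ⟨t, rfl, ?_⟩
  rw [← fact_mul_A] at h4
  exact (Nat.eq_of_mul_eq_mul_left (Nat.factorial_pos m) h4).symm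

theorem alt_eq' {m t a : ℕ} (hm : 5 ≤ m) (h : A m t = a) :
    Nat.card (alternatingGroup (Fin m)) * a = Nat.card (alternatingGroup (Fin (m + t))) := by
  have h2 := two_card_alt (n := m) (by omega)
  have h3 := two_card_alt (n := m + t) (by omega)
  have h4 := fact_mul_A m t
  rw [h] at h4
  have : 2 * (Nat.card (alternatingGroup (Fin m)) * a) =
      2 * Nat.card (alternatingGroup (Fin (m + t))) := by
    rw [h3, ← h4, ← h2]; ring
  omega

theorem part1 (m n : ℕ) (N : Type) [Group N] [Finite N] (hm : 5 ≤ m) (hN : CubeSylow N)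
    (h : Nat.card (alternatingGroup (Fin m)) * Nat.card N =
      Nat.card (alternatingGroup (Fin n))) :
    n ≤ m + 3 ∨ (n = m + 4 ∧ m ≤ 513) ∨ (n ≤ m + 15 ∧ m ≤ 63) := by
  obtain ⟨t, rfl, ht⟩ := alt_eq hm Nat.card_pos h
  obtain ⟨p, hp, hc⟩ := cubeSylow_iff.1 hN
  rw [← ht] at hc
  rcases Nat.lt_or_ge t 4 with h4 | h4
  · left; omega
  · right
    rcases main_ineq hp hm h4 hc with h5 | h5
    · left; omega
    · right; omega

theorem part2 (n : ℕ) (M N : Type) [Group M] [Finite M] [Group N] [Finite N]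
    (hM : CubeSylow M) (hN : CubeSylow N)
    (h : Nat.card M * Nat.card N = Nat.card (alternatingGroup (Fin n))) : n ≤ 166 := by
  rcases Nat.lt_or_ge n 2 with hn | hn
  · omega
  · obtain ⟨p, hp, hc⟩ := cubeSylow_iff.1 hM
    obtain ⟨r, hr, hd⟩ := cubeSylow_iff.1 hN
    exact both_large hp hr (by omega) hc hd (by rw [h]; exact two_card_alt hn)

theorem part3 (m n : ℕ) (G : Type) [Group G] [Finite G] (hm : 5 ≤ m) (hn : 5 ≤ n)
    (hG : CubeSylow G)
    (h : Nat.card (alternatingGroup (Fin m)) * Nat.card (alternatingGroup (Fin n)) =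
      Nat.card G) : m ≤ 22 ∧ n ≤ 22 := by
  obtain ⟨p, hp, hc⟩ := cubeSylow_iff.1 hG
  have h2 := two_card_alt (n := m) (by omega)
  have h3 := two_card_alt (n := n) (by omega)
  constructor
  · refine two_alt hp (m := m) (n := n) (by omega) (by omega) hc ?_
    rw [← h, ← h2, ← h3]; ring
  · refine two_alt hp (m := n) (n := m) (by omega) (by omega) hc ?_
    rw [← h, ← h2, ← h3]; ring

theorem not_isPrimePow_56 : ¬ IsPrimePow 56 := by
  intro h
  have h1 : (56 : ℕ) ∣ 7 * 8 := by norm_num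
  rcases ((by norm_num : Nat.Coprime 7 8).isPrimePow_dvd_mul h).1 h1 with h2 | h2
  · exact absurd h2 (by norm_num)
  · exact absurd h2 (by norm_num)

theorem prod_lt {q : ℕ} (hq : 2 ≤ q) (k : ℕ) (hk : 2 ≤ k) :
    ∏ i ∈ Finset.Icc 2 k, (q ^ i - 1) < q ^ (k * (k + 1) / 2 - 1) := by
  induction k, hk using Nat.le_induction with
  | base =>
    simp
    positivity
  | succ k hk ih =>
    rw [Finset.prod_Icc_succ_top (by omega), mul_comm]
    have h1 : (k + 1) * (k + 1 + 1) / 2 - 1 = (k + 1) + (k * (k + 1) / 2 - 1) := by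
      have h2 : (k + 1) * (k + 1 + 1) = k * (k + 1) + 2 * (k + 1) := by ring
      have h3 : 2 * 3 ≤ k * (k + 1) := Nat.mul_le_mul hk (by omega)
      rw [h2]
      omega
    rw [h1, pow_add q (k + 1)]
    have h4 : q ^ (k + 1) - 1 < q ^ (k + 1) := Nat.sub_lt (by positivity) one_pos
    exact Nat.mul_lt_mul'' h4 ih

theorem part4 (k : ℕ) (F : Type) [Field F] [Finite F] (hk : 2 ≤ k) :
    CubeSylow (Matrix.ProjectiveSpecialLinearGroup (Fin k) F) := by
  classical
  have : Fintype F := Fintype.ofFinite F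
  obtain ⟨q, hqdef⟩ : ∃ q, q = Nat.card F := ⟨_, rfl⟩
  have hq : 2 ≤ q := by rw [hqdef]; exact Finite.one_lt_card
  have hpp : IsPrimePow q := by
    rw [hqdef, Nat.card_eq_fintype_card]; exact FiniteField.isPrimePow_card F
  obtain ⟨p, f, hp, hf, hpf⟩ := (isPrimePow_nat_iff q).1 hpp
  rw [cubeSylow_iff]
  refine ⟨p, hp, ?_⟩
  have hcard := Pool.Agent.H373SQ.card_PSL k (by omega) F
  rw [← hqdef] at hcard
  obtain ⟨N, hN⟩ : ∃ N, N = Nat.card (Matrix.ProjectiveSpecialLinearGroup (Fin k) F) := ⟨_, rfl⟩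
  rw [← hN] at hcard ⊢
  have hNpos : 0 < N := by rw [hN]; exact Nat.card_pos
  have h1 := Subgroup.card_eq_card_quotient_mul_card_subgroup
    (Subgroup.center (Matrix.SpecialLinearGroup (Fin k) F))
  rw [Pool.Agent.H373SQ.card_center k (by omega) F, Pool.Agent.H373SQ.card_SL k (by omega) F,
    ← hqdef] at h1
  have h2 : Pool.Agent.H373SQ.numPSL k q = N * Nat.gcd k (q - 1) := by
    rw [h1, hN]
  unfold Pool.Agent.H373SQ.numPSL at h2
  obtain ⟨e, he⟩ : ∃ e, e = k * (k - 1) / 2 := ⟨_, rfl⟩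
  rw [← he] at h2
  have hg : 0 < Nat.gcd k (q - 1) := Nat.gcd_pos_of_pos_left _ (by omega)
  have hcop : Nat.Coprime (q ^ e) (Nat.gcd k (q - 1)) := by
    apply Nat.Coprime.pow_left
    have h3 : Nat.Coprime q (q - 1) := by
      have := (cop (q - 1)).symm
      have e : q - 1 + 1 = q := Nat.sub_add_cancel (Nat.le_trans (by norm_num) hq)
      rwa [e] at this
    exact h3.coprime_dvd_right (Nat.gcd_dvd_right _ _)
  have hdvd : q ^ e ∣ N := by
    apply hcop.dvd_of_dvd_mul_right
    rw [← h2]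
    exact ⟨_, rfl⟩
  have hle : q ^ e ≤ p ^ N.factorization p := by
    have h3 : p ^ (f * e) ∣ N := by rwa [pow_mul, hpf]
    have h4 := (hp.pow_dvd_iff_le_factorization hNpos.ne').1 h3
    calc q ^ e = p ^ (f * e) := by rw [pow_mul, hpf]
      _ ≤ p ^ N.factorization p := Nat.pow_le_pow_right hp.pos h4
  have hlt : N < (q ^ e) ^ 3 := by
    have h3 := prod_lt hq k hk
    have h4 : N ≤ q ^ e * ∏ i ∈ Finset.Icc 2 k, (q ^ i - 1) := by
      rw [h2]; exact Nat.le_mul_of_pos_right _ hg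
    have h5 : k * (k + 1) / 2 - 1 ≤ e + e := by
      rw [he]
      obtain ⟨j, rfl⟩ : ∃ j, k = j + 2 := ⟨k - 2, by omega⟩
      have e1 : (j + 2) * (j + 2 - 1) = (j + 1) * (j + 2) := by
        have : j + 2 - 1 = j + 1 := by omega
        rw [this]; ring
      have e2 : (j + 2) * (j + 2 + 1) = (j + 1) * (j + 2) + 2 * (j + 2) := by ring
      rw [e1, e2]
      have e3 : 2 ∣ (j + 1) * (j + 2) := by
        have := Nat.even_mul_succ_self (j + 1)
        exact this.two_dvd
      have e4 : 2 * (j + 1) ≤ (j + 1) * (j + 2) := by nlinarith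
      omega
    calc N ≤ q ^ e * ∏ i ∈ Finset.Icc 2 k, (q ^ i - 1) := h4
      _ < q ^ e * q ^ (k * (k + 1) / 2 - 1) := by
          exact Nat.mul_lt_mul_of_pos_left h3 (by positivity)
      _ ≤ q ^ e * q ^ (e + e) := by
          exact Nat.mul_le_mul_left _ (Nat.pow_le_pow_right (by omega) h5)
      _ = (q ^ e) ^ 3 := by rw [pow_add]; ring
  calc N < (q ^ e) ^ 3 := hlt
    _ ≤ _ := Nat.pow_le_pow_left hle 3

theorem card_PSL2 (F : Type) [Field F] [Finite F] :
    Nat.card (Matrix.ProjectiveSpecialLinearGroup (Fin 2) F) * Nat.gcd 2 (Nat.card F - 1) =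
      Nat.card F * (Nat.card F - 1) * (Nat.card F + 1) := by
  classical
  have : Fintype F := Fintype.ofFinite F
  have h1 := Subgroup.card_eq_card_quotient_mul_card_subgroup
    (Subgroup.center (Matrix.SpecialLinearGroup (Fin 2) F))
  rw [Pool.Agent.H373SQ.card_center 2 (by omega) F,
    Pool.Agent.H373SQ.card_SL 2 (by omega) F] at h1
  have h2 : Pool.Agent.H373SQ.numPSL 2 (Nat.card F) =
      Nat.card F * (Nat.card F - 1) * (Nat.card F + 1) := by
    obtain ⟨r, hr⟩ : ∃ r, Nat.card F = r + 1 := ⟨Nat.card F - 1, by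
      have : 1 < Nat.card F := Finite.one_lt_card
      omega⟩
    rw [hr]
    simp [Pool.Agent.H373SQ.numPSL]
    have : (r + 1) ^ 2 - 1 = r * (r + 2) := by
      have : (r + 1) ^ 2 = r * (r + 2) + 1 := by ring
      omega
    rw [this]; ring
  rw [← h2, h1]

theorem part5 (m n : ℕ) (F : Type) [Field F] [Finite F] (hm : 5 ≤ m) (hF : 4 ≤ Nat.card F) :
    Nat.card (alternatingGroup (Fin m)) *
      Nat.card (Matrix.ProjectiveSpecialLinearGroup (Fin 2) F) =
        Nat.card (alternatingGroup (Fin n)) ↔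
    (n = m + 1 ∧ n = Nat.card (Matrix.ProjectiveSpecialLinearGroup (Fin 2) F)) ∨
    (2 ∣ Nat.card F ∧ m + 2 = Nat.card F ∧ n = Nat.card F + 1) := by
  classical
  have : Fintype F := Fintype.ofFinite F
  have hcard := card_PSL2 F
  have hcube := part4 2 F (le_refl 2)
  obtain ⟨q, hq⟩ : ∃ q, q = Nat.card F := ⟨_, rfl⟩
  obtain ⟨N, hN⟩ : ∃ N, N = Nat.card (Matrix.ProjectiveSpecialLinearGroup (Fin 2) F) := ⟨_, rfl⟩
  have hNpos : 0 < N := by rw [hN]; exact Nat.card_pos
  have hpp : IsPrimePow q := by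
    rw [hq, Nat.card_eq_fintype_card]; exact FiniteField.isPrimePow_card F
  rw [cubeSylow_iff, ← hN] at hcube
  rw [← hN, ← hq] at hcard
  rw [← hq] at hF
  rw [← hN, ← hq]
  obtain ⟨d, hd⟩ : ∃ d, d = Nat.gcd 2 (q - 1) := ⟨_, rfl⟩
  rw [← hd] at hcard
  have hd12 : d = 1 ∨ d = 2 := by
    have : d ∣ 2 := hd ▸ Nat.gcd_dvd_left _ _
    exact (Nat.dvd_prime Nat.prime_two).1 this
  constructor
  · intro h
    obtain ⟨t, rfl, ht⟩ := alt_eq hm hNpos h
    have ht1 : 1 ≤ t := by
      by_contra hc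
      have : t = 0 := by omega
      subst this
      have h1 : N = 1 := by rw [← ht]; rfl
      rw [h1, one_mul] at hcard
      have : 4 * 3 * 5 ≤ q * (q - 1) * (q + 1) :=
        Nat.mul_le_mul (Nat.mul_le_mul hF (by omega)) (by omega)
      omega
    rcases Nat.lt_or_ge 3 t with h4 | h4
    · exfalso
      obtain ⟨p, hp, hc⟩ := hcube
      rw [← ht] at hc
      have h5 := main_ineq hp hm (by omega) hc
      have h6 : A m t * d + q = q ^ 3 := by
        rw [ht, hcard]
        obtain ⟨r, rfl⟩ : ∃ r, q = r + 1 := ⟨q - 1, by omega⟩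
        simp only [Nat.add_sub_cancel]
        ring
      have h7 := finite_check hm hd12 (by omega) h5 h6
      rw [h7] at hpp
      exact not_isPrimePow_56 hpp
    · rcases small_t hm ht1 h4 hpp hF hd (by rw [ht]; exact hcard) with h5 | ⟨h5, h6, h7⟩
      · left
        subst h5
        refine ⟨rfl, ?_⟩
        rw [← ht]
        simp [A, Nat.ascFactorial]
      · right
        subst h5
        exact ⟨h6, h7, by omega⟩
  · rintro (⟨h1, h2⟩ | ⟨h1, h2, h3⟩)
    · subst h1
      apply alt_eq' hm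
      rw [← h2]
      simp [A, Nat.ascFactorial]
    · have h4 : n = m + 3 := by omega
      subst h4
      apply alt_eq' hm
      have hd1 : d = 1 := by
        rcases hd12 with h | h
        · exact h
        · exfalso
          have : Nat.gcd 2 (q - 1) ∣ q - 1 := Nat.gcd_dvd_right _ _
          rw [← hd, h] at this
          omega
      rw [hd1, mul_one] at hcard
      rw [hcard, ← h2]
      have : m + 2 - 1 = m + 1 := by omega
      rw [this]
      simp [A, Nat.ascFactorial]
      ring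

end Pool.Agent.V8H48.OP
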