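import Mathlib
import Pool.Agent.V8H48.OP.Two

set_option autoImplicit false

namespace Pool.Agent.V8H48.OP

open Nat

/-- numerical data of `PSL(2, q)` -/
structure PData (q d Q : ℕ) : Prop where
  pp : IsPrimePow q
  q4 : 4 ≤ q
  hd : d = Nat.gcd 2 (q - 1)
  hQ : Q * d = q * (q - 1) * (q + 1)

theorem PData.d12 {q d Q : ℕ} (h : PData q d Q) : d = 1 ∨ d = 2 := by
  have : d ∣ 2 := h.hd ▸ Nat.gcd_dvd_left _ _
  exact (Nat.dvd_prime Nat.prime_two).1 this

theorem PData.d_dvd {q d Q : ℕ} (h : PData q d Q) : d ∣ q - 1 := h.hd ▸ Nat.gcd_dvd_right _ _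

theorem PData.even {q d Q : ℕ} (h : PData q d Q) : 2 ∣ q ↔ d = 1 := by
  constructor
  · intro h2
    rcases h.d12 with h1 | h1
    · exact h1
    · have := h.d_dvd
      have := h.q4
      rw [h1] at *
      omega
  · intro h1
    by_contra hodd
    have h3 : 2 ∣ q - 1 := by omega
    have h4 : 2 ∣ Nat.gcd 2 (q - 1) := Nat.dvd_gcd (dvd_refl 2) h3
    rw [← h.hd, h1] at h4
    omega

theorem PData.Qpos {q d Q : ℕ} (h : PData q d Q) : Q ≠ 0 := by
  rintro rfl
  have h1 := h.hQ
  have h4 := h.q4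
  rw [zero_mul] at h1
  have : 0 < q * (q - 1) * (q + 1) := by
    apply Nat.mul_pos (Nat.mul_pos (by omega) (by omega)) (by omega)
  omega

/-- a power of a prime dividing `2 u (u+1)` -/
theorem pow2_dvd {x u : ℕ} (h : 2 ^ x ∣ 2 * u * (u + 1)) : 2 ^ x ∣ 2 * u ∨ 2 ^ x ∣ 2 * (u + 1) := by
  rcases Nat.even_or_odd u with h1 | h1
  · left
    have h2 : Nat.Coprime (2 ^ x) (u + 1) := by
      apply Nat.Coprime.pow_left
      rw [Nat.coprime_two_left]
      exact h1.add_one
    exact h2.dvd_of_dvd_mul_right h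
  · right
    have h2 : Nat.Coprime (2 ^ x) u := by
      apply Nat.Coprime.pow_left
      rw [Nat.coprime_two_left]
      exact h1
    have h3 : 2 ^ x ∣ 2 * (u + 1) * u := by
      have : 2 * u * (u + 1) = 2 * (u + 1) * u := by ring
      rwa [this] at h
    exact h2.dvd_of_dvd_mul_right h3

theorem PData.ppart {q d Q p : ℕ} (h : PData q d Q) (hp : p.Prime) :
    (p ∣ q ∧ p ^ Q.factorization p = q) ∨
    (¬ p ∣ q ∧ (p ^ Q.factorization p ∣ q - 1 ∨ p ^ Q.factorization p ∣ q + 1)) := by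
  have h4 := h.q4
  have hQ0 := h.Qpos
  by_cases hpq : p ∣ q
  · left
    refine ⟨hpq, ?_⟩
    have h1 : ¬ p ∣ q - 1 := by
      intro h2
      have h3 := Nat.dvd_sub hpq h2
      have h5 : q - (q - 1) = 1 := by omega
      rw [h5] at h3
      exact hp.one_lt.ne' (Nat.dvd_one.1 h3)
    have h2 : ¬ p ∣ q + 1 := by
      intro h2
      have h3 := Nat.dvd_sub h2 hpq
      have h5 : q + 1 - q = 1 := by omega
      rw [h5] at h3
      exact hp.one_lt.ne' (Nat.dvd_one.1 h3)
    have h3 : ¬ p ∣ d := fun h5 => h1 (h5.trans h.d_dvd)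
    have hd0 : d ≠ 0 := by rcases h.d12 with h | h <;> omega
    have h5 : (Q * d).factorization p = (q * (q - 1) * (q + 1)).factorization p := by rw [h.hQ]
    rw [Nat.factorization_mul hQ0 hd0, Nat.factorization_mul (by
      exact Nat.mul_ne_zero (by omega) (by omega)) (by omega),
      Nat.factorization_mul (by omega) (by omega)] at h5
    simp only [Finsupp.add_apply] at h5
    rw [Nat.factorization_eq_zero_of_not_dvd h3, Nat.factorization_eq_zero_of_not_dvd h1,
      Nat.factorization_eq_zero_of_not_dvd h2] at h5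
    simp only [add_zero] at h5
    rw [h5]
    obtain ⟨ℓ, k, hℓ, hk, hℓk⟩ := (isPrimePow_nat_iff q).1 h.pp
    have : p = ℓ := by
      rw [← hℓk] at hpq
      exact (Nat.prime_dvd_prime_iff_eq hp hℓ).1 (hp.dvd_of_dvd_pow hpq)
    subst this
    rw [← hℓk, Nat.Prime.factorization_pow hp]
    simp
  · right
    refine ⟨hpq, ?_⟩
    have h1 : p ^ Q.factorization p ∣ Q := Nat.ordProj_dvd Q p
    have hcq : Nat.Coprime p q := (Nat.Prime.coprime_iff_not_dvd hp).2 hpq
    by_cases hp2 : p = 2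
    · subst hp2
      have hd2 : d = 2 := by
        rcases h.d12 with h5 | h5
        · exact absurd (h.even.2 h5) hpq
        · exact h5
      obtain ⟨u, hu⟩ : ∃ u, q = 2 * u + 1 := ⟨q / 2, by omega⟩
      have h6 : 2 ^ Q.factorization 2 * 2 ∣ q * (q - 1) * (q + 1) := by
        rw [← h.hQ, hd2]
        exact Nat.mul_dvd_mul_right h1 2
      have h7 : 2 ^ Q.factorization 2 * 2 ∣ (4 * u * (u + 1)) := by
        have h8 : Nat.Coprime (2 ^ Q.factorization 2 * 2) q :=
          Nat.Coprime.mul_left (Nat.Coprime.pow_left _ hcq) hcq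
        have h9 : q * (q - 1) * (q + 1) = q * (4 * u * (u + 1)) := by
          rw [hu]
          have : 2 * u + 1 - 1 = 2 * u := by omega
          rw [this]; ring
        rw [h9] at h6
        exact h8.dvd_of_dvd_mul_left h6
      have h8 : 2 ^ Q.factorization 2 ∣ 2 * u * (u + 1) := by
        have : 4 * u * (u + 1) = (2 * u * (u + 1)) * 2 := by ring
        rw [this] at h7
        exact Nat.dvd_of_mul_dvd_mul_right (by norm_num) h7
      rcases pow2_dvd h8 with h9 | h9
      · left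
        have : q - 1 = 2 * u := by omega
        rwa [this]
      · right
        have : q + 1 = 2 * (u + 1) := by omega
        rwa [this]
    · have h6 : p ^ Q.factorization p ∣ (q - 1) * (q + 1) := by
        have h8 : Nat.Coprime (p ^ Q.factorization p) q := Nat.Coprime.pow_left _ hcq
        have h9 : p ^ Q.factorization p ∣ q * ((q - 1) * (q + 1)) := by
          have : Q ∣ q * ((q - 1) * (q + 1)) := ⟨d, by rw [h.hQ]; ring⟩
          exact h1.trans this
        exact h8.dvd_of_dvd_mul_left h9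
      by_cases h10 : p ∣ q - 1
      · left
        have h11 : ¬ p ∣ q + 1 := by
          intro h12
          have h3 := Nat.dvd_sub h12 h10
          have h5 : q + 1 - (q - 1) = 2 := by omega
          rw [h5] at h3
          exact hp2 ((Nat.prime_dvd_prime_iff_eq hp Nat.prime_two).1 h3)
        exact (Nat.Coprime.pow_left _ ((Nat.Prime.coprime_iff_not_dvd hp).2 h11)).dvd_of_dvd_mul_right h6
      · right
        exact (Nat.Coprime.pow_left _ ((Nat.Prime.coprime_iff_not_dvd hp).2 h10)).dvd_of_dvd_mul_left h6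

/-- shape of the `p`-part `α` of `|PSL(2,q)|` -/
theorem PData.shape {q d Q p : ℕ} (h : PData q d Q) (hp : p.Prime) :
    ∃ k, 1 ≤ k ∧ ((p ∣ q ∧ q = p ^ Q.factorization p ∧ k = 1) ∨
      (¬ p ∣ q ∧ q = k * p ^ Q.factorization p + 1) ∨
      (¬ p ∣ q ∧ q + 1 = k * p ^ Q.factorization p)) := by
  have h4 := h.q4
  rcases h.ppart hp with ⟨h1, h2⟩ | ⟨h1, ⟨k, hk⟩ | ⟨k, hk⟩⟩
  · exact ⟨1, le_refl 1, Or.inl ⟨h1, h2.symm, rfl⟩⟩
  · refine ⟨k, ?_, Or.inr (Or.inl ⟨h1, ?_⟩)⟩
    · rcases Nat.eq_zero_or_pos k with h0 | h0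
      · subst h0; omega
      · exact h0
    · rw [mul_comm] at hk; omega
  · refine ⟨k, ?_, Or.inr (Or.inr ⟨h1, ?_⟩)⟩
    · rcases Nat.eq_zero_or_pos k with h0 | h0
      · subst h0; omega
      · exact h0
    · rw [mul_comm] at hk; omega

end Pool.Agent.V8H48.OP
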