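import Mathlib
import Pool.Agent.V8H48.OP.PPP

set_option autoImplicit false

namespace Pool.Agent.V8H48.OP

open Nat

theorem contra {a b c s α β d e f u v w t : ℕ} (hs : s = α * β) (hc : c < s ^ 3)
    (hE : f * a * b = d * e * c) (h1 : u * α ^ 3 ≤ v * a) (h2 : w * β ^ 3 ≤ t * b)
    (h3 : d * e * v * t ≤ f * u * w) (hde : 0 < d * e) (huw : 0 < u * w) : False := by
  have h4 : u * w * (d * e * c) < u * w * (d * e * s ^ 3) :=
    Nat.mul_lt_mul_of_pos_left (Nat.mul_lt_mul_of_pos_left hc hde) huw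
  have h5 : u * w * (d * e * s ^ 3) ≤ u * w * (f * a * b) := by
    calc u * w * (d * e * s ^ 3) = d * e * ((u * α ^ 3) * (w * β ^ 3)) := by rw [hs]; ring
      _ ≤ d * e * ((v * a) * (t * b)) := Nat.mul_le_mul_left _ (Nat.mul_le_mul h1 h2)
      _ = (d * e * v * t) * (a * b) := by ring
      _ ≤ (f * u * w) * (a * b) := Nat.mul_le_mul_right _ h3
      _ = u * w * (f * a * b) := by ring
  rw [hE] at h5
  omega

/-- bounds `u α³ ≤ v a`, `a = (x+1) x (x+2)`, `q = x + 1` -/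
theorem bF {x α : ℕ} (hx : 3 ≤ x) (h : α ≤ x + 2) : 12 * α ^ 3 ≤ 25 * ((x + 1) * x * (x + 2)) := by
  have h1 : α ^ 3 ≤ (x + 2) ^ 3 := Nat.pow_le_pow_left h 3
  have h2 : 12 * (x + 2) ^ 2 ≤ 25 * ((x + 1) * x) := by nlinarith
  calc 12 * α ^ 3 ≤ 12 * (x + 2) ^ 3 := Nat.mul_le_mul_left _ h1
    _ = (12 * (x + 2) ^ 2) * (x + 2) := by ring
    _ ≤ (25 * ((x + 1) * x)) * (x + 2) := Nat.mul_le_mul_right _ h2
    _ = _ := by ring

theorem bH {x α : ℕ} (hx : 3 ≤ x) (h : 2 * α ≤ x + 2) :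
    96 * α ^ 3 ≤ 25 * ((x + 1) * x * (x + 2)) := by
  have := bF hx h
  calc 96 * α ^ 3 = 12 * (2 * α) ^ 3 := by ring
    _ ≤ _ := this

theorem bI {x : ℕ} (hx : 3 ≤ x) : 15 * (x + 1) ^ 3 ≤ 16 * ((x + 1) * x * (x + 2)) := by
  have h2 : 15 * (x + 1) ^ 2 ≤ 16 * (x * (x + 2)) := by nlinarith
  calc 15 * (x + 1) ^ 3 = (x + 1) * (15 * (x + 1) ^ 2) := by ring
    _ ≤ (x + 1) * (16 * (x * (x + 2))) := Nat.mul_le_mul_left _ h2
    _ = _ := by ring

theorem bF2 {x α : ℕ} (hx : 4 ≤ x) (h : α ≤ x + 2) : 5 * α ^ 3 ≤ 9 * ((x + 1) * x * (x + 2)) := by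
  have h1 : α ^ 3 ≤ (x + 2) ^ 3 := Nat.pow_le_pow_left h 3
  have h2 : 5 * (x + 2) ^ 2 ≤ 9 * ((x + 1) * x) := by nlinarith
  calc 5 * α ^ 3 ≤ 5 * (x + 2) ^ 3 := Nat.mul_le_mul_left _ h1
    _ = (5 * (x + 2) ^ 2) * (x + 2) := by ring
    _ ≤ (9 * ((x + 1) * x)) * (x + 2) := Nat.mul_le_mul_right _ h2
    _ = _ := by ring

theorem bH2 {x α : ℕ} (hx : 4 ≤ x) (h : 2 * α ≤ x + 2) :
    40 * α ^ 3 ≤ 9 * ((x + 1) * x * (x + 2)) := by
  have := bF2 hx h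
  calc 40 * α ^ 3 = 5 * (2 * α) ^ 3 := by ring
    _ ≤ _ := this

theorem bF7 {x α : ℕ} (hx : 6 ≤ x) (h : α ≤ x + 2) :
    21 * α ^ 3 ≤ 32 * ((x + 1) * x * (x + 2)) := by
  have h1 : α ^ 3 ≤ (x + 2) ^ 3 := Nat.pow_le_pow_left h 3
  have h2 : 21 * (x + 2) ^ 2 ≤ 32 * ((x + 1) * x) := by nlinarith
  calc 21 * α ^ 3 ≤ 21 * (x + 2) ^ 3 := Nat.mul_le_mul_left _ h1
    _ = (21 * (x + 2) ^ 2) * (x + 2) := by ring
    _ ≤ (32 * ((x + 1) * x)) * (x + 2) := Nat.mul_le_mul_right _ h2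
    _ = _ := by ring

theorem bH11 {x α : ℕ} (hx : 10 ≤ x) (h : 2 * α ≤ x + 2) :
    55 * α ^ 3 ≤ 9 * ((x + 1) * x * (x + 2)) := by
  have h1 : (2 * α) ^ 3 ≤ (x + 2) ^ 3 := Nat.pow_le_pow_left h 3
  have h2 : 55 * (x + 2) ^ 2 ≤ 72 * ((x + 1) * x) := by nlinarith
  have h3 : 8 * (55 * α ^ 3) ≤ 8 * (9 * ((x + 1) * x * (x + 2))) := by
    calc 8 * (55 * α ^ 3) = 55 * (2 * α) ^ 3 := by ring
      _ ≤ 55 * (x + 2) ^ 3 := Nat.mul_le_mul_left _ h1
      _ = (55 * (x + 2) ^ 2) * (x + 2) := by ring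
      _ ≤ (72 * ((x + 1) * x)) * (x + 2) := Nat.mul_le_mul_right _ h2
      _ = _ := by ring
  omega

/-- case: `α = q`, `β = r` -/
theorem s1 {q r f : ℤ} (hq : 4 ≤ q) (hr : 4 ≤ r) (hf : f = 1 ∨ f = 2)
    (h : f * (q ^ 3 - q) * (r ^ 3 - r) = f * f * ((q * r) ^ 3 - q * r)) : False := by
  have h1 : (q ^ 3 - q) * (r ^ 3 - r) = f * ((q * r) ^ 3 - q * r) := by
    rcases hf with rfl | rfl <;> linarith
  have h2 : (q ^ 3 - q) * (r ^ 3 - r) = (q * r) * ((q ^ 2 - 1) * (r ^ 2 - 1)) := by ring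
  have h3 : (q * r) ^ 3 - q * r = (q * r) * (q ^ 2 * r ^ 2 - 1) := by ring
  rw [h2, h3] at h1
  have hqr : 0 < q * r := by positivity
  have h4 : (q ^ 2 - 1) * (r ^ 2 - 1) = f * (q ^ 2 * r ^ 2 - 1) := by
    have : (q * r) * ((q ^ 2 - 1) * (r ^ 2 - 1)) = (q * r) * (f * (q ^ 2 * r ^ 2 - 1)) := by
      rw [h1]; ring
    exact mul_left_cancel₀ hqr.ne' this
  have h5 : 0 < q ^ 2 * r ^ 2 := by positivity
  rcases hf with rfl | rfl <;> nlinarith

/-- case: `β = r`, `α = q ± 1` -/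
theorem s2 {q r d f α p : ℤ} (hq : 4 ≤ q) (hr : 4 ≤ r) (hf : f = 1 ∨ f = 2) (hd : d = 1 ∨ d = 2)
    (hd5 : d = 2 → 5 ≤ q) (hα : α = q + 1 ∨ α = q - 1) (hp : 2 ≤ p) (hpr : p ∣ r) (hpα : p ∣ α)
    (h : f * (q ^ 3 - q) * (r ^ 3 - r) = d * f * ((α * r) ^ 3 - α * r)) : False := by
  have h1 : (q ^ 3 - q) * (r ^ 3 - r) = d * ((α * r) ^ 3 - α * r) := by
    rcases hf with rfl | rfl <;> linarith
  have h2 : (q ^ 3 - q) * (r ^ 2 - 1) = d * (α * (α ^ 2 * r ^ 2 - 1)) := by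
    have : r * ((q ^ 3 - q) * (r ^ 2 - 1)) = r * (d * (α * (α ^ 2 * r ^ 2 - 1))) := by
      linear_combination h1
    exact mul_left_cancel₀ (by omega) this
  have hr2 : 16 ≤ r ^ 2 := by nlinarith
  rcases hα with rfl | rfl
  · have h3 : q * (q - 1) * (r ^ 2 - 1) = d * ((q + 1) ^ 2 * r ^ 2 - 1) := by
      have : (q + 1) * (q * (q - 1) * (r ^ 2 - 1)) =
          (q + 1) * (d * ((q + 1) ^ 2 * r ^ 2 - 1)) := by
        linear_combination h2
      exact mul_left_cancel₀ (by omega) this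
    have h4 : 0 < (q + 1) ^ 2 * r ^ 2 - 1 := by nlinarith
    have h5 : (q + 1) ^ 2 * r ^ 2 - 1 ≤ d * ((q + 1) ^ 2 * r ^ 2 - 1) := by
      rcases hd with rfl | rfl <;> linarith
    nlinarith
  · have h3 : q * (q + 1) * (r ^ 2 - 1) = d * ((q - 1) ^ 2 * r ^ 2 - 1) := by
      have : (q - 1) * (q * (q + 1) * (r ^ 2 - 1)) =
          (q - 1) * (d * ((q - 1) ^ 2 * r ^ 2 - 1)) := by
        linear_combination h2
      exact mul_left_cancel₀ (by omega) this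
    rcases hd with rfl | rfl
    · obtain ⟨r', rfl⟩ := hpr
      obtain ⟨q', hq'⟩ := hpα
      have h4 : p ∣ 1 := by
        refine ⟨-(q' * (q + 2)) - p * r' ^ 2 * ((q - 1) ^ 2 - q * (q + 1)), ?_⟩
        linear_combination (-1) * h3 - (q + 2) * hq'
      have := Int.le_of_dvd one_pos h4
      omega
    · have h5 := hd5 rfl
      nlinarith [mul_nonneg (mul_nonneg (by omega : 0 ≤ q - 5) (by omega : 0 ≤ q)) (by omega : 0 ≤ r ^ 2)]

/-- case: `p = 2`, `s ≥ (q-1)(r-1)` -/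
theorem s4 {x y z : ℕ} (hx : 4 ≤ x) (hy : 4 ≤ y) (hz : x * y ≤ z + 1)
    (h : (x + 1) * x * (x + 2) * ((y + 1) * y * (y + 2)) = 4 * ((z + 1) * z * (z + 2))) :
    False := by
  have h1 : 8 * ((x + 1) * (x + 2)) ≤ 15 * x ^ 2 := by nlinarith
  have h2 : 8 * ((y + 1) * (y + 2)) ≤ 15 * y ^ 2 := by nlinarith
  have h3 : 64 * (((x + 1) * (x + 2)) * ((y + 1) * (y + 2))) ≤ 225 * (x * y) ^ 2 := by
    calc 64 * (((x + 1) * (x + 2)) * ((y + 1) * (y + 2)))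
        = (8 * ((x + 1) * (x + 2))) * (8 * ((y + 1) * (y + 2))) := by ring
      _ ≤ (15 * x ^ 2) * (15 * y ^ 2) := Nat.mul_le_mul h1 h2
      _ = _ := by ring
  obtain ⟨w, hw⟩ : ∃ w, x * y = w + 1 := ⟨x * y - 1, by
    have : 4 * 4 ≤ x * y := Nat.mul_le_mul hx hy
    omega⟩
  have hw15 : 15 ≤ w := by
    have : 4 * 4 ≤ x * y := Nat.mul_le_mul hx hy
    omega
  have h4 : (w + 1) * w * (w + 2) ≤ (z + 1) * z * (z + 2) := by
    have : w ≤ z := by omega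
    gcongr
  have h5 : 64 * ((x + 1) * x * (x + 2) * ((y + 1) * y * (y + 2))) ≤
      225 * (w + 1) ^ 3 := by
    calc 64 * ((x + 1) * x * (x + 2) * ((y + 1) * y * (y + 2)))
        = (64 * (((x + 1) * (x + 2)) * ((y + 1) * (y + 2)))) * (x * y) := by ring
      _ ≤ (225 * (x * y) ^ 2) * (x * y) := Nat.mul_le_mul_right _ h3
      _ = 225 * (w + 1) ^ 3 := by rw [hw]; ring
  have h6 : 225 * (w + 1) ^ 3 < 256 * ((w + 1) * w * (w + 2)) := by nlinarith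
  rw [h] at h5
  omega

theorem PData.d_iff {q d Q p : ℕ} (h : PData q d Q) (hp : p.Prime) (hpq : p ∣ q) :
    (p = 2 → d = 1) ∧ (p ≠ 2 → d = 2) := by
  constructor
  · rintro rfl
    exact h.even.1 hpq
  · intro h2
    rcases h.d12 with h1 | h1
    · exfalso
      apply h2
      have h3 := h.even.2 h1
      obtain ⟨ℓ, k, hℓ, hk, hℓk⟩ := (isPrimePow_nat_iff q).1 h.pp
      rw [← hℓk] at hpq h3
      have e1 := (Nat.prime_dvd_prime_iff_eq hp hℓ).1 (hp.dvd_of_dvd_pow hpq)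
      have e2 := (Nat.prime_dvd_prime_iff_eq Nat.prime_two hℓ).1 (Nat.prime_two.dvd_of_dvd_pow h3)
      rw [e1, e2]
    · exact h1

/-- case: `p` odd, `α = q ± 1`, `β = r ± 1`, `q`, `r` powers of two -/
theorem s3 {x y : ℕ} {s α β p : ℤ} (hx : 2 ≤ x) (hy : 2 ≤ y)
    (hα : α = 2 ^ x + 1 ∨ α = 2 ^ x - 1) (hβ : β = 2 ^ y + 1 ∨ β = 2 ^ y - 1)
    (hp : 3 ≤ p) (hpα : p ∣ α) (hpβ : p ∣ β) (hs : s = α * β)
    (h : (2 : ℤ) ^ (x + y) ∣ s - 1 ∨ (2 : ℤ) ^ (x + y) ∣ s + 1) : False := by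
  obtain ⟨X, hX⟩ : ∃ X : ℤ, X = 2 ^ x := ⟨_, rfl⟩
  obtain ⟨Y, hY⟩ : ∃ Y : ℤ, Y = 2 ^ y := ⟨_, rfl⟩
  have hX4 : (4 : ℤ) ∣ X := by
    rw [hX]; obtain ⟨x', rfl⟩ : ∃ x', x = x' + 2 := ⟨x - 2, by omega⟩
    exact ⟨2 ^ x', by ring⟩
  have hY4 : (4 : ℤ) ∣ Y := by
    rw [hY]; obtain ⟨y', rfl⟩ : ∃ y', y = y' + 2 := ⟨y - 2, by omega⟩
    exact ⟨2 ^ y', by ring⟩
  have hXp : 0 < X := by rw [hX]; positivity
  have hYp : 0 < Y := by rw [hY]; positivity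
  have hX4' : 4 ≤ X := by omega
  have hY4' : 4 ≤ Y := by omega
  rw [pow_add, ← hX, ← hY] at h
  rw [← hX] at hα
  rw [← hY] at hβ
  have key : ∀ w : ℤ, X * Y ∣ w → -(X + Y + 2) ≤ w → w ≤ X + Y + 2 → w = 0 := by
    intro w hw h1 h2
    apply Int.eq_zero_of_abs_lt_dvd hw
    rw [abs_lt]
    constructor <;> nlinarith
  have hp2 : ¬ (p ∣ 2) := fun h5 => by
    have := Int.le_of_dvd (by norm_num) h5
    omega
  rcases hα with rfl | rfl <;> rcases hβ with rfl | rfl <;> rcases h with h | h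
  · have h1 : X * Y ∣ X + Y := by
      have : s - 1 = X * Y + (X + Y) := by rw [hs]; ring
      rw [this] at h
      exact (Int.dvd_add_right (dvd_refl _)).1 h
    have := key _ h1 (by omega) (by omega)
    omega
  · have h1 : X * Y ∣ X + Y + 2 := by
      have : s + 1 = X * Y + (X + Y + 2) := by rw [hs]; ring
      rw [this] at h
      exact (Int.dvd_add_right (dvd_refl _)).1 h
    have := key _ h1 (by omega) (by omega)
    omega
  · have h1 : X * Y ∣ Y - X - 2 := by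
      have : s - 1 = X * Y + (Y - X - 2) := by rw [hs]; ring
      rw [this] at h
      exact (Int.dvd_add_right (dvd_refl _)).1 h
    have := key _ h1 (by omega) (by omega)
    omega
  · have h1 : X * Y ∣ Y - X := by
      have : s + 1 = X * Y + (Y - X) := by rw [hs]; ring
      rw [this] at h
      exact (Int.dvd_add_right (dvd_refl _)).1 h
    have := key _ h1 (by omega) (by omega)
    have e : Y = X := by omega
    rw [e] at hpβ
    apply hp2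
    have := dvd_sub hpα hpβ
    have e2 : X + 1 - (X - 1) = 2 := by ring
    rwa [e2] at this
  · have h1 : X * Y ∣ X - Y - 2 := by
      have : s - 1 = X * Y + (X - Y - 2) := by rw [hs]; ring
      rw [this] at h
      exact (Int.dvd_add_right (dvd_refl _)).1 h
    have := key _ h1 (by omega) (by omega)
    omega
  · have h1 : X * Y ∣ X - Y := by
      have : s + 1 = X * Y + (X - Y) := by rw [hs]; ring
      rw [this] at h
      exact (Int.dvd_add_right (dvd_refl _)).1 h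
    have := key _ h1 (by omega) (by omega)
    have e : Y = X := by omega
    rw [e] at hpβ
    apply hp2
    have := dvd_sub hpβ hpα
    have e2 : X + 1 - (X - 1) = 2 := by ring
    rwa [e2] at this
  · have h1 : X * Y ∣ -(X + Y) := by
      have : s - 1 = X * Y + (-(X + Y)) := by rw [hs]; ring
      rw [this] at h
      exact (Int.dvd_add_right (dvd_refl _)).1 h
    have := key _ h1 (by omega) (by omega)
    omega
  · have h1 : X * Y ∣ -(X + Y) + 2 := by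
      have : s + 1 = X * Y + (-(X + Y) + 2) := by rw [hs]; ring
      rw [this] at h
      exact (Int.dvd_add_right (dvd_refl _)).1 h
    have := key _ h1 (by omega) (by omega)
    omega

end Pool.Agent.V8H48.OP
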