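import Mathlib
import Pool.Agent.V8H48.OP.P3

set_option autoImplicit false

namespace Pool.Agent.V8H48.OP

open Nat

/-- the three shapes: `α = q`; `α = q ± 1`; `2 α ≤ q + 1` -/
theorem PData.shape' {q d Q p : ℕ} (h : PData q d Q) (hp : p.Prime) :
    (p ∣ q ∧ q = p ^ Q.factorization p) ∨
    (¬ p ∣ q ∧ (p ^ Q.factorization p = q + 1 ∨ p ^ Q.factorization p = q - 1)) ∨
    (¬ p ∣ q ∧ 2 * p ^ Q.factorization p ≤ q + 1) := by
  have h4 := h.q4
  obtain ⟨k, hk, ⟨h1, h2, h3⟩ | ⟨h1, h2⟩ | ⟨h1, h2⟩⟩ := h.shape hp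
  · exact Or.inl ⟨h1, h2⟩
  · rcases Nat.lt_or_ge 1 k with h5 | h5
    · right; right
      refine ⟨h1, ?_⟩
      have : 2 * p ^ Q.factorization p ≤ k * p ^ Q.factorization p := Nat.mul_le_mul_right _ h5
      omega
    · right; left
      have : k = 1 := by omega
      rw [this, one_mul] at h2
      exact ⟨h1, Or.inr (by omega)⟩
  · rcases Nat.lt_or_ge 1 k with h5 | h5
    · right; right
      refine ⟨h1, ?_⟩
      have : 2 * p ^ Q.factorization p ≤ k * p ^ Q.factorization p := Nat.mul_le_mul_right _ h5
      omega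
    · right; left
      have : k = 1 := by omega
      rw [this, one_mul] at h2
      exact ⟨h1, Or.inl (by omega)⟩

theorem PData.prime_dvd_pow {q d Q p : ℕ} (h : PData q d Q) (hp : p.Prime)
    (hα : p ^ Q.factorization p = q + 1 ∨ p ^ Q.factorization p = q - 1) :
    p ∣ p ^ Q.factorization p := by
  have h4 := h.q4
  apply dvd_pow_self
  intro h0
  rw [h0, pow_zero] at hα
  omega

/-- for `p = 2` and `q = 5, 7, 9` the 2-part is `4, 8, 8` -/
theorem PData.half_ge {q d Q : ℕ} (h : PData q d Q) (h2 : ¬ 2 ∣ q)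
    (hh : 2 * 2 ^ Q.factorization 2 ≤ q + 1) : 11 ≤ q := by
  have h4 := h.q4
  by_contra hc
  push Not at hc
  have hd : d = 2 := by
    rcases h.d12 with h5 | h5
    · exact absurd (h.even.2 h5) h2
    · exact h5
  have hQ := h.hQ
  rw [hd] at hQ
  have key : ∀ j, 2 ^ j ∣ Q → 2 ^ j ≤ 2 ^ Q.factorization 2 := fun j hj =>
    Nat.pow_le_pow_right (by norm_num)
      ((Nat.prime_two.pow_dvd_iff_le_factorization h.Qpos).1 hj)
  have h5 : q = 5 ∨ q = 7 ∨ q = 9 := by omega
  rcases h5 with rfl | rfl | rfl
  · have : Q = 60 := by omega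
    have := key 2 (by rw [this]; decide)
    omega
  · have : Q = 168 := by omega
    have := key 3 (by rw [this]; decide)
    omega
  · have : Q = 360 := by omega
    have := key 3 (by rw [this]; decide)
    omega

theorem ppp_aux {q d Q r e R s f S p : ℕ} (hq : PData q d Q) (hr : PData r e R)
    (hs : PData s f S) (hp : p.Prime) (hps : p ∣ s) (h : Q * R = S)
    (hord : (p ∣ q → p ∣ r) ∧ (2 * p ^ Q.factorization p ≤ q + 1 →
      p ∣ r ∨ 2 * p ^ R.factorization p ≤ r + 1)) : False := by
  have hq4 := hq.q4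
  have hr4 := hr.q4
  have hs4 := hs.q4
  have hsp : s = p ^ Q.factorization p * p ^ R.factorization p := by
    rcases hs.ppart hp with ⟨_, h2⟩ | ⟨h1, _⟩
    · rw [← h2, ← h, Nat.factorization_mul hq.Qpos hr.Qpos, Finsupp.add_apply, pow_add]
    · exact absurd hps h1
  obtain ⟨x, rfl⟩ : ∃ x, q = x + 1 := ⟨q - 1, by omega⟩
  obtain ⟨y, rfl⟩ : ∃ y, r = y + 1 := ⟨r - 1, by omega⟩
  obtain ⟨z, rfl⟩ : ∃ z, s = z + 1 := ⟨s - 1, by omega⟩
  have hQ := hq.hQ
  have hR := hr.hQ
  have hS := hs.hQ
  simp only [Nat.add_sub_cancel] at hQ hR hS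
  have hE : f * ((x + 1) * x * (x + 2)) * ((y + 1) * y * (y + 2)) =
      d * e * ((z + 1) * z * (z + 2)) := by
    have e1 : x + 1 + 1 = x + 2 := rfl
    have e2 : y + 1 + 1 = y + 2 := rfl
    have e3 : z + 1 + 1 = z + 2 := rfl
    rw [e1] at hQ
    rw [e2] at hR
    rw [e3] at hS
    rw [← hQ, ← hR, ← hS, ← h]; ring
  have hc : (z + 1) * z * (z + 2) < (z + 1) ^ 3 := by nlinarith
  have hd12 := hq.d12
  have he12 := hr.d12
  have hf12 := hs.d12
  have hde : 0 < d * e := by
    rcases hd12 with rfl | rfl <;> rcases he12 with rfl | rfl <;> norm_num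
  have hEZ : (f : ℤ) * (((x + 1 : ℕ) : ℤ) ^ 3 - ((x + 1 : ℕ) : ℤ)) *
      (((y + 1 : ℕ) : ℤ) ^ 3 - ((y + 1 : ℕ) : ℤ)) =
      (d : ℤ) * e * (((z + 1 : ℕ) : ℤ) ^ 3 - ((z + 1 : ℕ) : ℤ)) := by
    have h1 : (f : ℤ) * ((x + 1) * x * (x + 2)) * ((y + 1) * y * (y + 2)) =
      d * e * ((z + 1) * z * (z + 2)) := by exact_mod_cast hE
    push_cast
    linear_combination h1
  have hfp := hs.d_iff hp hps
  obtain ⟨α, hα⟩ : ∃ α, α = p ^ Q.factorization p := ⟨_, rfl⟩
  obtain ⟨β, hβ⟩ : ∃ β, β = p ^ R.factorization p := ⟨_, rfl⟩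
  rw [← hα, ← hβ] at hsp
  rcases hr.shape' hp with ⟨hpr, hr1⟩ | ⟨hpr, hr1⟩ | ⟨hpr, hr1⟩
  · -- `β = r`
    rw [← hβ] at hr1
    have hep := hr.d_iff hp hpr
    have hef : e = f := by
      by_cases h2 : p = 2
      · rw [hep.1 h2, hfp.1 h2]
      · rw [hep.2 h2, hfp.2 h2]
    rcases hq.shape' hp with ⟨hpq, hq1⟩ | ⟨hpq, hq1⟩ | ⟨hpq, hq1⟩
    · -- `α = q`
      rw [← hα] at hq1
      have hdp := hq.d_iff hp hpq
      have hdf : d = f := by
        by_cases h2 : p = 2
        · rw [hdp.1 h2, hfp.1 h2]
        · rw [hdp.2 h2, hfp.2 h2]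
      rw [hef, hdf, hsp, ← hq1, ← hr1] at hEZ
      apply s1 (q := ((x + 1 : ℕ) : ℤ)) (r := ((y + 1 : ℕ) : ℤ)) (f := (f : ℤ))
        (by exact_mod_cast hq4) (by exact_mod_cast hr4) (by exact_mod_cast hf12)
      rw [hEZ]; push_cast; ring
    · -- `α = q ± 1`, `β = r`
      have hpα := hq.prime_dvd_pow hp hq1
      rw [← hα] at hq1 hpα
      rw [hef, hsp, ← hr1] at hEZ
      apply s2 (q := ((x + 1 : ℕ) : ℤ)) (r := ((y + 1 : ℕ) : ℤ)) (f := (f : ℤ)) (d := (d : ℤ))
        (α := (α : ℤ)) (p := (p : ℤ))
        (by exact_mod_cast hq4) (by exact_mod_cast hr4) (by exact_mod_cast hf12)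
        (by exact_mod_cast hd12)
      · intro hd2
        have hd2' : d = 2 := by exact_mod_cast hd2
        have : ¬ 2 ∣ x + 1 := by
          intro h2
          rw [hq.even] at h2
          omega
        have : 5 ≤ x + 1 := by omega
        exact_mod_cast this
      · rcases hq1 with h1 | h1
        · left; exact_mod_cast h1
        · right
          rw [h1]; push_cast; omega
      · exact_mod_cast hp.two_le
      · exact_mod_cast hpr
      · exact_mod_cast hpα
      · rw [hEZ]; push_cast; ring
    · -- `2 α ≤ q + 1`, `β = r`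
      rw [← hα] at hq1
      have b1 := bH (x := x) (α := α) (by omega) (by omega)
      have b2 : 15 * β ^ 3 ≤ 16 * ((y + 1) * y * (y + 2)) := by
        rw [← hr1]; exact bI (x := y) (by omega)
      refine contra hsp hc hE b1 b2 ?_ hde (by norm_num)
      rw [hef]
      rcases hd12 with rfl | rfl <;> rcases hf12 with rfl | rfl <;> norm_num
  · -- `β = r ± 1`
    have hpq : ¬ p ∣ x + 1 := fun h1 => hpr (hord.1 h1)
    have hpβ := hr.prime_dvd_pow hp hr1
    rw [← hβ] at hr1 hpβ
    rcases hq.shape' hp with ⟨hpq', hq1⟩ | ⟨_, hq1⟩ | ⟨_, hq1⟩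
    · exact absurd hpq' hpq
    · have hpα := hq.prime_dvd_pow hp hq1
      rw [← hα] at hq1 hpα
      by_cases h2 : p = 2
      · -- both full, p = 2
        subst h2
        have hd2 : d = 2 := by
          rcases hd12 with h5 | h5
          · exact absurd (hq.even.2 h5) hpq
          · exact h5
        have he2 : e = 2 := by
          rcases he12 with h5 | h5
          · exact absurd (hr.even.2 h5) hpr
          · exact h5
        have hf1 : f = 1 := hfp.1 rfl
        rw [hd2, he2, hf1, one_mul] at hE
        refine s4 (x := x) (y := y) (z := z) (by omega) (by omega) ?_ hE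
        rw [hsp]
        exact Nat.mul_le_mul (by omega) (by omega)
      · -- both full, p odd
        have hf2 := hfp.2 h2
        have hp3 : 3 ≤ p := by
          have := hp.two_le
          omega
        have hodd : ∀ t, p ^ t % 2 = 1 := fun t => by
          have : Odd (p ^ t) := (hp.odd_of_ne_two h2).pow
          rcases this with ⟨w, hw⟩; omega
        have hqe : 2 ∣ x + 1 := by
          have := hodd (Q.factorization p)
          rw [← hα] at this
          omega
        have hre : 2 ∣ y + 1 := by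
          have := hodd (R.factorization p)
          rw [← hβ] at this
          omega
        have hd1 := hq.even.1 hqe
        have he1 := hr.even.1 hre
        have pow2 : ∀ t, IsPrimePow t → 2 ∣ t → 4 ≤ t → ∃ k, 2 ≤ k ∧ t = 2 ^ k := by
          intro t ht h2t h4t
          obtain ⟨ℓ, k, hℓ, hk, hℓk⟩ := (isPrimePow_nat_iff t).1 ht
          rw [← hℓk] at h2t
          have := (Nat.prime_dvd_prime_iff_eq Nat.prime_two hℓ).1
            (Nat.prime_two.dvd_of_dvd_pow h2t)
          subst this
          refine ⟨k, ?_, hℓk.symm⟩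
          by_contra hk2
          have : k = 1 := by omega
          subst this
          omega
        obtain ⟨a, ha, hxa⟩ := pow2 _ hq.pp hqe hq4
        obtain ⟨b, hb, hyb⟩ := pow2 _ hr.pp hre hr4
        obtain ⟨u, hu⟩ : ∃ u, z + 1 = 2 * u + 1 := by
          refine ⟨z / 2, ?_⟩
          have h7 := hodd (Q.factorization p + R.factorization p)
          rw [pow_add, ← hα, ← hβ, ← hsp] at h7
          omega
        have hz : z = 2 * u := by omega
        have hdiv : 2 ^ (a + b) ∣ 2 * u * (u + 1) := by
          have h8 : 2 ^ (a + b) * 2 ∣ (z + 1) * (4 * u * (u + 1)) := by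
            have h9 : (z + 1) * (4 * u * (u + 1)) = (z + 1) * z * (z + 2) := by rw [hz]; ring
            have h10 : 2 * ((x + 1) * x * (x + 2)) * ((y + 1) * y * (y + 2)) =
                (z + 1) * z * (z + 2) := by
              rw [hd1, he1, hf2] at hE
              rw [hE]; ring
            rw [h9, ← h10, pow_add, ← hxa, ← hyb]
            exact ⟨x * (x + 2) * (y * (y + 2)), by ring⟩
          have h11 : Nat.Coprime (2 ^ (a + b) * 2) (z + 1) := by
            rw [← pow_succ]
            apply Nat.Coprime.pow_left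
            rw [Nat.coprime_two_left]
            exact ⟨u, hu⟩
          have h12 := h11.dvd_of_dvd_mul_left h8
          have : 4 * u * (u + 1) = (2 * u * (u + 1)) * 2 := by ring
          rw [this] at h12
          exact Nat.dvd_of_mul_dvd_mul_right (by norm_num) h12
        refine s3 (x := a) (y := b) (s := ((z + 1 : ℕ) : ℤ)) (α := (α : ℤ)) (β := (β : ℤ))
          (p := (p : ℤ)) ha hb ?_ ?_ (by exact_mod_cast hp3) (by exact_mod_cast hpα)
          (by exact_mod_cast hpβ) (by exact_mod_cast hsp) ?_
        · have hxa' : ((x : ℤ) + 1) = 2 ^ a := by exact_mod_cast hxa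
          rcases hq1 with h1 | h1
          · left; rw [h1, ← hxa']; push_cast; ring
          · right; rw [h1, ← hxa']
            have : x + 1 - 1 = x := by omega
            rw [this]; ring
        · have hyb' : ((y : ℤ) + 1) = 2 ^ b := by exact_mod_cast hyb
          rcases hr1 with h1 | h1
          · left; rw [h1, ← hyb']; push_cast; ring
          · right; rw [h1, ← hyb']
            have : y + 1 - 1 = y := by omega
            rw [this]; ring
        · rcases pow2_dvd hdiv with h8 | h8
          · left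
            have : ((z + 1 : ℕ) : ℤ) - 1 = ((2 * u : ℕ) : ℤ) := by rw [hz]; push_cast; ring
            rw [this]; exact_mod_cast h8
          · right
            have : ((z + 1 : ℕ) : ℤ) + 1 = ((2 * (u + 1) : ℕ) : ℤ) := by rw [hz]; push_cast; ring
            rw [this]; exact_mod_cast h8
    · rcases hord.2 hq1 with h1 | h1
      · exact hpr h1
      · rw [← hβ] at h1
        omega
  · -- `2 β ≤ r + 1`
    have hpq : ¬ p ∣ x + 1 := fun h1 => hpr (hord.1 h1)
    by_cases h2 : p = 2
    · subst h2
      have hd2 : d = 2 := by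
        rcases hd12 with h5 | h5
        · exact absurd (hq.even.2 h5) hpq
        · exact h5
      have he2 : e = 2 := by
        rcases he12 with h5 | h5
        · exact absurd (hr.even.2 h5) hpr
        · exact h5
      have hf1 : f = 1 := hfp.1 rfl
      have hy10 := hr.half_ge hpr hr1
      rw [← hβ] at hr1
      have b2 := bH11 (x := y) (α := β) (by omega) (by omega)
      rcases Nat.lt_or_ge x 6 with hx6 | hx6
      · have hx4 : x = 4 := by omega
        have hα4 : α ≤ 4 := by
          rcases hq.shape' hp with ⟨hpq', _⟩ | ⟨_, h5 | h5⟩ | ⟨_, h5⟩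
          · exact absurd hpq' hpq
          · exfalso
            rw [hx4] at h5
            have : ∀ j, 2 ^ j ≠ 4 + 1 + 1 := by
              intro j
              rcases Nat.lt_or_ge j 3 with hj | hj
              · interval_cases j <;> norm_num
              · have : 2 ^ 3 ≤ 2 ^ j := Nat.pow_le_pow_right (by norm_num) hj
                omega
            exact this _ h5
          · rw [← hα] at h5; omega
          · rw [← hα] at h5; omega
        have b1 : 15 * α ^ 3 ≤ 8 * ((x + 1) * x * (x + 2)) := by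
          rw [hx4]
          have : α ^ 3 ≤ 4 ^ 3 := Nat.pow_le_pow_left hα4 3
          omega
        refine contra hsp hc hE b1 b2 ?_ hde (by norm_num)
        rw [hd2, he2, hf1]; norm_num
      · have hα1 : α ≤ x + 2 := by
          rcases hq.shape' hp with ⟨hpq', _⟩ | ⟨_, h5 | h5⟩ | ⟨_, h5⟩
          · exact absurd hpq' hpq
          · rw [← hα] at h5; omega
          · rw [← hα] at h5; omega
          · rw [← hα] at h5; omega
        have b1 := bF7 (x := x) (α := α) hx6 hα1
        refine contra hsp hc hE b1 b2 ?_ hde (by norm_num)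
        rw [hd2, he2, hf1]; norm_num
    · have hf2 := hfp.2 h2
      rw [← hβ] at hr1
      have b2 := bH (x := y) (α := β) (by omega) (by omega)
      rcases hq.shape' hp with ⟨hpq', _⟩ | ⟨_, h5⟩ | ⟨_, h5⟩
      · exact absurd hpq' hpq
      · have hodd : ∀ t, p ^ t % 2 = 1 := fun t => by
          have : Odd (p ^ t) := (hp.odd_of_ne_two h2).pow
          rcases this with ⟨w, hw⟩; omega
        have hqe : 2 ∣ x + 1 := by
          have := hodd (Q.factorization p)
          omega
        have hd1 := hq.even.1 hqe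
        have b1 := bF (x := x) (α := α) (by omega) (by rw [← hα] at h5; omega)
        refine contra hsp hc hE b1 b2 ?_ hde (by norm_num)
        rw [hd1, hf2]
        rcases he12 with rfl | rfl <;> norm_num
      · rw [← hα] at h5
        have b1 := bH (x := x) (α := α) (by omega) (by omega)
        refine contra hsp hc hE b1 b2 ?_ hde (by norm_num)
        rw [hf2]
        rcases hd12 with rfl | rfl <;> rcases he12 with rfl | rfl <;> norm_num

/-- no product of two orders of groups `PSL(2, q)` is the order of a group `PSL(2, q)` -/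
theorem ppp {q d Q r e R s f S : ℕ} (hq : PData q d Q) (hr : PData r e R)
    (hs : PData s f S) (h : Q * R = S) : False := by
  obtain ⟨p, c, hp, hc, hpc⟩ := (isPrimePow_nat_iff s).1 hs.pp
  have hps : p ∣ s := by rw [← hpc]; exact dvd_pow_self p (by omega)
  by_cases h1 : p ∣ r
  · exact ppp_aux hq hr hs hp hps h ⟨fun _ => h1, fun _ => Or.inl h1⟩
  · by_cases h2 : p ∣ q
    · exact ppp_aux hr hq hs hp hps (by rw [mul_comm]; exact h)
        ⟨fun _ => h2, fun _ => Or.inl h2⟩
    · by_cases h3 : 2 * p ^ R.factorization p ≤ r + 1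
      · exact ppp_aux hq hr hs hp hps h ⟨fun h4 => absurd h4 h2, fun _ => Or.inr h3⟩
      · exact ppp_aux hr hq hs hp hps (by rw [mul_comm]; exact h)
          ⟨fun h4 => absurd h4 h1, fun h4 => absurd h4 h3⟩

end Pool.Agent.V8H48.OP
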