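import Mathlib
import Pool.Agent.V8H48.OP.P3b
import Pool.Agent.V8H48.OP.Main

set_option autoImplicit false

namespace Pool.Agent.V8H48.OP

open Nat

theorem PData.eqZ {q d Q : ℕ} (h : PData q d Q) : Q * d + q = q ^ 3 := by
  have h4 := h.q4
  rw [h.hQ]
  obtain ⟨r, rfl⟩ : ∃ r, q = r + 1 := ⟨q - 1, by omega⟩
  simp only [Nat.add_sub_cancel]
  ring

theorem PData.lt {q d Q : ℕ} (h : PData q d Q) : Q < q ^ 3 := by
  have h1 := h.eqZ
  have h4 := h.q4
  rcases h.d12 with h2 | h2 <;> rw [h2] at h1 <;> omega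

theorem PData.cube {q d Q : ℕ} (h : PData q d Q) :
    ∃ p : ℕ, p.Prime ∧ Q < (p ^ Q.factorization p) ^ 3 := by
  obtain ⟨p, c, hp, hc, hpc⟩ := (isPrimePow_nat_iff q).1 h.pp
  have hps : p ∣ q := by rw [← hpc]; exact dvd_pow_self p (by omega)
  refine ⟨p, hp, ?_⟩
  rcases h.ppart hp with ⟨_, h2⟩ | ⟨h1, _⟩
  · rw [h2]; exact h.lt
  · exact absurd hps h1

/-- `(A_m, PSL(2,q), A_n)` -/
theorem apa {m n q d Q : ℕ} (hm : 5 ≤ m) (hq : PData q d Q)
    (h : Nat.card (alternatingGroup (Fin m)) * Q = Nat.card (alternatingGroup (Fin n))) :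
    (n = m + 1 ∧ n = Q) ∨ (2 ∣ q ∧ m + 2 = q ∧ n = q + 1) := by
  have hQ0 := hq.Qpos
  have hF := hq.q4
  have hcard := hq.hQ
  obtain ⟨t, rfl, ht⟩ := alt_eq hm (by omega) h
  have ht1 : 1 ≤ t := by
    by_contra hc
    have : t = 0 := by omega
    subst this
    have h1 : Q = 1 := by rw [← ht]; rfl
    rw [h1, one_mul] at hcard
    have : 4 * 3 * 5 ≤ q * (q - 1) * (q + 1) :=
      Nat.mul_le_mul (Nat.mul_le_mul hF (by omega)) (by omega)
    have := hq.d12
    omega
  rcases Nat.lt_or_ge 3 t with h4 | h4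
  · exfalso
    obtain ⟨p, hp, hc⟩ := hq.cube
    rw [← ht] at hc
    have h5 := main_ineq hp hm (by omega) hc
    have h6 : A m t * d + q = q ^ 3 := by
      rw [ht]; exact hq.eqZ
    have h7 := finite_check hm hq.d12 (by omega) h5 h6
    have h8 := hq.pp
    rw [h7] at h8
    exact not_isPrimePow_56 h8
  · rcases small_t hm ht1 h4 hq.pp hF hq.hd (by rw [ht]; exact hcard) with h5 | ⟨h5, h6, h7⟩
    · left
      subst h5
      refine ⟨rfl, ?_⟩
      rw [← ht]
      simp [A, Nat.ascFactorial]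
    · right
      subst h5
      exact ⟨h6, h7, by omega⟩

/-! ### `(A_m, A_n, PSL(2,q))` -/

def chkAAP : Bool := (List.range 18).all fun i => (List.range 18).all fun j =>
  noq 0 ((i + 5)! * (j + 5)! / 4) && noq 0 ((i + 5)! * (j + 5)! / 4 * 2)

theorem chkAAP_ok : chkAAP = true := by decide +kernel

theorem aap {m n q d Q : ℕ} (hm : 5 ≤ m) (hn : 5 ≤ n) (hq : PData q d Q)
    (h : 4 * Q = m ! * n !) : False := by
  obtain ⟨p, hp, hc⟩ := hq.cube
  have h1 := two_alt hp (m := m) (n := n) (by omega) (by omega) hc h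
  have h2 := two_alt hp (m := n) (n := m) (by omega) (by omega) hc (by rw [h]; ring)
  have hQ : m ! * n ! / 4 = Q := by omega
  have h4 := chkAAP_ok
  unfold chkAAP at h4
  rw [List.all_eq_true] at h4
  have h5 := h4 (m - 5) (List.mem_range.2 (by omega))
  rw [List.all_eq_true] at h5
  have h6 := h5 (n - 5) (List.mem_range.2 (by omega))
  rw [Nat.sub_add_cancel hm, Nat.sub_add_cancel hn, Bool.and_eq_true, hQ] at h6
  have h7 := hq.eqZ
  have h8 := hq.q4
  rcases hq.d12 with h9 | h9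
  · rw [h9, mul_one] at h7
    have := noq_spec h6.1 (by omega) h7
    omega
  · rw [h9] at h7
    have := noq_spec h6.2 (by omega) h7
    omega

/-! ### `(A_m, PSL(2,q), PSL(2,r))` -/

theorem fact_bound3 {n : ℕ} (h : 20 ≤ n) : 25 * 8 ^ (n - 1) ≤ 3 * n ! := by
  induction n, h using Nat.le_induction with
  | base => decide +kernel
  | succ k hk ih =>
    obtain ⟨j, rfl⟩ : ∃ j, k = j + 1 := ⟨k - 1, by omega⟩
    simp only [Nat.add_sub_cancel] at *
    rw [Nat.factorial_succ, pow_succ]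
    nlinarith

def tst (a B α q : ℕ) : Bool :=
  decide (q < 4) || (decide (a * (q * (q - 1) * (q + 1)) ≠ (B * α) * (B * α - 1) * (B * α + 1)) &&
    decide (2 * (a * (q * (q - 1) * (q + 1))) ≠ (B * α) * (B * α - 1) * (B * α + 1)) &&
    decide (a * (q * (q - 1) * (q + 1)) ≠ 2 * ((B * α) * (B * α - 1) * (B * α + 1))))

def inner (a B p : ℕ) : Bool :=
  (List.range 4).all fun k => (List.range 61).all fun i =>
    tst a B (p ^ i) (k * p ^ i + 1) && tst a B (p ^ i) (k * p ^ i) &&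
      tst a B (p ^ i) (k * p ^ i - 1)

def chkAPP : Bool := (List.range 15).all fun m0 => [2, 3, 5, 7, 11, 13, 17, 19].all fun p =>
  (List.range 20).all fun j =>
    if (m0 + 5)! / 2 % p ^ j = 0 ∧ 6 * ((m0 + 5)! / 2) < 25 * (p ^ j) ^ 3 then
      if (m0 + 5)! / 2 % p ^ (j + 1) ≠ 0 then
        decide (25 * (p ^ j) ^ 3 ≤ 6 * ((m0 + 5)! / 2) * 64) &&
        decide (2 * p ^ j < (m0 + 5)! / 2) && inner ((m0 + 5)! / 2) (p ^ j) p
      else true
    else true

theorem chkAPP_ok : chkAPP = true := by decide +kernel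

theorem tst_spec {a B α q d e : ℕ} (h : tst a B α q = true) (hq : 4 ≤ q) (hd : d = 1 ∨ d = 2)
    (he : e = 1 ∨ e = 2)
    (hE : e * (a * (q * (q - 1) * (q + 1))) = d * ((B * α) * (B * α - 1) * (B * α + 1))) :
    False := by
  unfold tst at h
  simp only [Bool.or_eq_true, Bool.and_eq_true, decide_eq_true_eq] at h
  rcases h with h | ⟨⟨h1, h2⟩, h3⟩
  · omega
  · rcases hd with rfl | rfl <;> rcases he with rfl | rfl <;> omega

end Pool.Agent.V8H48.OP
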