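import Mathlib
import Pool.Agent.V8H48.OP.P4

set_option autoImplicit false

namespace Pool.Agent.V8H48.OP

open Nat

theorem app {m q d Q r e R : ℕ} (hm : 5 ≤ m) (hq : PData q d Q) (hr : PData r e R)
    (h : m ! * Q = 2 * R) : False := by
  have hq4 := hq.q4
  have hr4 := hr.q4
  have hQ := hq.hQ
  have hR := hr.hQ
  have hd12 := hq.d12
  have he12 := hr.d12
  obtain ⟨a, ha⟩ : ∃ a, m ! = 2 * a := (Nat.dvd_factorial (by norm_num) (by omega))
  have hma : m ! / 2 = a := by omega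
  have haQ : a * Q = R := by
    have : 2 * (a * Q) = 2 * R := by rw [← h, ha]; ring
    omega
  have ha60 : 60 ≤ a := by
    have : 5 ! ≤ m ! := Nat.factorial_le hm
    have h5 : 5 ! = 120 := rfl
    omega
  obtain ⟨p, c, hp, hc, hpc⟩ := (isPrimePow_nat_iff r).1 hr.pp
  have hpr : p ∣ r := by rw [← hpc]; exact dvd_pow_self p (by omega)
  obtain ⟨j, hj⟩ : ∃ j, j = a.factorization p := ⟨_, rfl⟩
  obtain ⟨i, hi⟩ : ∃ i, i = Q.factorization p := ⟨_, rfl⟩
  have hrB : r = p ^ j * p ^ i := by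
    rcases hr.ppart hp with ⟨_, h2⟩ | ⟨h1, _⟩
    · rw [← h2, ← haQ, Nat.factorization_mul (by omega) hq.Qpos, Finsupp.add_apply, pow_add,
        hj, hi]
    · exact absurd hpr h1
  have hE : e * (a * (q * (q - 1) * (q + 1))) = d * (r * (r - 1) * (r + 1)) := by
    rw [← hQ, ← hR, ← haQ]; ring
  obtain ⟨B, hB⟩ : ∃ B, B = p ^ j := ⟨_, rfl⟩
  obtain ⟨α, hα⟩ : ∃ α, α = p ^ i := ⟨_, rfl⟩
  have hB1 : 1 ≤ B := by rw [hB]; exact Nat.pow_pos hp.pos
  have hα1 : 1 ≤ α := by rw [hα]; exact Nat.pow_pos hp.pos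
  rw [← hB, ← hα] at hrB
  obtain ⟨k, hk, hsh⟩ := hq.shape hp
  rw [← hi, ← hα] at hsh
  obtain ⟨x, hx⟩ : ∃ x, q = x + 1 := ⟨q - 1, by omega⟩
  have hkα : k * α ≤ x + 2 := by
    rcases hsh with ⟨_, h2, h3⟩ | ⟨_, h2⟩ | ⟨_, h2⟩
    · rw [h3]; omega
    · omega
    · omega
  have b1 := bF (x := x) (by omega) hkα
  have hA3 : q * (q - 1) * (q + 1) = (x + 1) * x * (x + 2) := by
    rw [hx]; rfl
  rw [← hA3] at b1
  have hA3pos : 0 < q * (q - 1) * (q + 1) :=
    Nat.mul_pos (Nat.mul_pos (by omega) (by omega)) (by omega)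
  have hrlt : r * (r - 1) * (r + 1) < r ^ 3 := by
    have h1 := hr.eqZ
    rw [hR] at h1
    omega
  have hdpos : 0 < d := by rcases hd12 with h | h <;> omega
  have hkey : 6 * a * k ^ 3 < 25 * B ^ 3 := by
    have h1 : (12 * k ^ 3 * (e * a)) * (q * (q - 1) * (q + 1)) <
        (25 * d * B ^ 3) * (q * (q - 1) * (q + 1)) := by
      calc (12 * k ^ 3 * (e * a)) * (q * (q - 1) * (q + 1))
          = (12 * k ^ 3) * (e * (a * (q * (q - 1) * (q + 1)))) := by ring
        _ = (12 * k ^ 3) * (d * (r * (r - 1) * (r + 1))) := by rw [hE]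
        _ < (12 * k ^ 3) * (d * r ^ 3) := by
            apply Nat.mul_lt_mul_of_pos_left _ (by positivity)
            exact Nat.mul_lt_mul_of_pos_left hrlt hdpos
        _ = (d * B ^ 3) * (12 * (k * α) ^ 3) := by rw [hrB]; ring
        _ ≤ (d * B ^ 3) * (25 * (q * (q - 1) * (q + 1))) := Nat.mul_le_mul_left _ b1
        _ = (25 * d * B ^ 3) * (q * (q - 1) * (q + 1)) := by ring
    have h2 := Nat.lt_of_mul_lt_mul_right h1
    have h3 : 12 * k ^ 3 * a ≤ 12 * k ^ 3 * (e * a) := by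
      apply Nat.mul_le_mul_left
      rcases he12 with h | h <;> rw [h] <;> omega
    have h4 : 25 * d * B ^ 3 ≤ 50 * B ^ 3 := by
      apply Nat.mul_le_mul_right
      rcases hd12 with h | h <;> rw [h] <;> omega
    nlinarith
  have hkey1 : 6 * a < 25 * B ^ 3 := by
    have : 6 * a * 1 ≤ 6 * a * k ^ 3 := Nat.mul_le_mul_left _ (Nat.one_le_pow _ _ hk)
    omega
  have hBdvd : B ∣ a := by rw [hB, hj]; exact Nat.ordProj_dvd a p
  have hBle : B ≤ 2 ^ (m - 1) := by
    rw [hB, hj]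
    refine (ppart_le_of_dvd hp (Nat.factorial_ne_zero m) ⟨2, ?_⟩).trans
      (ppart_factorial hp (by omega))
    rw [ha]; ring
  have hm19 : m ≤ 19 := by
    by_contra hcon
    push Not at hcon
    have h1 := fact_bound3 (n := m) (by omega)
    have h2 : B ^ 3 ≤ (2 ^ (m - 1)) ^ 3 := Nat.pow_le_pow_left hBle 3
    have h3 : (2 ^ (m - 1)) ^ 3 = 8 ^ (m - 1) := by
      rw [← pow_mul, mul_comm, pow_mul]; norm_num
    omega
  have hj1 : 1 ≤ j := by
    by_contra hcon
    have : j = 0 := by omega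
    rw [this, pow_zero] at hB
    rw [hB] at hkey1
    omega
  have hpa : p ∣ a := (dvd_pow_self p (by omega : j ≠ 0)).trans (hB ▸ hBdvd)
  have hpm : p ≤ m := by
    have : p ∣ m ! := hpa.trans ⟨2, by rw [ha]; ring⟩
    exact (hp.dvd_factorial).1 this
  have hj20 : j < 20 := by
    by_contra hcon
    push Not at hcon
    have h1 : 2 ^ 20 ≤ 2 ^ j := Nat.pow_le_pow_right (by norm_num) hcon
    have h2 : 2 ^ j ≤ p ^ j := Nat.pow_le_pow_left hp.two_le j
    have h3 : 2 ^ (m - 1) ≤ 2 ^ 18 := Nat.pow_le_pow_right (by norm_num) (by omega)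
    rw [← hB] at h2
    omega
  have hnd : ¬ p ^ (j + 1) ∣ a := by
    rw [hj]; exact Nat.pow_succ_factorization_not_dvd (by omega) hp
  -- the check
  have h4 := chkAPP_ok
  unfold chkAPP at h4
  rw [List.all_eq_true] at h4
  have h5 := h4 (m - 5) (List.mem_range.2 (by omega))
  rw [List.all_eq_true] at h5
  have hplist : p ∈ [2, 3, 5, 7, 11, 13, 17, 19] := by
    have h19 : p ≤ 19 := by omega
    have h2 := hp.two_le
    interval_cases p <;> first | decide | (exfalso; revert hp; decide)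
  have h6 := h5 p hplist
  rw [List.all_eq_true] at h6
  have h7 := h6 j (List.mem_range.2 hj20)
  rw [Nat.sub_add_cancel hm, hma, ← hB] at h7
  rw [if_pos ⟨Nat.mod_eq_zero_of_dvd hBdvd, hkey1⟩,
    if_pos (fun h0 => hnd (Nat.dvd_of_mod_eq_zero h0))] at h7
  simp only [Bool.and_eq_true, decide_eq_true_eq] at h7
  obtain ⟨⟨h8, h9⟩, h10⟩ := h7
  have hk4 : k < 4 := by
    by_contra hcon
    push Not at hcon
    have h1 : 4 ^ 3 ≤ k ^ 3 := Nat.pow_le_pow_left hcon 3
    have h2 : 6 * a * 4 ^ 3 ≤ 6 * a * k ^ 3 := Nat.mul_le_mul_left _ h1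
    omega
  have hEZ : (e : ℤ) * (a * ((q : ℤ) ^ 3 - q)) = d * ((B * α : ℤ) ^ 3 - B * α) := by
    have h1 := hq.eqZ
    have h2 := hr.eqZ
    rw [hQ] at h1
    rw [hR] at h2
    have h1' : ((q * (q - 1) * (q + 1) : ℕ) : ℤ) = (q : ℤ) ^ 3 - q := by
      have : ((q * (q - 1) * (q + 1) + q : ℕ) : ℤ) = ((q ^ 3 : ℕ) : ℤ) := by rw [h1]
      push_cast at this ⊢
      linarith
    have h2' : ((r * (r - 1) * (r + 1) : ℕ) : ℤ) = (r : ℤ) ^ 3 - r := by
      have : ((r * (r - 1) * (r + 1) + r : ℕ) : ℤ) = ((r ^ 3 : ℕ) : ℤ) := by rw [h2]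
      push_cast at this ⊢
      linarith
    have h3 : ((e * (a * (q * (q - 1) * (q + 1))) : ℕ) : ℤ) =
      ((d * (r * (r - 1) * (r + 1)) : ℕ) : ℤ) := by rw [hE]
    rw [Nat.cast_mul e, Nat.cast_mul a, h1', Nat.cast_mul d, h2', hrB] at h3
    push_cast at h3
    exact h3
  have hαne : (α : ℤ) ≠ 0 := by
    have : (1 : ℤ) ≤ α := by exact_mod_cast hα1
    omega
  have hα13 : α ≤ 13 * a := by
    have gen : ∀ (kk : ℤ), ((q : ℤ) = k * α + 1 ∨ (q : ℤ) = k * α - 1) → α ≤ 13 * a := by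
      intro _ hqk
      have h1 : (α : ℤ) ∣ 2 * e * a * k + d * B := by
        rcases hqk with hqk | hqk
        · have h2 : (α : ℤ) * (e * a * k * (k * α + 1) * (k * α + 2)) =
              α * (d * B * (B ^ 2 * α ^ 2 - 1)) := by
            rw [hqk] at hEZ
            linear_combination hEZ
          have h3 := mul_left_cancel₀ hαne h2
          refine ⟨d * B ^ 3 * α - e * a * k * (k ^ 2 * α + 3 * k), ?_⟩
          linear_combination h3
        · have h2 : (α : ℤ) * (e * a * k * (k * α - 1) * (k * α - 2)) =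
              α * (d * B * (B ^ 2 * α ^ 2 - 1)) := by
            rw [hqk] at hEZ
            linear_combination hEZ
          have h3 := mul_left_cancel₀ hαne h2
          refine ⟨d * B ^ 3 * α - e * a * k * (k ^ 2 * α - 3 * k), ?_⟩
          linear_combination h3
      have h2 : α ∣ 2 * e * a * k + d * B := by exact_mod_cast h1
      have h3 := Nat.le_of_dvd (by positivity) h2
      have h4 : 2 * e * a * k ≤ 2 * 2 * a * 3 := by
        have : e ≤ 2 := by omega
        have : k ≤ 3 := by omega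
        gcongr
      have h5 : d * B ≤ 2 * B := Nat.mul_le_mul_right _ (by omega)
      omega
    rcases hsh with ⟨_, h2, h3⟩ | ⟨_, h2⟩ | ⟨_, h2⟩
    · have h1 : (α : ℤ) ∣ e * a - d * B := by
        rw [h2] at hEZ
        have h4 : (α : ℤ) * (e * (a * (α ^ 2 - 1))) = α * (d * B * (B ^ 2 * α ^ 2 - 1)) := by
          linear_combination hEZ
        have h5 := mul_left_cancel₀ hαne h4
        refine ⟨e * a * α - d * B ^ 3 * α, ?_⟩
        linear_combination (-1) * h5
      have h4 : d * B < e * a := by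
        have h5 : d * B ≤ 2 * B := Nat.mul_le_mul_right _ (by omega)
        have h6 : 1 * a ≤ e * a := Nat.mul_le_mul_right _ (by omega)
        omega
      have h5 : (0 : ℤ) < e * a - d * B := by
        have : ((d * B : ℕ) : ℤ) < ((e * a : ℕ) : ℤ) := by exact_mod_cast h4
        push_cast at this
        linarith
      have h6 := Int.le_of_dvd h5 h1
      have h7 : e * a ≤ 2 * a := Nat.mul_le_mul_right _ (by omega)
      have h8 : ((e * a : ℕ) : ℤ) ≤ ((2 * a : ℕ) : ℤ) := by exact_mod_cast h7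
      have h9 : (0 : ℤ) ≤ (d : ℤ) * B := by positivity
      push_cast at h8
      have : (α : ℤ) ≤ 13 * a := by linarith
      exact_mod_cast this
    · exact gen 0 (Or.inl (by rw [h2]; push_cast; ring))
    · exact gen 0 (Or.inr (by
        have : (q : ℤ) + 1 = k * α := by exact_mod_cast h2
        linarith))
  have hi61 : i < 61 := by
    by_contra hcon
    push Not at hcon
    have h1 : 2 ^ 61 ≤ 2 ^ i := Nat.pow_le_pow_right (by norm_num) hcon
    have h2 : 2 ^ i ≤ p ^ i := Nat.pow_le_pow_left hp.two_le i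
    rw [← hα] at h2
    have h3 : m ! ≤ 19 ! := Nat.factorial_le hm19
    have h11 : 19 ! = 121645100408832000 := by decide
    omega
  unfold inner at h10
  rw [List.all_eq_true] at h10
  have h11 := h10 k (List.mem_range.2 hk4)
  rw [List.all_eq_true] at h11
  have h12 := h11 i (List.mem_range.2 hi61)
  rw [← hα, Bool.and_eq_true, Bool.and_eq_true] at h12
  have hE' : e * (a * (q * (q - 1) * (q + 1))) =
      d * ((B * α) * (B * α - 1) * (B * α + 1)) := by rw [hE, hrB]
  rcases hsh with ⟨_, h2, h3⟩ | ⟨_, h2⟩ | ⟨_, h2⟩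
  · have : k * α = q := by rw [h3, one_mul]; exact h2.symm
    rw [this] at h12
    exact tst_spec h12.1.2 hq4 hd12 he12 hE'
  · rw [← h2] at h12
    exact tst_spec h12.1.1 hq4 hd12 he12 hE'
  · have : k * α - 1 = q := by omega
    rw [this] at h12
    exact tst_spec h12.2 hq4 hd12 he12 hE'

/-! ### `(PSL(2,q), PSL(2,r), A_n)` -/

def noq2 (D : ℕ) (ok : ℕ → Bool) : Bool :=
  let c := cb 400 D 0
  decide (c ^ 3 ≤ D) && decide (D < (c + 1) ^ 3) &&
    (ok (c + 1) || decide ((c + 1) ^ 3 ≠ D + (c + 1)))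

theorem noq2_spec {D : ℕ} {ok : ℕ → Bool} (h : noq2 D ok = true) {q : ℕ} (hq : 1 ≤ q)
    (hD : D + q = q ^ 3) : ok q = true := by
  unfold noq2 at h
  simp only [Bool.and_eq_true, Bool.or_eq_true, decide_eq_true_eq] at h
  obtain ⟨⟨h1, h2⟩, h3⟩ := h
  set c := cb 400 D 0 with hc
  have h4 : c < q := by
    by_contra hcon
    push Not at hcon
    have : q ^ 3 ≤ c ^ 3 := Nat.pow_le_pow_left hcon 3
    omega
  have h5 : q - 1 < c + 1 := by
    by_contra hcon
    push Not at hcon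
    have h6 : (c + 1) ^ 3 ≤ (q - 1) ^ 3 := Nat.pow_le_pow_left hcon 3
    obtain ⟨r, rfl⟩ : ∃ r, q = r + 1 := ⟨q - 1, by omega⟩
    simp only [Nat.add_sub_cancel] at h6
    nlinarith [Nat.zero_le (r ^ 2)]
  have h6 : q = c + 1 := by omega
  rcases h3 with h3 | h3
  · rw [h6]; exact h3
  · exfalso; apply h3; rw [← h6]; omega

def chkPPA : Bool := (List.range 162).all fun n0 => (List.range 165).all fun p0 =>
  if p0 ≤ n0 + 3 then
    if (n0 + 5)! / 2 < ((p0 + 2) ^ ((n0 + 4) / (p0 + 1))) ^ 6 then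
      (List.range ((n0 + 4) / (p0 + 1) + 1)).all fun j =>
        if (n0 + 5)! / 2 < ((p0 + 2) ^ j) ^ 6 then
          if (n0 + 5)! / 2 % ((p0 + 2) ^ j * ((p0 + 2) ^ j - 1) * ((p0 + 2) ^ j + 1) /
              Nat.gcd 2 ((p0 + 2) ^ j - 1)) = 0 then
            noq2 ((n0 + 5)! / 2 / ((p0 + 2) ^ j * ((p0 + 2) ^ j - 1) * ((p0 + 2) ^ j + 1) /
              Nat.gcd 2 ((p0 + 2) ^ j - 1)))
              (fun c => decide (c < 4) || decide (c % 2 = 1) ||
                (decide (n0 = 4) && decide ((p0 + 2) ^ j = 9) && decide (c = 8))) &&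
            noq2 (2 * ((n0 + 5)! / 2 / ((p0 + 2) ^ j * ((p0 + 2) ^ j - 1) * ((p0 + 2) ^ j + 1) /
              Nat.gcd 2 ((p0 + 2) ^ j - 1))))
              (fun c => decide (c < 4) || decide (c % 2 = 0) ||
                (decide (n0 = 4) && decide ((p0 + 2) ^ j = 8) && decide (c = 9)))
          else true
        else true
    else true
  else true

theorem chkPPA_ok : chkPPA = true := by decide +kernel

theorem ppa_aux {n q d Q r e R : ℕ} (hn : 5 ≤ n) (hq : PData q d Q) (hr : PData r e R)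
    (h : 2 * (Q * R) = n !) (hle : R ≤ Q) :
    n = 9 ∧ ((q = 9 ∧ r = 8) ∨ (q = 8 ∧ r = 9)) := by
  obtain ⟨p1, hp1, hc1⟩ := hq.cube
  obtain ⟨p2, hp2, hc2⟩ := hr.cube
  have hn166 := both_large hp1 hp2 (by omega) hc1 hc2 h
  have hq4 := hq.q4
  have hr4 := hr.q4
  obtain ⟨p, j, hp, hj, hpj⟩ := (isPrimePow_nat_iff q).1 hq.pp
  have hQR : n ! / 2 = Q * R := by omega
  have hqQ : q ∣ Q := by
    have hpq : p ∣ q := by rw [← hpj]; exact dvd_pow_self p (by omega)
    rcases hq.ppart hp with ⟨_, h2⟩ | ⟨h1, _⟩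
    · rw [← h2]; exact Nat.ordProj_dvd Q p
    · exact absurd hpq h1
  have hqn : q ∣ n ! := hqQ.trans ⟨2 * R, by rw [← h]; ring⟩
  have hpn : p ≤ n := by
    have : p ∣ n ! := (dvd_pow_self p (by omega : j ≠ 0)).trans (hpj ▸ hqn)
    exact (hp.dvd_factorial).1 this
  have hp2' := hp.two_le
  have hJ : j ≤ (n - 1) / (p - 1) := by
    have : Fact p.Prime := ⟨hp⟩
    have h1 := sub_one_mul_padicValNat_factorial_lt_of_ne_zero p (n := n) (by omega)
    rw [← Nat.factorization_def _ hp] at h1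
    have h2 : j ≤ (n !).factorization p :=
      (hp.pow_dvd_iff_le_factorization (Nat.factorial_ne_zero n)).1 (hpj ▸ hqn)
    rw [Nat.le_div_iff_mul_le (by omega)]
    calc j * (p - 1) ≤ (n !).factorization p * (p - 1) := Nat.mul_le_mul_right _ h2
      _ = (p - 1) * (n !).factorization p := mul_comm _ _
      _ ≤ n - 1 := by omega
  have hNq : n ! / 2 < q ^ 6 := by
    rw [hQR]
    have h1 := hq.lt
    calc Q * R ≤ Q * Q := Nat.mul_le_mul_left _ hle
      _ < q ^ 3 * q ^ 3 := Nat.mul_lt_mul'' h1 h1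
      _ = q ^ 6 := by ring
  have hNJ : n ! / 2 < (p ^ ((n - 1) / (p - 1))) ^ 6 := by
    refine lt_of_lt_of_le hNq (Nat.pow_le_pow_left ?_ 6)
    rw [← hpj]
    exact Nat.pow_le_pow_right hp.pos hJ
  have h4 := chkPPA_ok
  unfold chkPPA at h4
  rw [List.all_eq_true] at h4
  have h5 := h4 (n - 5) (List.mem_range.2 (by omega))
  rw [List.all_eq_true] at h5
  have h6 := h5 (p - 2) (List.mem_range.2 (by omega))
  have e1 : n - 5 + 5 = n := by omega
  have e2 : n - 5 + 4 = n - 1 := by omega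
  have e3 : p - 2 + 1 = p - 1 := by omega
  have e4 : p - 2 + 2 = p := by omega
  rw [e1, e2, e3, e4, if_pos (by omega), if_pos hNJ, List.all_eq_true] at h6
  have h7 := h6 j (List.mem_range.2 (by omega))
  have hQd : q * (q - 1) * (q + 1) / Nat.gcd 2 (q - 1) = Q := by
    rw [← hq.hd, ← hq.hQ]
    exact Nat.mul_div_cancel _ (by rcases hq.d12 with h | h <;> omega)
  rw [hpj, if_pos hNq, hQd, hQR, if_pos (Nat.mul_mod_right Q R),
    Nat.mul_div_cancel_left R (Nat.pos_of_ne_zero hq.Qpos), Bool.and_eq_true] at h7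
  have h8 := hr.eqZ
  rcases hr.d12 with h9 | h9
  · rw [h9, mul_one] at h8
    have h10 := noq2_spec h7.1 (by omega) h8
    simp only [Bool.or_eq_true, Bool.and_eq_true, decide_eq_true_eq] at h10
    have h11 := hr.even.2 h9
    rcases h10 with (h10 | h10) | ⟨⟨h10, h12⟩, h13⟩
    · omega
    · omega
    · exact ⟨by omega, Or.inl ⟨h12, h13⟩⟩
  · rw [h9, mul_comm] at h8
    have h10 := noq2_spec h7.2 (by omega) h8
    simp only [Bool.or_eq_true, Bool.and_eq_true, decide_eq_true_eq] at h10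
    have h11 : ¬ 2 ∣ r := fun h => by
      have := hr.even.1 h
      omega
    rcases h10 with (h10 | h10) | ⟨⟨h10, h12⟩, h13⟩
    · omega
    · omega
    · exact ⟨by omega, Or.inr ⟨h12, h13⟩⟩

theorem ppa {n q d Q r e R : ℕ} (hn : 5 ≤ n) (hq : PData q d Q) (hr : PData r e R)
    (h : 2 * (Q * R) = n !) : n = 9 ∧ ((q = 9 ∧ r = 8) ∨ (q = 8 ∧ r = 9)) := by
  rcases Nat.le_total R Q with hle | hle
  · exact ppa_aux hn hq hr h hle
  · obtain ⟨h1, h2⟩ := ppa_aux hn hr hq (by rw [← h]; ring) hle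
    exact ⟨h1, by tauto⟩

end Pool.Agent.V8H48.OP
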