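import Mathlib
import Pool.Agent.V8H48.OP.Defs

set_option autoImplicit false

namespace Pool.Agent.V8H48.OP

open Nat

/-- `X` is isomorphic to `PSL_2(F)` for a finite field `F` with at least four elements -/
def IsPSL2 (X : Type) [Group X] : Prop :=
  ∃ (F : Type) (_ : Field F), Finite F ∧ 4 ≤ Nat.card F ∧
    Nonempty (X ≃* Matrix.ProjectiveSpecialLinearGroup (Fin 2) F)

/-- the orders `(|A_n|, n + 1, |A_{n+1}|)`, `n ≥ 5`, and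
`(|A_{q-2}|, |PSL_2(q)|, |A_{q+1}|)`, `q = 2^f ≥ 8` -/
def Known (a b c : ℕ) : Prop :=
  (∃ n : ℕ, 5 ≤ n ∧ a = n ! / 2 ∧ b = n + 1 ∧ c = (n + 1)! / 2) ∨
  (∃ f : ℕ, 3 ≤ f ∧ a = (2 ^ f - 2)! / 2 ∧ b = 2 ^ f * (4 ^ f - 1) ∧ c = (2 ^ f + 1)! / 2)

end Pool.Agent.V8H48.OP
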