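import Mathlib
import Pool.Agent.V8H48.OP.PDefs
import Pool.Agent.V8H48.OP.P5

set_option autoImplicit false

namespace Pool.Agent.V8H48.OP

open Nat

theorem IsPSL2.data {X : Type} [Group X] [Finite X] (h : IsPSL2 X) :
    ∃ q d, PData q d (Nat.card X) := by
  classical
  obtain ⟨F, hF, hfin, h4, ⟨e⟩⟩ := h
  have : Fintype F := Fintype.ofFinite F
  refine ⟨Nat.card F, _, ⟨?_, h4, rfl, ?_⟩⟩
  · rw [Nat.card_eq_fintype_card]; exact FiniteField.isPrimePow_card F
  · rw [Nat.card_congr e.toEquiv]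
    exact card_PSL2 F

theorem IsAlt.data {X : Type} [Group X] (h : IsAlt X) :
    ∃ n, 5 ≤ n ∧ 2 * Nat.card X = n ! ∧
      Nat.card X = Nat.card (alternatingGroup (Fin n)) := by
  obtain ⟨n, hn, ⟨e⟩⟩ := h
  refine ⟨n, hn, ?_, Nat.card_congr e.toEquiv⟩
  rw [Nat.card_congr e.toEquiv]
  exact two_card_alt (by omega)

theorem two_dvd_fact {n : ℕ} (hn : 2 ≤ n) : 2 ∣ n ! := Nat.dvd_factorial (by norm_num) hn

theorem known_mul {a b c : ℕ} (h : Known a b c) : a * b = c := by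
  rcases h with ⟨n, hn, rfl, rfl, rfl⟩ | ⟨f, hf, rfl, rfl, rfl⟩
  · obtain ⟨u, hu⟩ := two_dvd_fact (n := n) (by omega)
    rw [Nat.factorial_succ, hu]
    have e1 : 2 * u / 2 = u := by omega
    have e2 : (n + 1) * (2 * u) / 2 = (n + 1) * u := by
      have : (n + 1) * (2 * u) = 2 * ((n + 1) * u) := by ring
      rw [this]; omega
    rw [e1, e2]; ring
  · have h8 : 8 ≤ 2 ^ f := by
      calc 8 = 2 ^ 3 := by norm_num
        _ ≤ 2 ^ f := Nat.pow_le_pow_right (by norm_num) hf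
    obtain ⟨m, hm⟩ : ∃ m, 2 ^ f = m + 2 := ⟨2 ^ f - 2, by omega⟩
    have h4 : 4 ^ f = (m + 2) ^ 2 := by
      have : (4 : ℕ) = 2 ^ 2 := by norm_num
      rw [this, ← pow_mul, mul_comm, pow_mul, hm]
    rw [h4, hm]
    have e0 : m + 2 - 2 = m := by omega
    have e1 : (m + 2) ^ 2 - 1 = (m + 1) * (m + 3) := by
      have : (m + 2) ^ 2 = (m + 1) * (m + 3) + 1 := by ring
      omega
    rw [e0, e1]
    obtain ⟨u, hu⟩ := two_dvd_fact (n := m) (by omega)
    have e2 : (m + 2 + 1)! = 2 * ((m + 3) * (m + 2) * (m + 1) * u) := by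
      rw [Nat.factorial_succ, Nat.factorial_succ, Nat.factorial_succ, hu]; ring
    rw [e2, hu]
    have e3 : 2 * u / 2 = u := by omega
    have e4 : 2 * ((m + 3) * (m + 2) * (m + 1) * u) / 2 = (m + 3) * (m + 2) * (m + 1) * u := by
      omega
    rw [e3, e4]; ring

theorem apa_known {m n q d a Q g : ℕ} (hm : 5 ≤ m) (hq : PData q d Q)
    (ha : a = Nat.card (alternatingGroup (Fin m))) (hg : g = Nat.card (alternatingGroup (Fin n)))
    (hn : 5 ≤ n) (h : a * Q = g) : Known a Q g := by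
  have h2m := two_card_alt (n := m) (by omega)
  have h2n := two_card_alt (n := n) (by omega)
  rw [← ha] at h2m
  rw [← hg] at h2n
  have h1 := h
  rw [ha, hg] at h1
  rcases apa hm hq h1 with ⟨h3, h4⟩ | ⟨h3, h4, h5⟩
  · left
    refine ⟨m, hm, by omega, by omega, ?_⟩
    rw [← h3]; omega
  · right
    obtain ⟨ℓ, k, hℓ, hk, hℓk⟩ := (isPrimePow_nat_iff q).1 hq.pp
    rw [← hℓk] at h3
    have := (Nat.prime_dvd_prime_iff_eq Nat.prime_two hℓ).1 (Nat.prime_two.dvd_of_dvd_pow h3)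
    subst this
    have hk3 : 3 ≤ k := by
      by_contra hcon
      push Not at hcon
      have : 2 ^ k ≤ 2 ^ 2 := Nat.pow_le_pow_right (by norm_num) (by omega)
      omega
    have hd1 := hq.even.1 (by rw [← hℓk]; exact dvd_pow_self 2 (by omega))
    have hQ := hq.hQ
    rw [hd1, mul_one] at hQ
    refine ⟨k, hk3, ?_, ?_, ?_⟩
    · rw [hℓk, ← h4]
      have : m + 2 - 2 = m := by omega
      rw [this]; omega
    · rw [hQ, ← hℓk]
      have e1 : 4 ^ k = (2 ^ k) ^ 2 := by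
        have : (4 : ℕ) = 2 ^ 2 := by norm_num
        rw [this, ← pow_mul, ← pow_mul, mul_comm]
      rw [e1]
      obtain ⟨r, hr⟩ : ∃ r, 2 ^ k = r + 1 := ⟨2 ^ k - 1, by
        have : 0 < 2 ^ k := by positivity
        omega⟩
      rw [hr]
      have e2 : (r + 1) ^ 2 - 1 = r * (r + 2) := by
        have : (r + 1) ^ 2 = r * (r + 2) + 1 := by ring
        omega
      have e3 : r + 1 - 1 = r := by omega
      rw [e2, e3]; ring
    · rw [hℓk, ← h5]; omega

theorem fwd (M N G : Type) [Group M] [Group N] [Group G] [Finite M] [Finite N] [Finite G]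
    (hM : IsAlt M ∨ IsPSL2 M) (hN : IsAlt N ∨ IsPSL2 N) (hG : IsAlt G ∨ IsPSL2 G)
    (h1 : IsPSL2 M ∨ IsPSL2 N ∨ IsPSL2 G)
    (h : Nat.card M * Nat.card N = Nat.card G) :
    ¬ IsPSL2 G ∧ (Known (Nat.card M) (Nat.card N) (Nat.card G) ∨
      Known (Nat.card N) (Nat.card M) (Nat.card G)) := by
  -- G of type PSL2 is impossible
  have noG : ¬ IsPSL2 G := by
    intro hG2
    obtain ⟨s, f, hs⟩ := hG2.data
    rcases hM with hM | hM <;> rcases hN with hN | hN
    · obtain ⟨m, hm, h2, _⟩ := hM.data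
      obtain ⟨n, hn, h3, _⟩ := hN.data
      exact aap hm hn hs (by rw [← h, ← h2, ← h3]; ring)
    · obtain ⟨m, hm, h2, _⟩ := hM.data
      obtain ⟨q, d, hq⟩ := hN.data
      exact app hm hq hs (by rw [← h, ← h2]; ring)
    · obtain ⟨m, hm, h2, _⟩ := hN.data
      obtain ⟨q, d, hq⟩ := hM.data
      exact app hm hq hs (by rw [← h, ← h2]; ring)
    · obtain ⟨q, d, hq⟩ := hM.data
      obtain ⟨r, e, hr⟩ := hN.data
      exact ppp hq hr hs h
  refine ⟨noG, ?_⟩
  have hGa : IsAlt G := hG.resolve_right noG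
  obtain ⟨n, hn, h2, h3⟩ := hGa.data
  -- one of M, N alternating, the other PSL2
  have k1 : IsAlt M → IsPSL2 N → Known (Nat.card M) (Nat.card N) (Nat.card G) := by
    intro hM hN
    obtain ⟨m, hm, _, h5⟩ := hM.data
    obtain ⟨q, d, hq⟩ := hN.data
    exact apa_known hm hq h5 h3 hn h
  have k2 : IsAlt N → IsPSL2 M → Known (Nat.card N) (Nat.card M) (Nat.card G) := by
    intro hN hM
    obtain ⟨m, hm, _, h5⟩ := hN.data
    obtain ⟨q, d, hq⟩ := hM.data
    exact apa_known hm hq h5 h3 hn (by rw [mul_comm]; exact h)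
  rcases hM with hM | hM <;> rcases hN with hN | hN
  · rcases h1 with h1 | h1 | h1
    · exact Or.inr (k2 hN h1)
    · exact Or.inl (k1 hM h1)
    · exact absurd h1 noG
  · exact Or.inl (k1 hM hN)
  · exact Or.inr (k2 hN hM)
  · obtain ⟨q, d, hq⟩ := hM.data
    obtain ⟨r, e, hr⟩ := hN.data
    obtain ⟨h5, h6⟩ := ppa hn hq hr (by rw [h, h2])
    have hQ := hq.hQ
    have hR := hr.hQ
    have hqd := hq.hd
    have hrd := hr.hd
    have c9 : Nat.card G = 9 ! / 2 := by rw [← h5]; omega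
    rcases h6 with ⟨h7, h8⟩ | ⟨h7, h8⟩
    · left; right
      rw [h7] at hQ hqd
      rw [h8] at hR hrd
      have hd2 : d = 2 := by rw [hqd]; decide
      have he1 : e = 1 := by rw [hrd]; decide
      rw [hd2] at hQ
      rw [he1] at hR
      refine ⟨3, le_refl 3, ?_, ?_, ?_⟩
      · have : (2 ^ 3 - 2)! / 2 = 360 := by decide
        omega
      · omega
      · rw [c9]; norm_num
    · right; right
      rw [h7] at hQ hqd
      rw [h8] at hR hrd
      have hd1 : d = 1 := by rw [hqd]; decide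
      have he2 : e = 2 := by rw [hrd]; decide
      rw [hd1] at hQ
      rw [he2] at hR
      refine ⟨3, le_refl 3, ?_, ?_, ?_⟩
      · have : (2 ^ 3 - 2)! / 2 = 360 := by decide
        omega
      · omega
      · rw [c9]; norm_num

theorem main (M N G : Type) [Group M] [Group N] [Group G] [Finite M] [Finite N] [Finite G]
    (hM : IsAlt M ∨ IsPSL2 M) (hN : IsAlt N ∨ IsPSL2 N) (hG : IsAlt G ∨ IsPSL2 G)
    (h1 : IsPSL2 M ∨ IsPSL2 N ∨ IsPSL2 G) :
    Nat.card M * Nat.card N = Nat.card G ↔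
    ¬ IsPSL2 G ∧ (Known (Nat.card M) (Nat.card N) (Nat.card G) ∨
      Known (Nat.card N) (Nat.card M) (Nat.card G)) := by
  constructor
  · exact fwd M N G hM hN hG h1
  · rintro ⟨_, h | h⟩
    · exact known_mul h
    · rw [mul_comm]; exact known_mul h

end Pool.Agent.V8H48.OP
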