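import Mathlib
import Pool.Agent.V8H48.OP.Main

set_option autoImplicit false

namespace Pool.Agent.V8H48.OP

open Nat

theorem CubeSylow.one_lt {M : Type} [Group M] [Finite M] (h : CubeSylow M) : 1 < Nat.card M := by
  obtain ⟨p, hp, hc⟩ := cubeSylow_iff.1 h
  by_contra hcon
  have h0 : 0 < Nat.card M := Nat.card_pos
  have h1 : Nat.card M = 1 := by omega
  rw [h1] at hc
  simp at hc

theorem card_le_of_le {n k : ℕ} (h : n ≤ k) (hn : 2 ≤ n) :
    Nat.card (alternatingGroup (Fin n)) ≤ k ! / 2 := by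
  have h1 := two_card_alt hn
  have h2 := Nat.factorial_le h
  omega

theorem asm (M N G : Type) [Group M] [Group N] [Group G] [Finite M] [Finite N] [Finite G]
    (h : Nat.card M * Nat.card N = Nat.card G)
    (hc : (CubeSylow M ∧ (IsAlt N ∨ CubeSylow N) ∧ IsAlt G) ∨
      (IsAlt M ∧ IsAlt N ∧ CubeSylow G)) :
    (∃ m t : ℕ, 5 ≤ m ∧ 1 ≤ t ∧ t ≤ 3 ∧ Nonempty (N ≃* alternatingGroup (Fin m)) ∧
      Nonempty (G ≃* alternatingGroup (Fin (m + t)))) ∨
    Nat.card G ≤ 517 ! / 2 := by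
  rcases hc with ⟨hM, hN | hN, n, hn, ⟨eG⟩⟩ | ⟨⟨m, hm, ⟨eM⟩⟩, ⟨n, hn, ⟨eN⟩⟩, hG⟩
  · obtain ⟨m, hm, ⟨eN⟩⟩ := hN
    have h1 : Nat.card (alternatingGroup (Fin m)) * Nat.card M =
        Nat.card (alternatingGroup (Fin n)) := by
      rw [← Nat.card_congr eN.toEquiv, ← Nat.card_congr eG.toEquiv, ← h, mul_comm]
    have h2 := part1 m n M hm hM h1
    obtain ⟨t, rfl, ht⟩ := alt_eq hm Nat.card_pos h1
    rcases Nat.lt_or_ge 3 t with h3 | h3
    · right
      rw [Nat.card_congr eG.toEquiv]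
      apply card_le_of_le _ (by omega)
      omega
    · left
      refine ⟨m, t, hm, ?_, h3, ⟨eN⟩, ⟨eG⟩⟩
      by_contra hcon
      have : t = 0 := by omega
      subst this
      have h4 := hM.one_lt
      rw [← ht] at h4
      simp [A] at h4
  · right
    have h1 : Nat.card M * Nat.card N = Nat.card (alternatingGroup (Fin n)) := by
      rw [← Nat.card_congr eG.toEquiv, ← h]
    have h2 := part2 n M N hM hN h1
    rw [Nat.card_congr eG.toEquiv]
    exact card_le_of_le (by omega) (by omega)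
  · right
    have h1 : Nat.card (alternatingGroup (Fin m)) * Nat.card (alternatingGroup (Fin n)) =
        Nat.card G := by
      rw [← Nat.card_congr eM.toEquiv, ← Nat.card_congr eN.toEquiv, ← h]
    obtain ⟨h2, h3⟩ := part3 m n G hm hn hG h1
    rw [← h1]
    have h4 := card_le_of_le (k := 22) h2 (by omega)
    have h5 := card_le_of_le (k := 22) h3 (by omega)
    calc _ ≤ (22 ! / 2) * (22 ! / 2) := Nat.mul_le_mul h4 h5
      _ ≤ 517 ! / 2 := by
        have h6 : (22 ! / 2) * (22 ! / 2) ≤ 60 ! / 2 := by decide +kernel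
        have h7 : 60 ! ≤ 517 ! := Nat.factorial_le (by norm_num)
        omega

end Pool.Agent.V8H48.OP
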