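import Mathlib
import Pool.Agent.V8H48.OP.P4

set_option autoImplicit false

namespace Pool.Agent.V8H48.OP

open Nat

/-- a divisor is equal, or at most half -/
theorem dvd_cases {Q n : ℕ} (hn : 0 < n) (h : Q ∣ n) : Q = n ∨ 2 * Q ≤ n := by
  obtain ⟨k, hk⟩ := h
  rcases Nat.lt_or_ge k 2 with h2 | h2
  · left
    have : k = 0 ∨ k = 1 := by omega
    rcases this with rfl | rfl
    · rw [mul_zero] at hk; omega
    · rw [hk, mul_one]
  · right
    rw [hk]
    calc 2 * Q ≤ k * Q := Nat.mul_le_mul_right _ h2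
      _ = Q * k := mul_comm _ _

theorem t3 {m p a : ℕ} (hm : 5 ≤ m) (hp : p.Prime) (ha : A m 3 = a)
    (hc : a < (p ^ a.factorization p) ^ 3) :
    p ^ a.factorization p = m + 2 ∨ (p ≠ 2 ∧ p ^ a.factorization p = m + 3) ∨
      (p = 2 ∧ (p ^ a.factorization p = 2 * (m + 1) ∨ p ^ a.factorization p = 2 * (m + 3))) := by
  have e3 : A m 3 = (m + 1) * (m + 2) * (m + 3) := by
    simp [A, Nat.ascFactorial]
    ring
  obtain ⟨v, hv⟩ : ∃ v, v = a.factorization p := ⟨_, rfl⟩
  obtain ⟨Q, hQ⟩ : ∃ Q, Q = p ^ v := ⟨_, rfl⟩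
  rw [← hv, ← hQ] at hc ⊢
  have ha0 : a ≠ 0 := by rw [← ha]; exact (A_pos m 3).ne'
  have hQa : Q ∣ a := by rw [hQ, hv]; exact Nat.ordProj_dvd a p
  rw [← ha, e3] at hQa hc
  -- `Q` is not too small
  have big : ¬ 2 * Q ≤ m + 3 := by
    intro h1
    have h2 : (2 * Q) ^ 3 ≤ (m + 3) ^ 3 := Nat.pow_le_pow_left h1 3
    have h3 : (m + 3) ^ 3 ≤ 8 * ((m + 1) * (m + 2) * (m + 3)) := by nlinarith
    have h4 : (2 * Q) ^ 3 = 8 * Q ^ 3 := by ring
    omega
  have nm1 : Q ≠ m + 1 := by
    rintro h1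
    rw [h1] at hc
    nlinarith
  have hc1 : Nat.Coprime (m + 2) (m + 3) := cop (m + 2)
  have hc2 : Nat.Coprime (m + 2) (m + 1) := (cop (m + 1)).symm
  by_cases h2 : p ∣ m + 2
  · -- then `p` does not divide `m + 1` and `m + 3`
    left
    have hcop : Nat.Coprime Q ((m + 1) * (m + 3)) := by
      rw [hQ]
      apply Nat.Coprime.pow_left
      exact (Nat.Coprime.mul_right hc2 hc1).coprime_dvd_left h2
    have h3 : Q ∣ m + 2 := by
      apply hcop.dvd_of_dvd_mul_right
      have : (m + 2) * ((m + 1) * (m + 3)) = (m + 1) * (m + 2) * (m + 3) := by ring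
      rw [this]; exact hQa
    rcases dvd_cases (by omega) h3 with h4 | h4
    · exact h4
    · omega
  · right
    have hcop : Nat.Coprime Q (m + 2) := by
      rw [hQ]
      exact Nat.Coprime.pow_left _ ((Nat.Prime.coprime_iff_not_dvd hp).2 h2)
    have h3 : Q ∣ (m + 1) * (m + 3) := by
      apply hcop.dvd_of_dvd_mul_left
      have : (m + 2) * ((m + 1) * (m + 3)) = (m + 1) * (m + 2) * (m + 3) := by ring
      rw [this]; exact hQa
    by_cases hp2 : p = 2
    · right
      refine ⟨hp2, ?_⟩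
      subst hp2
      obtain ⟨u, hu⟩ : ∃ u, m + 1 = 2 * u := ⟨(m + 1) / 2, by omega⟩
      have hu3 : m + 3 = 2 * (u + 1) := by omega
      have hv2 : 2 ≤ v := by
        rw [hv]
        apply (Nat.prime_two.pow_dvd_iff_le_factorization ha0).1
        rw [← ha, e3, hu, hu3]
        exact ⟨u * (m + 2) * (u + 1), by ring⟩
      obtain ⟨w, rfl⟩ : ∃ w, v = w + 1 := ⟨v - 1, by omega⟩
      have h5 : 2 ^ w ∣ 2 * u * (u + 1) := by
        rw [hQ, hu, hu3, pow_succ] at h3
        have : 2 * u * (2 * (u + 1)) = (2 * u * (u + 1)) * 2 := by ring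
        rw [this] at h3
        exact Nat.dvd_of_mul_dvd_mul_right (by norm_num) h3
      have hQw : Q = 2 * 2 ^ w := by rw [hQ, pow_succ]; ring
      -- exactness: `Q = 2 * 2 ^ w`, and `2 ^ w` is the full 2-part of its multiple
      have hex : ¬ 2 ^ (w + 2) ∣ a := by
        have := Nat.pow_succ_factorization_not_dvd ha0 Nat.prime_two
        rwa [← hv] at this
      have kk : ∀ z : ℕ, 0 < z → 2 ^ w ∣ z → 2 * z ∣ a → z ≤ m + 3 → 2 ^ w = z := by
        intro z hz hdz hza hzm
        obtain ⟨k, hk⟩ := hdz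
        by_cases hk2 : 2 ∣ k
        · exfalso
          apply hex
          obtain ⟨k', rfl⟩ := hk2
          refine Dvd.dvd.trans ?_ hza
          rw [hk, pow_succ, pow_succ]
          exact ⟨k', by ring⟩
        · rcases Nat.lt_or_ge k 2 with h6 | h6
          · have : k = 1 := by omega
            rw [hk, this, mul_one]
          · exfalso
            have h7 : 3 ≤ k := by omega
            have h8 : 2 ^ w * 3 ≤ z := by rw [hk]; exact Nat.mul_le_mul_left _ h7
            -- Q = 2 * 2^w ≤ 2 (m+3) / 3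
            have h9 : 3 * Q ≤ 2 * (m + 3) := by omega
            have h10 : (3 * Q) ^ 3 ≤ (2 * (m + 3)) ^ 3 := Nat.pow_le_pow_left h9 3
            have h11 : (2 * (m + 3)) ^ 3 ≤ 27 * ((m + 1) * (m + 2) * (m + 3)) := by nlinarith
            have h12 : (3 * Q) ^ 3 = 27 * Q ^ 3 := by ring
            omega
      rcases pow2_dvd h5 with h6 | h6
      · left
        rw [← hu] at h6
        have h7 := kk (m + 1) (by omega) h6 (by
          rw [← ha, e3, hu3]; exact ⟨(m + 2) * (u + 1), by ring⟩) (by omega)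
        omega
      · right
        rw [← hu3] at h6
        have h7 := kk (m + 3) (by omega) h6 (by
          rw [← ha, e3, hu]; exact ⟨u * (m + 2), by ring⟩) (by omega)
        omega
    · left
      refine ⟨hp2, ?_⟩
      by_cases h9 : p ∣ m + 1
      · exfalso
        have h10 : ¬ p ∣ m + 3 := by
          intro h11
          have h12 := (Nat.dvd_sub h11 h9)
          have h13 : m + 3 - (m + 1) = 2 := by omega
          rw [h13] at h12
          exact hp2 ((Nat.prime_dvd_prime_iff_eq hp Nat.prime_two).1 h12)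
        have h13 : Q ∣ m + 1 := by
          apply Nat.Coprime.dvd_of_dvd_mul_right _ h3
          rw [hQ]
          exact Nat.Coprime.pow_left _ ((Nat.Prime.coprime_iff_not_dvd hp).2 h10)
        rcases dvd_cases (by omega) h13 with h14 | h14
        · exact nm1 h14
        · omega
      · have h13 : Q ∣ m + 3 := by
          apply Nat.Coprime.dvd_of_dvd_mul_left _ h3
          rw [hQ]
          exact Nat.Coprime.pow_left _ ((Nat.Prime.coprime_iff_not_dvd hp).2 h9)
        rcases dvd_cases (by omega) h13 with h14 | h14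
        · exact h14
        · omega

theorem t3_group (m : ℕ) (M : Type) [Group M] [Finite M] (hm : 5 ≤ m) (p : ℕ) (hp : p.Prime)
    (P : Sylow p M) (hP : Nat.card M < Nat.card P ^ 3)
    (h : Nat.card (alternatingGroup (Fin m)) * Nat.card M =
      Nat.card (alternatingGroup (Fin (m + 3)))) :
    Nat.card P = m + 2 ∨ (p ≠ 2 ∧ Nat.card P = m + 3) ∨
      (p = 2 ∧ (Nat.card P = 2 * (m + 1) ∨ Nat.card P = 2 * (m + 3))) := by
  have : Fact p.Prime := ⟨hp⟩
  rw [Sylow.card_eq_multiplicity] at *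
  obtain ⟨t, ht1, ht2⟩ := alt_eq hm Nat.card_pos h
  have : t = 3 := by omega
  subst this
  exact t3 hm hp ht2 hP

end Pool.Agent.V8H48.OP
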