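import Mathlib
import Pool.Agent.V8H48.OP.Asm
import Pool.Agent.V8H48.OP.T3

set_option autoImplicit false

namespace Pool.Agent.V8H48.OP

open Nat

theorem asm2 (M N G : Type) [Group M] [Group N] [Group G] [Finite M] [Finite N] [Finite G]
    (h : Nat.card M * Nat.card N = Nat.card G)
    (hc : (CubeSylow M ∧ (IsAlt N ∨ CubeSylow N) ∧ IsAlt G) ∨
      (IsAlt M ∧ IsAlt N ∧ CubeSylow G)) :
    (∃ m : ℕ, 5 ≤ m ∧ Nonempty (N ≃* alternatingGroup (Fin m)) ∧
      (Nonempty (G ≃* alternatingGroup (Fin (m + 1))) ∨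
       Nonempty (G ≃* alternatingGroup (Fin (m + 2))) ∨
       (Nonempty (G ≃* alternatingGroup (Fin (m + 3))) ∧
        ∃ p : ℕ, p.Prime ∧ ∃ P : Sylow p M, Nat.card P = m + 2 ∨
          (p ≠ 2 ∧ Nat.card P = m + 3) ∨
          (p = 2 ∧ (Nat.card P = 2 * (m + 1) ∨ Nat.card P = 2 * (m + 3)))))) ∨
    Nat.card G ≤ 517 ! / 2 := by
  by_cases hG : Nat.card G ≤ 517 ! / 2
  · exact Or.inr hG
  · left
    rcases asm M N G h hc with ⟨m, t, hm, ht1, ht3, ⟨eN⟩, ⟨eG⟩⟩ | h1
    · refine ⟨m, hm, ⟨eN⟩, ?_⟩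
      have ht : t = 1 ∨ t = 2 ∨ t = 3 := by omega
      rcases ht with rfl | rfl | rfl
      · exact Or.inl ⟨eG⟩
      · exact Or.inr (Or.inl ⟨eG⟩)
      · refine Or.inr (Or.inr ⟨⟨eG⟩, ?_⟩)
        have hM : CubeSylow M := by
          rcases hc with ⟨hM, _, _⟩ | ⟨⟨a, ha, ⟨eM⟩⟩, ⟨b, hb, ⟨eN'⟩⟩, hG'⟩
          · exact hM
          · exfalso
            have h1 : Nat.card (alternatingGroup (Fin a)) * Nat.card (alternatingGroup (Fin b)) =
                Nat.card G := by
              rw [← Nat.card_congr eM.toEquiv, ← Nat.card_congr eN'.toEquiv, ← h]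
            obtain ⟨h2, h3⟩ := part3 a b G ha hb hG' h1
            apply hG
            rw [← h1]
            have h4 := card_le_of_le (k := 22) h2 (by omega)
            have h5 := card_le_of_le (k := 22) h3 (by omega)
            calc _ ≤ (22 ! / 2) * (22 ! / 2) := Nat.mul_le_mul h4 h5
              _ ≤ 517 ! / 2 := by
                have h6 : (22 ! / 2) * (22 ! / 2) ≤ 60 ! / 2 := by decide +kernel
                have h7 : 60 ! ≤ 517 ! := Nat.factorial_le (by norm_num)
                omega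
        obtain ⟨p, hp, P, hP⟩ := hM
        refine ⟨p, hp, P, ?_⟩
        apply t3_group m M hm p hp P hP
        rw [← Nat.card_congr eN.toEquiv, ← Nat.card_congr eG.toEquiv, ← h, mul_comm]
    · exact absurd h1 hG

end Pool.Agent.V8H48.OP
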