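import Mathlib
import Pool.Agent.V8H48.OP.T3

set_option autoImplicit false

namespace Pool.Agent.V8H48.OP

open Nat

/-- `q³ (q² - 1) (q³ - 1)` -/
def f3 (q : ℕ) : ℕ := q ^ 3 * ((q ^ 2 - 1) * (q ^ 3 - 1))

theorem f3_mono {a b : ℕ} (h : a ≤ b) : f3 a ≤ f3 b := by
  unfold f3
  have h2 : a ^ 2 ≤ b ^ 2 := Nat.pow_le_pow_left h 2
  have h3 : a ^ 3 ≤ b ^ 3 := Nat.pow_le_pow_left h 3
  exact Nat.mul_le_mul h3 (Nat.mul_le_mul (Nat.sub_le_sub_right h2 1) (Nat.sub_le_sub_right h3 1))

def rt : ℕ → ℕ → ℕ → ℕ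
  | 0, _, c => c
  | k + 1, D, c => if f3 (c + 2 ^ k) ≤ D then rt k D (c + 2 ^ k) else rt k D c

def nof (D : ℕ) : Bool :=
  let c := rt 14 D 0
  decide (f3 c < D) && decide (D < f3 (c + 1))

theorem nof_spec {D q : ℕ} (h : nof D = true) : D ≠ f3 q := by
  unfold nof at h
  simp only [Bool.and_eq_true, decide_eq_true_eq] at h
  obtain ⟨h1, h2⟩ := h
  set c := rt 14 D 0
  intro hD
  rcases Nat.lt_or_ge c q with h3 | h3
  · have := f3_mono (show c + 1 ≤ q from h3)
    omega
  · have := f3_mono h3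
    omega

def chkT4 : Bool := (List.range 509).all fun i =>
  nof (A (i + 5) 4) && nof (A (i + 5) 4 * 3)

def chkT5 : Bool := (List.range 11).all fun j => (List.range 59).all fun i =>
  nof (A (i + 5) (j + 5)) && nof (A (i + 5) (j + 5) * 3)

theorem chkT4_ok : chkT4 = true := by decide +kernel
theorem chkT5_ok : chkT5 = true := by decide +kernel

theorem finite_check3 {m t q d : ℕ} (hm : 5 ≤ m) (hd : d = 1 ∨ d = 3)
    (h : (t = 4 ∧ m ≤ 513) ∨ (5 ≤ t ∧ t ≤ 15 ∧ m ≤ 63)) : A m t * d ≠ f3 q := by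
  rcases h with ⟨rfl, h1⟩ | ⟨h1, h2, h3⟩
  · have h4 := chkT4_ok
    unfold chkT4 at h4
    rw [List.all_eq_true] at h4
    have h5 := h4 (m - 5) (List.mem_range.2 (by omega))
    rw [Nat.sub_add_cancel hm, Bool.and_eq_true] at h5
    rcases hd with rfl | rfl
    · rw [mul_one]; exact nof_spec h5.1
    · exact nof_spec h5.2
  · have h4 := chkT5_ok
    unfold chkT5 at h4
    rw [List.all_eq_true] at h4
    have h5 := h4 (t - 5) (List.mem_range.2 (by omega))
    rw [List.all_eq_true] at h5
    have h6 := h5 (m - 5) (List.mem_range.2 (by omega))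
    rw [Nat.sub_add_cancel hm, Nat.sub_add_cancel h1, Bool.and_eq_true] at h6
    rcases hd with rfl | rfl
    · rw [mul_one]; exact nof_spec h6.1
    · exact nof_spec h6.2

theorem card_PSL3 (F : Type) [Field F] [Finite F] :
    Nat.card (Matrix.ProjectiveSpecialLinearGroup (Fin 3) F) * Nat.gcd 3 (Nat.card F - 1) =
      f3 (Nat.card F) := by
  have h1 := Subgroup.card_eq_card_quotient_mul_card_subgroup
    (Subgroup.center (Matrix.SpecialLinearGroup (Fin 3) F))
  rw [Pool.Agent.H373SQ.card_center 3 (by omega) F,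
    Pool.Agent.H373SQ.card_SL 3 (by omega) F] at h1
  have h2 : Pool.Agent.H373SQ.numPSL 3 (Nat.card F) = f3 (Nat.card F) := by
    unfold Pool.Agent.H373SQ.numPSL f3
    have : Finset.Icc 2 3 = {2, 3} := by decide
    rw [this, Finset.prod_pair (by norm_num)]
  rw [← h2, h1]

/-- case `t = 2` -/
theorem p3t2 {m q d : ℕ} (hm : 5 ≤ m) (hq : IsPrimePow q) (hd : d = 1 ∨ (d = 3 ∧ 4 ≤ q))
    (hcop : Nat.Coprime q d) (h : A m 2 * d = f3 q) : False := by
  have hq2 : 2 ≤ q := hq.two_le
  have e2 : A m 2 = (m + 1) * (m + 2) := by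
    simp [A, Nat.ascFactorial]
    ring
  rw [e2] at h
  unfold f3 at h
  have hd3 : 1 ≤ d ∧ d ≤ 3 := by omega
  obtain ⟨Q, hQ⟩ : ∃ Q, Q = q ^ 3 := ⟨_, rfl⟩
  obtain ⟨s, hs⟩ : ∃ s, q ^ 2 = s + 1 := ⟨q ^ 2 - 1, by
    have : 1 ≤ q ^ 2 := Nat.one_le_pow _ _ (by omega)
    omega⟩
  have hs3 : 3 ≤ s := by nlinarith
  have hQs : Q = q * (s + 1) := by rw [hQ, ← hs]; ring
  have hQ2s : 2 * (s + 1) ≤ Q := by rw [hQs]; exact Nat.mul_le_mul_right _ hq2
  obtain ⟨R, hR⟩ : ∃ R, Q = R + 1 := ⟨Q - 1, by omega⟩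
  have es : q ^ 2 - 1 = s := by omega
  have eR : q ^ 3 - 1 = R := by omega
  rw [es, eR, ← hQ] at h
  have hcopQ : Nat.Coprime Q d := by rw [hQ]; exact hcop.pow_left 3
  have hdvd : Q ∣ (m + 1) * (m + 2) := by
    apply hcopQ.dvd_of_dvd_mul_right
    rw [h]; exact ⟨s * R, rfl⟩
  have hQpp : IsPrimePow Q := by rw [hQ]; exact hq.pow (by norm_num)
  have hc : Nat.Coprime (m + 1) (m + 2) := cop (m + 1)
  rcases (hc.isPrimePow_dvd_mul hQpp).1 hdvd with ⟨a, ha⟩ | ⟨a, ha⟩
  · -- m + 1 = Q a
    have ha1 : 1 ≤ a := by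
      rcases Nat.eq_zero_or_pos a with h0 | h0
      · rw [h0] at ha; omega
      · exact h0
    have h1 : d * a * (Q * a + 1) = s * R := by
      have : Q * (d * a * (Q * a + 1)) = Q * (s * R) := by
        rw [← h]
        calc Q * (d * a * (Q * a + 1)) = (Q * a) * (Q * a + 1) * d := by ring
          _ = (m + 1) * (m + 2) * d := by rw [← ha]
      exact Nat.eq_of_mul_eq_mul_left (by omega) this
    -- Q divides d a + s
    have h2 : Q ∣ d * a + s := by
      have h3 : d * a * (Q * a + 1) + s = s * Q := by rw [h1, hR]; ring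
      have h4 : Q ∣ d * a * (Q * a + 1) + s := by rw [h3]; exact ⟨s, by ring⟩
      have h5 : d * a * (Q * a + 1) + s = Q * (d * a * a) + (d * a + s) := by ring
      rw [h5] at h4
      exact (Nat.dvd_add_right ⟨_, rfl⟩).1 h4
    have h3 : Q ≤ d * a + s := Nat.le_of_dvd (by omega) h2
    have h4 : s < d * a := by omega
    have h5 : R < Q * a + 1 := by
      have : Q * 1 ≤ Q * a := Nat.mul_le_mul_left _ ha1
      omega
    have h6 : s * R < d * a * (Q * a + 1) := Nat.mul_lt_mul'' h4 h5
    omega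
  · -- m + 2 = Q a
    have ha1 : 1 ≤ a := by
      rcases Nat.eq_zero_or_pos a with h0 | h0
      · rw [h0] at ha; omega
      · exact h0
    obtain ⟨b, hb⟩ : ∃ b, Q * a = b + 1 := ⟨Q * a - 1, by
      have : 1 ≤ Q * a := Nat.mul_pos (by omega) ha1
      omega⟩
    have hRb : R ≤ b := by
      have : Q * 1 ≤ Q * a := Nat.mul_le_mul_left _ ha1
      omega
    have h1 : d * a * b = s * R := by
      have : Q * (d * a * b) = Q * (s * R) := by
        rw [← h]
        have hm1 : m + 1 = b := by omega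
        calc Q * (d * a * b) = b * (Q * a) * d := by ring
          _ = (m + 1) * (m + 2) * d := by rw [← ha, hm1]
      exact Nat.eq_of_mul_eq_mul_left (by omega) this
    have hle : d * a ≤ s := by
      by_contra hcon
      push Not at hcon
      have : s * R < d * a * b := by
        calc s * R < d * a * R := Nat.mul_lt_mul_of_pos_right hcon (by omega)
          _ ≤ d * a * b := Nat.mul_le_mul_left _ hRb
      omega
    have h2 : Q ∣ s - d * a := by
      have h3 : d * a * (Q * a) + (s - d * a) = s * Q := by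
        have : d * a * (Q * a) = d * a * b + d * a := by rw [hb]; ring
        rw [this, h1, hR]
        have : s * (R + 1) = s * R + s := by ring
        rw [this]; omega
      have h4 : Q ∣ d * a * (Q * a) + (s - d * a) := by rw [h3]; exact ⟨s, by ring⟩
      exact (Nat.dvd_add_right ⟨d * a * a, by ring⟩).1 h4
    have h3 : s - d * a = 0 := Nat.eq_zero_of_dvd_of_lt h2 (by omega)
    have h4 : d * a = s := by omega
    rw [h4] at h1
    have h5 : b = R := Nat.eq_of_mul_eq_mul_left (by omega) h1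
    have h6 : a = 1 := by
      have h7 : Q * a = Q * 1 := by omega
      exact Nat.eq_of_mul_eq_mul_left (by omega) h7
    rw [h6, mul_one] at h4
    rcases hd with h7 | ⟨h7, h8⟩
    · omega
    · have : 4 * 4 ≤ q ^ 2 := by nlinarith
      omega

/-- case `t = 3` -/
theorem p3t3 {m q d : ℕ} (hq2 : 2 ≤ q) (hd : d = 1 ∨ d = 3)
    (hd3 : d = 3 → 4 ≤ q) (hd4 : q = 4 → d = 3)
    (hcase : q ^ 3 = m + 2 ∨ q ^ 3 = m + 3 ∨ q ^ 3 = 2 * (m + 1) ∨ q ^ 3 = 2 * (m + 3))
    (h : (m + 1) * (m + 2) * (m + 3) * d = f3 q) : False := by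
  unfold f3 at h
  obtain ⟨Q, hQ⟩ : ∃ Q, Q = q ^ 3 := ⟨_, rfl⟩
  obtain ⟨s, hs⟩ : ∃ s, q ^ 2 = s + 1 := ⟨q ^ 2 - 1, by
    have : 1 ≤ q ^ 2 := Nat.one_le_pow _ _ (by omega)
    omega⟩
  have hs3 : 3 ≤ s := by nlinarith
  have hQs : Q = q * (s + 1) := by rw [hQ, ← hs]; ring
  have hQ2s : 2 * (s + 1) ≤ Q := by rw [hQs]; exact Nat.mul_le_mul_right _ hq2
  have es : q ^ 2 - 1 = s := by omega
  rw [es, ← hQ] at h
  rw [← hQ] at hcase
  have hd1 : 1 ≤ d := by omega
  rcases hcase with h1 | h1 | h1 | h1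
  · -- d (Q+1)(Q-1) = s (Q-1)
    have h2 : d * (m + 3) = s := by
      have : (Q * (m + 1)) * (d * (m + 3)) = (Q * (m + 1)) * s := by
        have e : Q - 1 = m + 1 := by omega
        rw [e] at h
        calc (Q * (m + 1)) * (d * (m + 3)) = (m + 1) * (m + 2) * (m + 3) * d := by rw [h1]; ring
          _ = Q * (s * (m + 1)) := h
          _ = (Q * (m + 1)) * s := by ring
      exact Nat.eq_of_mul_eq_mul_left (Nat.mul_pos (by omega) (by omega)) this
    have : 1 * (m + 3) ≤ d * (m + 3) := Nat.mul_le_mul_right _ hd1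
    omega
  · have h2 : d * (m + 1) = s := by
      have : (Q * (m + 2)) * (d * (m + 1)) = (Q * (m + 2)) * s := by
        have e : Q - 1 = m + 2 := by omega
        rw [e] at h
        calc (Q * (m + 2)) * (d * (m + 1)) = (m + 1) * (m + 2) * (m + 3) * d := by rw [h1]; ring
          _ = Q * (s * (m + 2)) := h
          _ = (Q * (m + 2)) * s := by ring
      exact Nat.eq_of_mul_eq_mul_left (Nat.mul_pos (by omega) (by omega)) this
    have : 1 * (m + 1) ≤ d * (m + 1) := Nat.mul_le_mul_right _ hd1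
    omega
  · -- (m+2)(m+3) d = 2 s (2m+1)
    have h2 : (m + 2) * (m + 3) * d = 2 * s * (2 * m + 1) := by
      have : (m + 1) * ((m + 2) * (m + 3) * d) = (m + 1) * (2 * s * (2 * m + 1)) := by
        have e : Q - 1 = 2 * m + 1 := by omega
        rw [e] at h
        calc (m + 1) * ((m + 2) * (m + 3) * d) = (m + 1) * (m + 2) * (m + 3) * d := by ring
          _ = Q * (s * (2 * m + 1)) := h
          _ = (m + 1) * (2 * s * (2 * m + 1)) := by rw [h1]; ring
      exact Nat.eq_of_mul_eq_mul_left (by omega) this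
    rcases Nat.lt_or_ge q 16 with h16 | h16
    · have hm : 2 * (m + 1) = q ^ 3 := by omega
      clear h hQs hQ2s h1 hQ
      have hpar : q % 2 = 0 := by
        by_contra hodd
        have h20 : Odd q := Nat.odd_iff.2 (by omega)
        have h21 := (h20.pow (n := 3))
        rw [← hm] at h21
        rcases h21 with ⟨w, hw⟩
        omega
      have hq7 : q = 2 ∨ q = 4 ∨ q = 6 ∨ q = 8 ∨ q = 10 ∨ q = 12 ∨ q = 14 := by omega
      rcases hq7 with rfl | rfl | rfl | rfl | rfl | rfl | rfl
      · obtain rfl : m = 3 := by omega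
        obtain rfl : s = 3 := by omega
        omega
      · obtain rfl : m = 31 := by omega
        obtain rfl : s = 15 := by omega
        omega
      · obtain rfl : m = 107 := by omega
        obtain rfl : s = 35 := by omega
        omega
      · obtain rfl : m = 255 := by omega
        obtain rfl : s = 63 := by omega
        omega
      · obtain rfl : m = 499 := by omega
        obtain rfl : s = 99 := by omega
        omega
      · obtain rfl : m = 863 := by omega
        obtain rfl : s = 143 := by omega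
        omega
      · obtain rfl : m = 1371 := by omega
        obtain rfl : s = 195 := by omega
        omega
    · have h17 : 16 * (s + 1) ≤ Q := by rw [hQs]; exact Nat.mul_le_mul_right _ h16
      have h18 : 8 * s ≤ m := by omega
      have h19 : (m + 2) * (m + 3) * 1 ≤ (m + 2) * (m + 3) * d := Nat.mul_le_mul_left _ hd1
      nlinarith
  · -- (m+1)(m+2) d = 2 s (2m+5)
    have h2 : (m + 1) * (m + 2) * d = 2 * s * (2 * m + 5) := by
      have : (m + 3) * ((m + 1) * (m + 2) * d) = (m + 3) * (2 * s * (2 * m + 5)) := by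
        have e : Q - 1 = 2 * m + 5 := by omega
        rw [e] at h
        calc (m + 3) * ((m + 1) * (m + 2) * d) = (m + 1) * (m + 2) * (m + 3) * d := by ring
          _ = Q * (s * (2 * m + 5)) := h
          _ = (m + 3) * (2 * s * (2 * m + 5)) := by rw [h1]; ring
      exact Nat.eq_of_mul_eq_mul_left (by omega) this
    rcases Nat.lt_or_ge q 16 with h16 | h16
    · have hm : 2 * (m + 3) = q ^ 3 := by omega
      clear h hQs hQ2s h1 hQ
      have hpar : q % 2 = 0 := by
        by_contra hodd
        have h20 : Odd q := Nat.odd_iff.2 (by omega)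
        have h21 := (h20.pow (n := 3))
        rw [← hm] at h21
        rcases h21 with ⟨w, hw⟩
        omega
      have hq7 : q = 2 ∨ q = 4 ∨ q = 6 ∨ q = 8 ∨ q = 10 ∨ q = 12 ∨ q = 14 := by omega
      rcases hq7 with rfl | rfl | rfl | rfl | rfl | rfl | rfl
      · obtain rfl : m = 1 := by omega
        obtain rfl : s = 3 := by omega
        omega
      · obtain rfl : m = 29 := by omega
        obtain rfl : s = 15 := by omega
        omega
      · obtain rfl : m = 105 := by omega
        obtain rfl : s = 35 := by omega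
        omega
      · obtain rfl : m = 253 := by omega
        obtain rfl : s = 63 := by omega
        omega
      · obtain rfl : m = 497 := by omega
        obtain rfl : s = 99 := by omega
        omega
      · obtain rfl : m = 861 := by omega
        obtain rfl : s = 143 := by omega
        omega
      · obtain rfl : m = 1369 := by omega
        obtain rfl : s = 195 := by omega
        omega
    · have h17 : 16 * (s + 1) ≤ Q := by rw [hQs]; exact Nat.mul_le_mul_right _ h16
      have h18 : 8 * (s + 1) ≤ m + 3 := by omega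
      have h19 : (m + 1) * (m + 2) * 1 ≤ (m + 1) * (m + 2) * d := Nat.mul_le_mul_left _ hd1
      nlinarith

end Pool.Agent.V8H48.OP
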