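import Mathlib
import Pool.Agent.V8H48.OP.S3

set_option autoImplicit false

namespace Pool.Agent.V8H48.OP

open Nat

theorem psl3 (m n : ℕ) (F : Type) [Field F] [Finite F] (hm : 5 ≤ m) :
    Nat.card (alternatingGroup (Fin m)) *
      Nat.card (Matrix.ProjectiveSpecialLinearGroup (Fin 3) F) =
        Nat.card (alternatingGroup (Fin n)) ↔
    n = m + 1 ∧ n = Nat.card (Matrix.ProjectiveSpecialLinearGroup (Fin 3) F) := by
  classical
  have : Fintype F := Fintype.ofFinite F
  have hcard := card_PSL3 F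
  obtain ⟨q, hq⟩ : ∃ q, q = Nat.card F := ⟨_, rfl⟩
  obtain ⟨N, hN⟩ : ∃ N, N = Nat.card (Matrix.ProjectiveSpecialLinearGroup (Fin 3) F) := ⟨_, rfl⟩
  have hNpos : 0 < N := by rw [hN]; exact Nat.card_pos
  have hpp : IsPrimePow q := by
    rw [hq, Nat.card_eq_fintype_card]; exact FiniteField.isPrimePow_card F
  rw [← hN, ← hq] at hcard
  rw [← hN]
  obtain ⟨g, hg⟩ : ∃ g, g = Nat.gcd 3 (q - 1) := ⟨_, rfl⟩
  rw [← hg] at hcard
  have hg13 : g = 1 ∨ g = 3 := by
    have : g ∣ 3 := hg ▸ Nat.gcd_dvd_left _ _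
    exact (Nat.dvd_prime Nat.prime_three).1 this
  have hgq : g ∣ q - 1 := hg ▸ Nat.gcd_dvd_right _ _
  have hq2 : 2 ≤ q := hpp.two_le
  have hg34 : g = 3 → 4 ≤ q := by
    intro h3
    rw [h3] at hgq
    have := Nat.le_of_dvd (by omega) hgq
    omega
  have hcopq : Nat.Coprime q g := by
    have h3 : Nat.Coprime q (q - 1) := by
      have := (cop (q - 1)).symm
      have e : q - 1 + 1 = q := Nat.sub_add_cancel (Nat.le_trans (by norm_num) hq2)
      rwa [e] at this
    exact h3.coprime_dvd_right hgq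
  have hq4 : q = 4 → g = 3 := by
    intro h4
    rw [hg, h4]; decide
  obtain ⟨p, k, hp, hk, hpk⟩ := (isPrimePow_nat_iff q).1 hpp
  have hpq : p ∣ q := by rw [← hpk]; exact dvd_pow_self p (by omega)
  have h4q : 4 ≤ q ^ 2 := by nlinarith
  have h8q : 8 ≤ q ^ 3 := by
    calc 8 = 2 ^ 3 := by norm_num
      _ ≤ q ^ 3 := Nat.pow_le_pow_left hq2 3
  have nd : ∀ j, 1 ≤ j → ¬ p ∣ q ^ j - 1 := by
    intro j hj h2
    have h0 : 1 ≤ q ^ j := Nat.one_le_pow _ _ (by omega)
    have h3 := Nat.dvd_sub (hpq.trans (dvd_pow_self q (by omega : j ≠ 0))) h2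
    have h5 : q ^ j - (q ^ j - 1) = 1 := by omega
    rw [h5] at h3
    exact hp.one_lt.ne' (Nat.dvd_one.1 h3)
  have ndg : ¬ p ∣ g := by
    intro h2
    have := nd 1 (le_refl 1)
    rw [pow_one] at this
    exact this (h2.trans hgq)
  have hpart : p ^ N.factorization p = q ^ 3 := by
    have h5 : (N * g).factorization p = (f3 q).factorization p := by rw [hcard]
    unfold f3 at h5
    rw [Nat.factorization_mul (by omega) (by omega),
      Nat.factorization_mul (by positivity) (Nat.mul_ne_zero (by omega) (by omega)),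
      Nat.factorization_mul (by omega) (by omega)] at h5
    simp only [Finsupp.add_apply] at h5
    rw [Nat.factorization_eq_zero_of_not_dvd ndg,
      Nat.factorization_eq_zero_of_not_dvd (nd 2 (by norm_num)),
      Nat.factorization_eq_zero_of_not_dvd (nd 3 (by norm_num))] at h5
    simp only [add_zero] at h5
    rw [h5, ← hpk, ← pow_mul, Nat.Prime.factorization_pow hp]
    simp
  have hlt : N < (p ^ N.factorization p) ^ 3 := by
    rw [hpart]
    have h1 : N ≤ f3 q := by
      rw [← hcard]; exact Nat.le_mul_of_pos_right _ (by omega)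
    have h2 : f3 q ≤ q ^ 3 * (q ^ 2 * q ^ 3) := by
      unfold f3
      exact Nat.mul_le_mul_left _ (Nat.mul_le_mul (Nat.sub_le _ _) (Nat.sub_le _ _))
    have h3 : q ^ 3 * (q ^ 2 * q ^ 3) = q ^ 8 := by ring
    have h4 : (q ^ 3) ^ 3 = q ^ 9 := by ring
    have h5 : q ^ 8 < q ^ 9 := Nat.pow_lt_pow_right (by omega) (by norm_num)
    omega
  constructor
  · intro h
    obtain ⟨t, rfl, ht⟩ := alt_eq hm hNpos h
    rcases Nat.lt_or_ge 3 t with h4 | h4
    · exfalso
      rw [← ht] at hlt
      have h5 := main_ineq hp hm (by omega) hlt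
      apply finite_check3 hm hg13 h5 (q := q)
      rw [ht]; exact hcard
    · have ht0 : t = 0 ∨ t = 1 ∨ t = 2 ∨ t = 3 := by omega
      rcases ht0 with rfl | rfl | rfl | rfl
      · exfalso
        have h1 : N = 1 := by rw [← ht]; rfl
        rw [h1, one_mul] at hcard
        have h2 : 8 * (3 * 7) ≤ f3 q := by
          unfold f3
          exact Nat.mul_le_mul h8q (Nat.mul_le_mul (by omega) (by omega))
        omega
      · refine ⟨rfl, ?_⟩
        rw [← ht]
        simp [A, Nat.ascFactorial]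
      · exfalso
        refine p3t2 hm hpp (d := g) ?_ hcopq (by rw [ht]; exact hcard)
        rcases hg13 with h5 | h5
        · exact Or.inl h5
        · exact Or.inr ⟨h5, hg34 h5⟩
      · exfalso
        have h5 := t3 hm hp ht hlt
        rw [hpart] at h5
        have e3 : A m 3 = (m + 1) * (m + 2) * (m + 3) := by
          simp [A, Nat.ascFactorial]
          ring
        refine p3t3 (m := m) (q := q) (d := g) hq2 hg13 hg34 hq4 ?_ (by rw [← e3, ht]; exact hcard)
        rcases h5 with h5 | ⟨_, h5⟩ | ⟨_, h5 | h5⟩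
        · exact Or.inl h5
        · exact Or.inr (Or.inl h5)
        · exact Or.inr (Or.inr (Or.inl h5))
        · exact Or.inr (Or.inr (Or.inr h5))
  · rintro ⟨h1, h2⟩
    subst h1
    apply alt_eq' hm
    rw [← h2]
    simp [A, Nat.ascFactorial]

end Pool.Agent.V8H48.OP
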