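import Mathlib
import Pool.Agent.V8H48.OP.S3b

set_option autoImplicit false

namespace Pool.Agent.V8H48.OP

open Nat

def hh : ℕ → ℕ → ℕ
  | 0, _ => 1
  | j + 1, q => hh j q * (q ^ (j + 2) - 1)

def Fk (k q : ℕ) : ℕ := q ^ (k * (k - 1) / 2) * hh (k - 1) q

theorem prod_hh (j q : ℕ) : ∏ i ∈ Finset.Icc 2 (j + 1), (q ^ i - 1) = hh j q := by
  induction j with
  | zero => simp [hh]
  | succ j ih => rw [Finset.prod_Icc_succ_top (by omega), ih]; rfl

theorem hh_mono {a b : ℕ} (h : a ≤ b) (j : ℕ) : hh j a ≤ hh j b := by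
  induction j with
  | zero => exact le_refl _
  | succ j ih =>
    exact Nat.mul_le_mul ih (Nat.sub_le_sub_right (Nat.pow_le_pow_left h _) 1)

theorem Fk_mono {a b : ℕ} (h : a ≤ b) (k : ℕ) : Fk k a ≤ Fk k b :=
  Nat.mul_le_mul (Nat.pow_le_pow_left h _) (hh_mono h _)

theorem hh_pos {q : ℕ} (hq : 2 ≤ q) (j : ℕ) : 0 < hh j q := by
  induction j with
  | zero => exact one_pos
  | succ j ih =>
    apply Nat.mul_pos ih
    have : 2 ^ 1 ≤ q ^ (j + 2) := (Nat.pow_le_pow_right (by norm_num) (by omega)).trans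
      (Nat.pow_le_pow_left hq (j + 2))
    omega

theorem hh_le {q : ℕ} (j : ℕ) :
    hh (j + 1) q ≤ (q ^ 2 - 1) * q ^ ((j + 2) * (j + 3) / 2 - 3) := by
  induction j with
  | zero => simp [hh]
  | succ j ih =>
    have h1 : (j + 1 + 2) * (j + 1 + 3) / 2 - 3 = ((j + 2) * (j + 3) / 2 - 3) + (j + 3) := by
      have h2 : (j + 1 + 2) * (j + 1 + 3) = (j + 2) * (j + 3) + 2 * (j + 3) := by ring
      have h3 : 2 * 3 ≤ (j + 2) * (j + 3) := Nat.mul_le_mul (by omega) (by omega)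
      rw [h2]; omega
    rw [h1, pow_add, ← mul_assoc]
    exact Nat.mul_le_mul ih (Nat.sub_le _ _)

theorem card_PSLk (k : ℕ) (hk : 1 ≤ k) (F : Type) [Field F] [Finite F] :
    Nat.card (Matrix.ProjectiveSpecialLinearGroup (Fin k) F) * Nat.gcd k (Nat.card F - 1) =
      Fk k (Nat.card F) := by
  have h1 := Subgroup.card_eq_card_quotient_mul_card_subgroup
    (Subgroup.center (Matrix.SpecialLinearGroup (Fin k) F))
  rw [Pool.Agent.H373SQ.card_center k hk F, Pool.Agent.H373SQ.card_SL k hk F] at h1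
  have h2 : Pool.Agent.H373SQ.numPSL k (Nat.card F) = Fk k (Nat.card F) := by
    unfold Pool.Agent.H373SQ.numPSL Fk
    obtain ⟨j, rfl⟩ : ∃ j, k = j + 1 := ⟨k - 1, by omega⟩
    rw [prod_hh]; rfl
  rw [← h2, h1]

/-! finite check -/

def rk (k : ℕ) : ℕ → ℕ → ℕ → ℕ
  | 0, _, c => c
  | i + 1, D, c => if Fk k (c + 2 ^ i) ≤ D then rk k i D (c + 2 ^ i) else rk k i D c

def nok (k g D : ℕ) : Bool :=
  decide (D < Fk k (rk k 5 D 0 + 1)) &&
    (decide (Fk k (rk k 5 D 0) < D) || decide (rk k 5 D 0 ≤ g))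

theorem nok_spec {k g D q : ℕ} (h : nok k g D = true) (hg : g < q) : D ≠ Fk k q := by
  unfold nok at h
  simp only [Bool.and_eq_true, Bool.or_eq_true, decide_eq_true_eq] at h
  obtain ⟨h2, h1⟩ := h
  intro hD
  rcases Nat.lt_or_ge (rk k 5 D 0) q with h3 | h3
  · have := Fk_mono (show rk k 5 D 0 + 1 ≤ q from h3) k
    omega
  · have := Fk_mono h3 k
    omega

def pr (m t : ℕ) : Bool :=
  if (m + t) ^ 3 * 8 ^ (t - 1) ≤ A m t then true else
  decide (A m t < 2 ^ 61) &&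
  (List.range 8).all fun k0 => (List.range (k0 + 4)).all fun g0 => nok (k0 + 4) (g0 + 1) (A m t * (g0 + 1))

def chkK4 : Bool := (List.range 509).all fun i => pr (i + 5) 4
def chkK5 : Bool := (List.range 11).all fun j => (List.range 59).all fun i => pr (i + 5) (j + 5)

theorem chkK4_ok : chkK4 = true := by decide +kernel
theorem chkK5_ok : chkK5 = true := by decide +kernel

theorem pr_spec {m t : ℕ} (h : pr m t = true) (hg : ¬ Good m t) :
    A m t < 2 ^ 61 ∧ ∀ k g q, 4 ≤ k → k ≤ 11 → 1 ≤ g → g ≤ k → g < q → A m t * g ≠ Fk k q := by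
  unfold pr at h
  unfold Good at hg
  rw [if_neg hg] at h
  simp only [Bool.and_eq_true, decide_eq_true_eq] at h
  refine ⟨h.1, ?_⟩
  intro k g q hk4 hk11 hg1 hgk hgq
  have h2 := h.2
  rw [List.all_eq_true] at h2
  have h3 := h2 (k - 4) (List.mem_range.2 (by omega))
  rw [List.all_eq_true] at h3
  have h4 := h3 (g - 1) (List.mem_range.2 (by omega))
  rw [Nat.sub_add_cancel hk4, Nat.sub_add_cancel hg1] at h4
  exact nok_spec h4 hgq

theorem finite_k {m t : ℕ} (hm : 5 ≤ m) (hg : ¬ Good m t)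
    (h : (t = 4 ∧ m ≤ 513) ∨ (5 ≤ t ∧ t ≤ 15 ∧ m ≤ 63)) :
    A m t < 2 ^ 61 ∧ ∀ k g q, 4 ≤ k → k ≤ 11 → 1 ≤ g → g ≤ k → g < q → A m t * g ≠ Fk k q := by
  rcases h with ⟨rfl, h1⟩ | ⟨h1, h2, h3⟩
  · have h4 := chkK4_ok
    unfold chkK4 at h4
    rw [List.all_eq_true] at h4
    have h5 := h4 (m - 5) (List.mem_range.2 (by omega))
    rw [Nat.sub_add_cancel hm] at h5
    exact pr_spec h5 hg
  · have h4 := chkK5_ok
    unfold chkK5 at h4
    rw [List.all_eq_true] at h4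
    have h5 := h4 (t - 5) (List.mem_range.2 (by omega))
    rw [List.all_eq_true] at h5
    have h6 := h5 (m - 5) (List.mem_range.2 (by omega))
    rw [Nat.sub_add_cancel hm, Nat.sub_add_cancel h1] at h6
    exact pr_spec h6 hg

theorem sq_aux {m : ℕ} (h : 29 ≤ m) : 24 * (m + 3) ^ 2 < 32 * ((m + 1) * (m + 2)) := by
  obtain ⟨w, rfl⟩ := Nat.exists_eq_add_of_le h
  nlinarith [Nat.zero_le (w ^ 2)]

theorem pslk (k m n : ℕ) (F : Type) [Field F] [Finite F] (hk : 4 ≤ k) (hm : 5 ≤ m)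
    (h : Nat.card (alternatingGroup (Fin m)) *
      Nat.card (Matrix.ProjectiveSpecialLinearGroup (Fin k) F) =
        Nat.card (alternatingGroup (Fin n))) : n = m + 1 ∨ n = m + 2 := by
  classical
  have : Fintype F := Fintype.ofFinite F
  have hcard := card_PSLk k (by omega) F
  obtain ⟨q, hq⟩ : ∃ q, q = Nat.card F := ⟨_, rfl⟩
  obtain ⟨N, hN⟩ : ∃ N, N = Nat.card (Matrix.ProjectiveSpecialLinearGroup (Fin k) F) := ⟨_, rfl⟩
  have hNpos : 0 < N := by rw [hN]; exact Nat.card_pos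
  have hpp : IsPrimePow q := by
    rw [hq, Nat.card_eq_fintype_card]; exact FiniteField.isPrimePow_card F
  rw [← hN, ← hq] at hcard
  rw [← hN] at h
  obtain ⟨g, hg⟩ : ∃ g, g = Nat.gcd k (q - 1) := ⟨_, rfl⟩
  rw [← hg] at hcard
  have hq2 : 2 ≤ q := hpp.two_le
  have hgk : g ≤ k := Nat.le_of_dvd (by omega) (hg ▸ Nat.gcd_dvd_left _ _)
  have hgq : g ∣ q - 1 := hg ▸ Nat.gcd_dvd_right _ _
  have hgq' : g ≤ q - 1 := Nat.le_of_dvd (by omega) hgq
  have hg1 : 1 ≤ g := by rw [hg]; exact Nat.gcd_pos_of_pos_left _ (by omega)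
  obtain ⟨p, c, hp, hc, hpc⟩ := (isPrimePow_nat_iff q).1 hpp
  have hpq : p ∣ q := by rw [← hpc]; exact dvd_pow_self p (by omega)
  obtain ⟨e, he⟩ : ∃ e, e = k * (k - 1) / 2 := ⟨_, rfl⟩
  obtain ⟨j, rfl⟩ : ∃ j, k = j + 2 := ⟨k - 2, by omega⟩
  have he6 : j + j + 2 ≤ e := by
    have e1 : (j + 2) * (j + 2 - 1) = (j + 1) * (j + 2) := by
      have : j + 2 - 1 = j + 1 := by omega
      rw [this]; ring
    have e3 : 2 * (j + j + 2) ≤ (j + 1) * (j + 2) := by nlinarith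
    rw [he, e1]; omega
  have hFk : Fk (j + 2) q = q ^ e * hh (j + 1) q := by unfold Fk; rw [← he]; rfl
  rw [hFk] at hcard
  have nd : ∀ i, 1 ≤ i → ¬ p ∣ q ^ i - 1 := by
    intro i hi h2
    have h0 : 1 ≤ q ^ i := Nat.one_le_pow _ _ (by omega)
    have h3 := Nat.dvd_sub (hpq.trans (dvd_pow_self q (by omega : i ≠ 0))) h2
    have h5 : q ^ i - (q ^ i - 1) = 1 := by omega
    rw [h5] at h3
    exact hp.one_lt.ne' (Nat.dvd_one.1 h3)
  have ndg : ¬ p ∣ g := by
    intro h2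
    have := nd 1 (le_refl 1)
    rw [pow_one] at this
    exact this (h2.trans hgq)
  have ndh : ∀ i, ¬ p ∣ hh i q := by
    intro i
    induction i with
    | zero => intro h2; exact hp.one_lt.ne' (Nat.dvd_one.1 h2)
    | succ i ih =>
      intro h2
      rcases (Nat.Prime.dvd_mul hp).1 h2 with h3 | h3
      · exact ih h3
      · exact nd (i + 2) (by omega) h3
  have hhpos := hh_pos hq2 (j + 1)
  have hpart : p ^ N.factorization p = q ^ e := by
    have h5 : (N * g).factorization p = (q ^ e * hh (j + 1) q).factorization p := by rw [hcard]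
    rw [Nat.factorization_mul (by omega) (by omega),
      Nat.factorization_mul (by positivity) (by omega)] at h5
    simp only [Finsupp.add_apply] at h5
    rw [Nat.factorization_eq_zero_of_not_dvd ndg,
      Nat.factorization_eq_zero_of_not_dvd (ndh (j + 1))] at h5
    simp only [add_zero] at h5
    rw [h5, ← hpc, ← pow_mul, Nat.Prime.factorization_pow hp]
    simp
  -- bound of the `p'`-part
  obtain ⟨Q, hQ⟩ : ∃ Q, Q = q ^ e := ⟨_, rfl⟩
  have hR : 32 * hh (j + 1) q ≤ 3 * Q ^ 2 := by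
    have h1 := hh_le (q := q) j
    obtain ⟨x, hx⟩ : ∃ x, (j + 2) * (j + 3) / 2 - 3 = x := ⟨_, rfl⟩
    rw [hx] at h1
    have h2 : x + 5 ≤ 2 * e := by
      have e1 : (j + 2) * (j + 2 - 1) = (j + 1) * (j + 2) := by
        have : j + 2 - 1 = j + 1 := by omega
        rw [this]; ring
      have e2 : (j + 2) * (j + 3) = (j + 1) * (j + 2) + 2 * (j + 2) := by ring
      have e3 : 2 ∣ (j + 1) * (j + 2) := (Nat.even_mul_succ_self (j + 1)).two_dvd
      have e4 : 2 * (j + 4) ≤ (j + 1) * (j + 2) := by nlinarith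
      rw [he, ← hx, e1, e2]
      omega
    have h3 : 32 * (q ^ 2 - 1) ≤ 3 * q ^ 5 := by
      rcases Nat.lt_or_ge q 3 with h4 | h4
      · have : q = 2 := by omega
        rw [this]; norm_num
      · have h5 : 32 * q ^ 2 ≤ 3 * q ^ 5 := by
          have : 3 ^ 3 ≤ q ^ 3 := Nat.pow_le_pow_left h4 3
          calc 32 * q ^ 2 ≤ (3 * q ^ 3) * q ^ 2 := Nat.mul_le_mul_right _ (by omega)
            _ = 3 * q ^ 5 := by ring
        have h6 : 32 * (q ^ 2 - 1) ≤ 32 * q ^ 2 := Nat.mul_le_mul_left _ (Nat.sub_le _ _)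
        omega
    calc 32 * hh (j + 1) q ≤ 32 * ((q ^ 2 - 1) * q ^ x) := Nat.mul_le_mul_left _ h1
      _ = (32 * (q ^ 2 - 1)) * q ^ x := by ring
      _ ≤ (3 * q ^ 5) * q ^ x := Nat.mul_le_mul_right _ h3
      _ = 3 * q ^ (x + 5) := by ring
      _ ≤ 3 * q ^ (2 * e) := Nat.mul_le_mul_left _ (Nat.pow_le_pow_right (by omega) h2)
      _ = 3 * Q ^ 2 := by rw [hQ, ← pow_mul]; ring_nf
  rw [← hQ] at hcard hpart
  have hQ64 : 64 ≤ Q := by
    rw [hQ]
    calc 64 = 2 ^ 6 := by norm_num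
      _ ≤ 2 ^ e := Nat.pow_le_pow_right (by norm_num) (by omega)
      _ ≤ q ^ e := Nat.pow_le_pow_left hq2 e
  have hNle : 32 * N ≤ 3 * Q ^ 3 := by
    have h1 : N ≤ Q * hh (j + 1) q := by
      rw [← hcard]; exact Nat.le_mul_of_pos_right _ (by omega)
    calc 32 * N ≤ 32 * (Q * hh (j + 1) q) := Nat.mul_le_mul_left _ h1
      _ = Q * (32 * hh (j + 1) q) := by ring
      _ ≤ Q * (3 * Q ^ 2) := Nat.mul_le_mul_left _ hR
      _ = 3 * Q ^ 3 := by ring
  have hQ3 : 0 < Q ^ 3 := by positivity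
  have hlt : N < (p ^ N.factorization p) ^ 3 := by rw [hpart]; omega
  obtain ⟨t, rfl, ht⟩ := alt_eq hm hNpos h
  have hN3 : 3 ≤ hh (j + 1) q := by
    have h0 : 1 ≤ hh j q := hh_pos hq2 j
    have h1 : 2 ^ 2 ≤ q ^ (j + 2) := (Nat.pow_le_pow_right (by norm_num) (by omega)).trans
      (Nat.pow_le_pow_left hq2 (j + 2))
    have h2 : 1 * 3 ≤ hh j q * (q ^ (j + 2) - 1) := Nat.mul_le_mul h0 (by omega)
    exact h2
  rcases Nat.lt_or_ge 3 t with h4 | h4
  · exfalso
    rw [← ht] at hlt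
    have h5 := main_ineq hp hm (by omega) hlt
    have hng : ¬ Good m t := by
      intro hg'
      have h1 := ppart_A hp m (t := t) (by omega)
      have h2 : (p ^ (A m t).factorization p) ^ 3 ≤ ((m + t) * 2 ^ (t - 1)) ^ 3 :=
        Nat.pow_le_pow_left h1 3
      have h3 : ((m + t) * 2 ^ (t - 1)) ^ 3 = (m + t) ^ 3 * 8 ^ (t - 1) := by
        rw [mul_pow, ← pow_mul, mul_comm (t - 1) 3, pow_mul]; norm_num
      rw [h3] at h2
      unfold Good at hg'
      omega
    obtain ⟨h6, h7⟩ := finite_k hm hng h5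
    rcases Nat.lt_or_ge 11 (j + 2) with h8 | h8
    · -- k ≥ 12: too large
      have h9 : Q * 3 ≤ N * g := by rw [hcard]; exact Nat.mul_le_mul_left _ hN3
      have h10 : N * g < 2 ^ 61 * (j + 2 + 1) := by
        rw [ht] at h6
        exact Nat.mul_lt_mul'' h6 (by omega)
      have h11 : 2 ^ e ≤ Q := by rw [hQ]; exact Nat.pow_le_pow_left hq2 e
      have h12 : 61 + (j - 5) ≤ e := by
        have e1 : (j + 2) * (j + 2 - 1) = (j + 1) * (j + 2) := by
          have : j + 2 - 1 = j + 1 := by omega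
          rw [this]; ring
        have e3 : 2 * (61 + (j - 5)) ≤ (j + 1) * (j + 2) := by
          obtain ⟨i, rfl⟩ : ∃ i, j = i + 10 := ⟨j - 10, by omega⟩
          have : i + 10 - 5 = i + 5 := by omega
          rw [this]; nlinarith
        rw [he, e1]; omega
      have h13 : 2 ^ (61 + (j - 5)) ≤ 2 ^ e := Nat.pow_le_pow_right (by norm_num) h12
      rw [pow_add] at h13
      have h14 : j + 2 + 1 ≤ 2 ^ (j - 5) * 3 := by
        obtain ⟨i, rfl⟩ : ∃ i, j = i + 10 := ⟨j - 10, by omega⟩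
        have : i + 10 - 5 = i + 5 := by omega
        rw [this, pow_add]
        have := Nat.lt_two_pow_self (n := i)
        omega
      have h15 : 2 ^ 61 * (j + 2 + 1) ≤ 2 ^ 61 * (2 ^ (j - 5) * 3) := Nat.mul_le_mul_left _ h14
      omega
    · apply h7 (j + 2) g q hk h8 hg1 hgk (by omega)
      rw [ht, hcard, hFk, hQ]
  · have ht0 : t = 0 ∨ t = 1 ∨ t = 2 ∨ t = 3 := by omega
    rcases ht0 with rfl | rfl | rfl | rfl
    · exfalso
      have h1 : N = 1 := by rw [← ht]; rfl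
      rw [h1, one_mul] at hcard
      have h2 : q * 1 ≤ Q * hh (j + 1) q := by
        apply Nat.mul_le_mul _ (by omega)
        rw [hQ]
        calc q = q ^ 1 := (pow_one q).symm
          _ ≤ q ^ e := Nat.pow_le_pow_right (by omega) (by omega)
      omega
    · left; rfl
    · right; rfl
    · exfalso
      have h5 := t3 hm hp ht hlt
      rw [hpart] at h5
      have e3 : A m 3 = (m + 1) * (m + 2) * (m + 3) := by
        simp [A, Nat.ascFactorial]
        ring
      have h6 : Q ≤ 2 * (m + 3) := by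
        rcases h5 with h5 | ⟨_, h5⟩ | ⟨_, h5 | h5⟩ <;> omega
      have h7 : Q ^ 3 ≤ (2 * (m + 3)) ^ 3 := Nat.pow_le_pow_left h6 3
      have h8 : N = (m + 1) * (m + 2) * (m + 3) := by rw [← e3]; exact ht.symm
      have h9 : 32 * ((m + 1) * (m + 2) * (m + 3)) ≤ 24 * (m + 3) ^ 3 := by
        rw [← h8]
        calc 32 * N ≤ 3 * Q ^ 3 := hNle
          _ ≤ 3 * (2 * (m + 3)) ^ 3 := Nat.mul_le_mul_left _ h7
          _ = 24 * (m + 3) ^ 3 := by ring
      have h10 : 24 * (m + 3) ^ 2 < 32 * ((m + 1) * (m + 2)) := sq_aux (by omega)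
      have h11 : 24 * (m + 3) ^ 2 * (m + 3) < 32 * ((m + 1) * (m + 2)) * (m + 3) :=
        Nat.mul_lt_mul_of_pos_right h10 (by omega)
      have h12 : 24 * (m + 3) ^ 2 * (m + 3) = 24 * (m + 3) ^ 3 := by ring
      have h13 : 32 * ((m + 1) * (m + 2)) * (m + 3) = 32 * ((m + 1) * (m + 2) * (m + 3)) := by ring
      omega

end Pool.Agent.V8H48.OP
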